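import Pool.Agent.MP_8db1a4_gt.HyMetric

set_option autoImplicit false

/-! Basic lemmas on the cone and the hyperboloid (MP_8db1a4_gt). -/

namespace Pool.Agent.MP_8db1a4_gt

open Set

variable {n : ℕ}

theorem isOpen_LCone (n : ℕ) : IsOpen (LCone n) :=
  isOpen_lt (continuous_fst.norm) continuous_snd

theorem convex_LCone (n : ℕ) : Convex ℝ (LCone n) := by
  intro X hX Y hY a b ha hb hab
  show ‖(a • X + b • Y).1‖ < (a • X + b • Y).2
  simp only [Prod.fst_add, Prod.smul_fst, Prod.snd_add, Prod.smul_snd, smul_eq_mul]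
  have h1 : ‖a • X.1 + b • Y.1‖ ≤ a * ‖X.1‖ + b * ‖Y.1‖ := by
    refine (norm_add_le _ _).trans ?_
    rw [norm_smul, norm_smul, Real.norm_of_nonneg ha, Real.norm_of_nonneg hb]
  have hX' : ‖X.1‖ < X.2 := hX
  have hY' : ‖Y.1‖ < Y.2 := hY
  rcases eq_or_lt_of_le ha with h0 | h0
  · subst h0
    have hb1 : b = 1 := by linarith
    subst hb1
    simpa using hY'
  · nlinarith

theorem smul_mem_LCone {X : LV n} (hX : X ∈ LCone n) {t : ℝ} (ht : 0 < t) : t • X ∈ LCone n := by
  show ‖(t • X).1‖ < (t • X).2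
  have hX' : ‖X.1‖ < X.2 := hX
  simp only [Prod.smul_fst, Prod.smul_snd, smul_eq_mul, norm_smul, Real.norm_of_nonneg ht.le]
  exact mul_lt_mul_of_pos_left hX' ht

theorem zero_notMem_LCone (n : ℕ) : (0 : LV n) ∉ LCone n := by
  intro h
  have : ‖(0 : LV n).1‖ < (0 : LV n).2 := h
  simp at this

theorem lor_self_neg {X : LV n} (hX : X ∈ LCone n) : lor X X < 0 := by
  have hX' : ‖X.1‖ < X.2 := hX
  have h5 : inner ℝ X.1 X.1 = ‖X.1‖ * ‖X.1‖ := real_inner_self_eq_norm_mul_norm _
  simp only [lor, h5]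
  nlinarith [norm_nonneg X.1]

theorem continuous_lor_right (X : LV n) : Continuous (fun Y : LV n => lor X Y) := by
  unfold lor
  fun_prop

theorem continuous_lor (n : ℕ) : Continuous (fun p : LV n × LV n => lor p.1 p.2) := by
  unfold lor
  fun_prop

theorem rad_pos {X : LV n} (hX : X ∈ LCone n) : 0 < rad X :=
  Real.sqrt_pos.mpr (by have := lor_self_neg hX; linarith)

theorem rad_sq {X : LV n} (hX : X ∈ LCone n) : rad X ^ 2 = -lor X X :=
  Real.sq_sqrt (by have := lor_self_neg hX; linarith)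

theorem rad_hy (x : Hy n) : rad x.val = 1 := by
  unfold rad
  rw [x.lor_self]; simp

theorem rad_smul (X : LV n) {t : ℝ} (ht : 0 ≤ t) : rad (t • X) = t * rad X := by
  unfold rad
  rw [lor_smul_left, lor_smul_right, show -(t * (t * lor X X)) = t ^ 2 * (-lor X X) by ring,
    Real.sqrt_mul (sq_nonneg t), Real.sqrt_sq ht]

theorem continuous_rad (n : ℕ) : Continuous (rad : LV n → ℝ) := by
  unfold rad lor
  fun_prop

/-- Every vector of the open cone is a positive multiple of a point of the hyperboloid. -/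
theorem exists_smul_hy {X : LV n} (hX : X ∈ LCone n) : ∃ x : Hy n, X = rad X • x.val := by
  have h1 := rad_pos hX
  refine ⟨⟨(rad X)⁻¹ • X, smul_mem_LCone hX (inv_pos.mpr h1), ?_⟩, ?_⟩
  · rw [lor_smul_left, lor_smul_right]
    have h2 := rad_sq hX
    have h3 : lor X X = -(rad X ^ 2) := by linarith
    rw [h3]
    field_simp
  · rw [smul_smul, mul_inv_cancel₀ h1.ne', one_smul]

theorem Hy.ext' {x y : Hy n} (h : x.val = y.val) : x = y := by
  cases x; cases y; simp_all

section Action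

variable {G : Type*} [Group G] {ρ : G →* (LV n →L[ℝ] LV n)}

theorem rho_inv_apply (ρ : G →* (LV n →L[ℝ] LV n)) (g : G) (X : LV n) : ρ g⁻¹ (ρ g X) = X := by
  have h : ρ (g⁻¹ * g) X = X := by simp
  rw [map_mul] at h
  exact h

theorem rho_apply_inv (ρ : G →* (LV n →L[ℝ] LV n)) (g : G) (X : LV n) : ρ g (ρ g⁻¹ X) = X := by
  have h : ρ (g * g⁻¹) X = X := by simp
  rw [map_mul] at h
  exact h

theorem lor_inv_left (h : LorAction ρ) (g : G) (X Y : LV n) :
    lor (ρ g⁻¹ X) Y = lor X (ρ g Y) := by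
  rw [← h.lor_eq g (ρ g⁻¹ X) Y, rho_apply_inv]

theorem rad_rho (h : LorAction ρ) (g : G) (X : LV n) : rad (ρ g X) = rad X := by
  unfold rad
  rw [h.lor_eq]

theorem mem_LCone_rho (h : LorAction ρ) (g : G) (X : LV n) : ρ g X ∈ LCone n ↔ X ∈ LCone n := by
  constructor
  · intro hX
    have := h.cone g⁻¹ _ hX
    rwa [rho_inv_apply] at this
  · exact h.cone g X

theorem hy_smul_val (h : LorAction ρ) (g : G) (x : Hy n) :
    letI := hyAction h; (g • x).val = ρ g x.val := rfl

theorem hy_dist_smul (h : LorAction ρ) (g : G) (x y : Hy n) :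
    letI := hyAction h; dist (g • x) (g • y) = dist x y := by
  letI := hyAction h
  show Real.arcosh (-lor (ρ g x.val) (ρ g y.val)) = Real.arcosh (-lor x.val y.val)
  rw [h.lor_eq]

end Action

end Pool.Agent.MP_8db1a4_gt
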