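import Pool.Agent.MP_8db1a4_gt.Cochain

set_option autoImplicit false

/-! # Gluing of cochains (small simplices theorem), MP_8db1a4_gt, [K-T1] -/

namespace Pool.Agent.MP_8db1a4_gt

open Set

namespace GlueAux

section Alg

variable {V : Type*} {A : Type*} [AddCommGroup A]

/-- Transpose of the cone operator. -/
def cn {j : ℕ} (b : V) (c : (Fin (j + 1) → V) → A) : (Fin j → V) → A :=
  fun τ => c (Fin.cons b τ : Fin (j + 1) → V)

lemma dC_cons {j : ℕ} (c : (Fin (j + 1) → V) → A) (b : V) (τ : Fin (j + 1) → V) :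
    dC c (Fin.cons b τ : Fin (j + 2) → V) = c τ - dC (cn b c) τ := by
  unfold dC cn
  rw [Fin.sum_univ_succ, sub_eq_add_neg, ← Finset.sum_neg_distrib]
  congr 1
  · simp
  · refine Finset.sum_congr rfl fun i _ => ?_
    have : (fun l => (Fin.cons b τ : Fin (j + 2) → V) (i.succ.succAbove l))
        = (Fin.cons b (fun l => τ (i.succAbove l)) : Fin (j + 1) → V) := by
      funext l
      refine Fin.cases ?_ (fun l => ?_) l
      · simp
      · simp
    rw [this, Fin.val_succ, pow_succ]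
    simp

lemma dC_add {j : ℕ} (c c' : (Fin j → V) → A) (σ : Fin (j + 1) → V) :
    dC (fun τ => c τ + c' τ) σ = dC c σ + dC c' σ := by
  simp [dC, Finset.sum_add_distrib]

lemma dC_sub {j : ℕ} (c c' : (Fin j → V) → A) (σ : Fin (j + 1) → V) :
    dC (fun τ => c τ - c' τ) σ = dC c σ - dC c' σ := by
  simp [dC, smul_sub, Finset.sum_sub_distrib]

lemma cn_dC {j : ℕ} (b : V) (c : (Fin (j + 1) → V) → A) :
    cn b (dC c) = fun τ => c τ - dC (cn b c) τ := by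
  funext τ
  exact dC_cons c b τ

lemma dC_dC : ∀ {j : ℕ} (c : (Fin j → V) → A) (σ : Fin (j + 2) → V), dC (dC c) σ = 0
  | 0, c, σ => by
    have h : ∀ a b : Fin 0 → V, a = b := fun a b => Subsingleton.elim _ _
    simp only [dC, Fin.sum_univ_succ, Finset.univ_eq_empty, Finset.sum_empty]
    simp
  | j + 1, c, σ => by
    have h1 : σ = (Fin.cons (σ 0) (fun l => σ l.succ) : Fin (j + 3) → V) := by
      funext l
      refine Fin.cases ?_ (fun l => ?_) l <;> simp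
    rw [h1, dC_cons]
    have h2 : cn (σ 0) (dC c) = fun τ => c τ - dC (cn (σ 0) c) τ := by
      funext τ
      exact dC_cons c (σ 0) τ
    rw [h2, dC_sub, dC_dC (cn (σ 0) c)]
    simp

end Alg

section Sd

variable {V : Type*} [AddCommGroup V] [Module ℝ V] {A : Type*} [AddCommGroup A]

/-- Barycenter. -/
noncomputable def bary {j : ℕ} (σ : Fin j → V) : V := (j : ℝ)⁻¹ • ∑ i, σ i

/-- Transpose of barycentric subdivision. -/
noncomputable def sdC : (j : ℕ) → ((Fin j → V) → A) → (Fin j → V) → A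
  | 0, c, σ => c σ
  | j + 1, c, σ => dC (sdC j (cn (bary σ) c)) σ

/-- Transpose of the chain homotopy between the identity and barycentric subdivision. -/
noncomputable def tC : (j : ℕ) → ((Fin (j + 1) → V) → A) → (Fin j → V) → A
  | 0, _, _ => 0
  | j + 1, c, σ => cn (bary σ) c σ - dC (tC j (cn (bary σ) c)) σ

lemma sdC_sub : ∀ (j : ℕ) (c c' : (Fin j → V) → A) (σ : Fin j → V),
    sdC j (fun τ => c τ - c' τ) σ = sdC j c σ - sdC j c' σ
  | 0, c, c', σ => rfl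
  | j + 1, c, c', σ => by
    simp only [sdC]
    rw [← dC_sub]
    congr 1
    funext τ
    exact sdC_sub j (cn (bary σ) c) (cn (bary σ) c') τ

lemma tC_sub : ∀ (j : ℕ) (c c' : (Fin (j + 1) → V) → A) (σ : Fin j → V),
    tC j (fun τ => c τ - c' τ) σ = tC j c σ - tC j c' σ
  | 0, c, c', σ => by simp [tC]
  | j + 1, c, c', σ => by
    simp only [tC]
    have h : dC (tC j (cn (bary σ) fun τ => c τ - c' τ)) σ
        = dC (tC j (cn (bary σ) c)) σ - dC (tC j (cn (bary σ) c')) σ := by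
      rw [← dC_sub]
      congr 1
      funext τ
      exact tC_sub j (cn (bary σ) c) (cn (bary σ) c') τ
    rw [h]
    simp only [cn]
    abel

lemma sdC_dC : ∀ (j : ℕ) (c : (Fin j → V) → A) (σ : Fin (j + 1) → V),
    sdC (j + 1) (dC c) σ = dC (sdC j c) σ
  | 0, c, σ => by
    simp only [sdC, dC, cn]
    simp
  | j + 1, c, σ => by
    rw [sdC, cn_dC]
    have h1 : sdC (j + 1) (fun τ => c τ - dC (cn (bary σ) c) τ)
        = fun τ => sdC (j + 1) c τ - dC (sdC j (cn (bary σ) c)) τ := by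
      funext τ
      rw [sdC_sub, sdC_dC j]
    rw [h1, dC_sub, dC_dC, sub_zero]

lemma homotopy : ∀ (j : ℕ) (c : (Fin (j + 1) → V) → A) (σ : Fin (j + 1) → V),
    sdC (j + 1) c σ + tC (j + 1) (dC c) σ + dC (tC j c) σ = c σ
  | 0, c, σ => by
    have h : (fun l : Fin 1 => (Fin.cons (bary σ) σ : Fin 2 → V) (Fin.succAbove 1 l))
        = (Fin.cons (bary σ) (fun l : Fin 0 => σ l.succ) : Fin 1 → V) := by
      funext l
      fin_cases l
      rfl
    simp only [sdC, tC, dC, cn]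
    simp [h]
  | j + 1, c, σ => by
    rw [sdC, tC, cn_dC]
    have h1 : tC (j + 1) (fun τ => c τ - dC (cn (bary σ) c) τ)
        = fun τ => (tC (j + 1) c τ + sdC (j + 1) (cn (bary σ) c) τ +
          dC (tC j (cn (bary σ) c)) τ) - cn (bary σ) c τ := by
      funext τ
      rw [tC_sub, ← homotopy j (cn (bary σ) c) τ]
      abel
    rw [h1, dC_sub, dC_add, dC_add, dC_dC]
    beta_reduce
    abel

lemma sdC_map (f : V → V) (hf : ∀ (j : ℕ) (σ : Fin j → V), bary (fun i => f (σ i)) = f (bary σ))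
    (φ : A →+ A) : ∀ (j : ℕ) (c c' : (Fin j → V) → A),
    (∀ τ : Fin j → V, c (fun i => f (τ i)) = φ (c' τ)) →
    ∀ σ : Fin j → V, sdC j c (fun i => f (σ i)) = φ (sdC j c' σ)
  | 0, c, c', h, σ => h σ
  | j + 1, c, c', h, σ => by
    simp only [sdC, dC, map_sum, map_zsmul]
    refine Finset.sum_congr rfl fun i _ => ?_
    congr 1
    rw [hf]
    refine sdC_map f hf φ j _ _ (fun τ => ?_) (fun l => σ (i.succAbove l))
    simp only [cn]
    rw [← h]
    congr 1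
    funext l
    refine Fin.cases ?_ (fun l => ?_) l <;> simp

lemma tC_map (f : V → V) (hf : ∀ (j : ℕ) (σ : Fin j → V), bary (fun i => f (σ i)) = f (bary σ))
    (φ : A →+ A) : ∀ (j : ℕ) (c c' : (Fin (j + 1) → V) → A),
    (∀ τ : Fin (j + 1) → V, c (fun i => f (τ i)) = φ (c' τ)) →
    ∀ σ : Fin j → V, tC j c (fun i => f (σ i)) = φ (tC j c' σ)
  | 0, c, c', h, σ => by simp [tC]
  | j + 1, c, c', h, σ => by
    have hcn : ∀ τ : Fin (j + 1) → V, cn (bary (fun i => f (σ i))) c (fun i => f (τ i))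
        = φ (cn (bary σ) c' τ) := by
      intro τ
      simp only [cn]
      rw [hf, ← h]
      congr 1
      funext l
      refine Fin.cases ?_ (fun l => ?_) l <;> simp
    simp only [tC, map_sub, hcn]
    congr 1
    simp only [dC, map_sum, map_zsmul]
    refine Finset.sum_congr rfl fun i _ => ?_
    congr 1
    exact tC_map f hf φ j _ _ hcn (fun l => σ (i.succAbove l))

lemma bary_mem_hull {j : ℕ} (σ : Fin (j + 1) → V) : bary σ ∈ hull σ := by
  unfold bary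
  rw [Finset.smul_sum]
  refine (convex_convexHull ℝ _).sum_mem (fun _ _ => by positivity) ?_
    (fun i _ => subset_convexHull ℝ _ ⟨i, rfl⟩)
  simp
  field_simp

lemma hull_mono {j j' : ℕ} (σ : Fin j → V) (τ : Fin j' → V) (h : ∀ l, τ l ∈ hull σ) :
    hull τ ⊆ hull σ :=
  convexHull_min (by rintro _ ⟨l, rfl⟩; exact h l) (convex_convexHull ℝ _)

lemma hull_face {j : ℕ} (σ : Fin (j + 1) → V) (i : Fin (j + 1)) :
    hull (fun l => σ (i.succAbove l)) ⊆ hull σ :=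
  hull_mono _ _ fun _ => subset_convexHull ℝ _ ⟨_, rfl⟩

open Pointwise

lemma smul_sub_mono {K K' : Set V} (r : ℝ) (h : K' ⊆ K) : r • (K' - K') ⊆ r • (K - K) :=
  Set.smul_set_mono (Set.sub_subset_sub h h)

lemma convex_diff {K : Set V} (hK : Convex ℝ K) (r : ℝ) : Convex ℝ (r • (K - K)) :=
  (hK.sub hK).smul r

lemma bary_sub_mem {j : ℕ} (σ : Fin (j + 1) → V) {lam : ℝ} (h0 : 0 < lam)
    (h1 : 1 - 1 / ((j : ℝ) + 1) ≤ lam) (w : V) (hw : w ∈ hull σ) :
    bary σ - w ∈ lam • (hull σ - hull σ) := by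
  have hS : Convex ℝ (lam • (hull σ - hull σ)) := convex_diff (convex_convexHull ℝ _) lam
  have key : hull σ ⊆ {w | bary σ - w ∈ lam • (hull σ - hull σ)} := by
    refine convexHull_min ?_ ?_
    · rintro _ ⟨i, rfl⟩
      refine Set.mem_smul_set.2 ⟨(σ i + lam⁻¹ • (bary σ - σ i)) - σ i, Set.sub_mem_sub ?_
        (subset_convexHull ℝ _ ⟨i, rfl⟩), ?_⟩
      · have hn : (0 : ℝ) < (j : ℝ) + 1 := by positivity
        have hli : (0 : ℝ) < lam⁻¹ := by positivity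
        have e : σ i + lam⁻¹ • (bary σ - σ i)
            = ∑ l, (lam⁻¹ / ((j : ℝ) + 1) + (if l = i then 1 - lam⁻¹ else 0)) • σ l := by
          simp only [add_smul, Finset.sum_add_distrib, ite_smul, zero_smul, Finset.sum_ite_eq',
            Finset.mem_univ, if_true]
          rw [← Finset.smul_sum, bary, smul_sub, smul_smul]
          push_cast
          rw [div_eq_mul_inv, sub_smul, one_smul]
          abel
        rw [e]
        refine (convex_convexHull ℝ _).sum_mem (fun _l _ => ?_) ?_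
          (fun i _ => subset_convexHull ℝ _ ⟨i, rfl⟩)
        · split_ifs with h
          · have h2 : lam⁻¹ * (1 - 1 / ((j : ℝ) + 1)) ≤ lam⁻¹ * lam :=
              mul_le_mul_of_nonneg_left h1 hli.le
            rw [inv_mul_cancel₀ h0.ne'] at h2
            have h3 : lam⁻¹ * (1 - 1 / ((j : ℝ) + 1)) = lam⁻¹ - lam⁻¹ / ((j : ℝ) + 1) := by ring
            linarith
          · positivity
        · rw [Finset.sum_add_distrib]
          simp
          field_simp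
          ring
      · rw [add_sub_cancel_left, smul_inv_smul₀ h0.ne']
    · intro x hx y hy a b ha hb hab
      simp only [Set.mem_ofPred_eq] at hx hy ⊢
      have : bary σ - (a • x + b • y) = a • (bary σ - x) + b • (bary σ - y) := by
        have : bary σ = (a + b) • bary σ := by rw [hab, one_smul]
        rw [smul_sub, smul_sub]
        nth_rewrite 1 [this]
        rw [add_smul]
        abel
      rw [this]
      exact hS hx hy ha hb hab
  exact key hw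

/-- The tuples `τ` which may occur in the barycentric subdivision of `σ`. -/
def Sub (lam : ℝ) {j : ℕ} (σ τ : Fin j → V) : Prop :=
  hull τ ⊆ hull σ ∧ ∀ a b, τ a - τ b ∈ lam • (hull σ - hull σ)

lemma Sub.diff {lam : ℝ} {j : ℕ} {σ τ : Fin j → V} (h : Sub lam σ τ) :
    hull τ - hull τ ⊆ lam • (hull σ - hull σ) := by
  have h1 : hull τ - hull τ = convexHull ℝ (range τ - range τ) := by
    rw [convexHull_sub]; rfl
  rw [h1]
  refine convexHull_min ?_ (convex_diff (convex_convexHull ℝ _) lam)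
  rintro _ ⟨_, ⟨a, rfl⟩, _, ⟨b, rfl⟩, rfl⟩
  exact h.2 a b

lemma sdC_congr {lam : ℝ} (h0 : 0 < lam) (N : ℕ) (hN : 1 - 1 / (N : ℝ) ≤ lam) :
    ∀ (j : ℕ), j ≤ N → ∀ (c c' : (Fin j → V) → A) (σ : Fin j → V),
    (∀ τ, Sub lam σ τ → c τ = c' τ) → sdC j c σ = sdC j c' σ
  | 0, _, c, c', σ, h => h σ ⟨subset_rfl, fun a => a.elim0⟩
  | j + 1, hj, c, c', σ, h => by
    simp only [sdC, dC]
    refine Finset.sum_congr rfl fun i _ => ?_
    congr 1
    refine sdC_congr h0 N hN j (by omega) _ _ _ fun τ hτ => ?_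
    refine h _ ⟨hull_mono _ _ fun l => ?_, fun a b => ?_⟩
    · refine Fin.cases ?_ (fun l => ?_) l
      · simpa using bary_mem_hull σ
      · simpa using hull_face σ i (hτ.1 (subset_convexHull ℝ _ ⟨l, rfl⟩))
    · have h1 : 1 - 1 / ((j : ℝ) + 1) ≤ lam := by
        refine le_trans ?_ hN
        have : (1 : ℝ) / N ≤ 1 / ((j : ℝ) + 1) := by
          apply one_div_le_one_div_of_le (by positivity)
          exact_mod_cast hj
        linarith
      have hmem : ∀ l, τ l ∈ hull σ := fun l => hull_face σ i (hτ.1 (subset_convexHull ℝ _ ⟨l, rfl⟩))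
      have hneg : ∀ v, v ∈ lam • (hull σ - hull σ) → -v ∈ lam • (hull σ - hull σ) := by
        rintro _ ⟨_, ⟨x, hx, y, hy, rfl⟩, rfl⟩
        refine ⟨y - x, ⟨y, hy, x, hx, rfl⟩, ?_⟩
        simp only [← smul_neg, neg_sub]
      revert b
      refine Fin.cases (Fin.cases ?_ fun b => ?_) (fun a => Fin.cases ?_ fun b => ?_) a
      · have := bary_sub_mem σ h0 h1 (bary σ) (bary_mem_hull σ)
        simpa using this
      · simpa using bary_sub_mem σ h0 h1 _ (hmem b)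
      · have := hneg _ (bary_sub_mem σ h0 h1 _ (hmem a))
        simpa using this
      · have := smul_sub_mono lam (hull_face σ i) (hτ.2 a b)
        simpa using this

lemma tC_congr : ∀ (j : ℕ) (c c' : (Fin (j + 1) → V) → A) (σ : Fin j → V),
    (∀ τ, hull τ ⊆ hull σ → c τ = c' τ) → tC j c σ = tC j c' σ
  | 0, c, c', σ, h => rfl
  | j + 1, c, c', σ, h => by
    have hcn : ∀ τ : Fin (j + 1) → V, hull τ ⊆ hull σ → cn (bary σ) c τ = cn (bary σ) c' τ := by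
      intro τ hτ
      refine h _ (hull_mono _ _ fun l => ?_)
      refine Fin.cases ?_ (fun l => ?_) l
      · simpa using bary_mem_hull σ
      · simpa using hτ (subset_convexHull ℝ _ ⟨l, rfl⟩)
    simp only [tC, dC]
    rw [hcn σ subset_rfl]
    congr 1
    refine Finset.sum_congr rfl fun i _ => ?_
    congr 1
    exact tC_congr j _ _ _ fun τ hτ => hcn τ (hτ.trans (hull_face σ i))

end Sd

section Main

variable {V : Type*} [NormedAddCommGroup V] [NormedSpace ℝ V]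

open Pointwise

/-- `K` is small at scale `r`. -/
def Sm (U₁ U₂ : Set V) (r : ℝ) (K : Set V) : Prop :=
  ∀ x ∈ K, (∀ y ∈ K, y - x ∈ r • (K - K) → y ∈ U₁) ∨ (∀ y ∈ K, y - x ∈ r • (K - K) → y ∈ U₂)

lemma Sm.mono {U₁ U₂ : Set V} {r r' : ℝ} {K K' : Set V} (h : Sm U₁ U₂ r K) (hK : K' ⊆ K)
    (hr : r' • (K' - K') ⊆ r • (K - K)) : Sm U₁ U₂ r' K' := fun x hx =>
  (h x (hK hx)).imp (fun H y hy hyx => H y (hK hy) (hr hyx))
    (fun H y hy hyx => H y (hK hy) (hr hyx))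

lemma Sm.subset {U₁ U₂ : Set V} {r : ℝ} {K : Set V} (h : Sm U₁ U₂ r K) : K ⊆ U₁ ∪ U₂ := by
  intro x hx
  have h0 : x - x ∈ r • (K - K) := ⟨x - x, ⟨x, hx, x, hx, rfl⟩, by simp⟩
  exact (h x hx).imp (fun H => H x hx h0) (fun H => H x hx h0)

lemma Sm.one {U₁ U₂ : Set V} {K : Set V} (h : Sm U₁ U₂ 1 K) (hne : K.Nonempty) :
    K ⊆ U₁ ∨ K ⊆ U₂ := by
  obtain ⟨x, hx⟩ := hne
  exact (h x hx).imp (fun H y hy => H y hy (by rw [one_smul]; exact ⟨y, hy, x, hx, rfl⟩))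
    (fun H y hy => H y hy (by rw [one_smul]; exact ⟨y, hy, x, hx, rfl⟩))

lemma sm_of_subset {U₁ U₂ : Set V} {K : Set V} (r : ℝ) (h : K ⊆ U₁ ∨ K ⊆ U₂) :
    Sm U₁ U₂ r K := fun _ _ => h.imp (fun H _ hy _ => H hy) (fun H _ hy _ => H hy)

lemma pow_smul_diff {K : Set V} (hK : Convex ℝ K) {lam : ℝ} (h0 : 0 ≤ lam) (h1 : lam ≤ 1)
    {m m' : ℕ} (hm : m ≤ m') : lam ^ m' • (K - K) ⊆ lam ^ m • (K - K) := by
  obtain ⟨d, rfl⟩ := Nat.exists_eq_add_of_le hm
  rw [pow_add, mul_smul]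
  refine Set.smul_set_mono ?_
  rintro _ ⟨v, hv, rfl⟩
  have hc : Convex ℝ (K - K) := hK.sub hK
  have hz : (0 : V) ∈ K - K := by
    obtain ⟨x, hx, y, hy, rfl⟩ := hv
    exact ⟨x, hx, x, hx, by simp⟩
  have := hc hz hv (sub_nonneg.2 (pow_le_one₀ h0 h1 : lam ^ d ≤ 1)) (pow_nonneg h0 d)
    (by ring)
  simpa using this

lemma Sm.pow {U₁ U₂ : Set V} {K : Set V} (hK : Convex ℝ K) {lam : ℝ} (h0 : 0 ≤ lam) (h1 : lam ≤ 1)
    {m m' : ℕ} (hm : m ≤ m') (h : Sm U₁ U₂ (lam ^ m) K) : Sm U₁ U₂ (lam ^ m') K :=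
  h.mono subset_rfl (pow_smul_diff hK h0 h1 hm)

lemma exists_sm {U₁ U₂ : Set V} (h₁ : IsOpen U₁) (h₂ : IsOpen U₂) {K : Set V} (hK : IsCompact K)
    (hU : K ⊆ U₁ ∪ U₂) {lam : ℝ} (h0 : 0 ≤ lam) (h1 : lam < 1) : ∃ m : ℕ, Sm U₁ U₂ (lam ^ m) K := by
  obtain ⟨δ, hδ, H⟩ := lebesgue_number_lemma_of_metric (c := fun i : Bool => cond i U₁ U₂) hK
    (by rintro (_ | _) <;> simpa) (by
      intro x hx
      rcases hU hx with h | h
      · exact Set.mem_iUnion.2 ⟨true, h⟩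
      · exact Set.mem_iUnion.2 ⟨false, h⟩)
  obtain ⟨M₀, hM₀⟩ := hK.isBounded.exists_norm_le
  obtain ⟨M, hM⟩ : ∃ M, ∀ v ∈ K - K, ‖v‖ ≤ M := by
    refine ⟨M₀ + M₀, ?_⟩
    rintro _ ⟨a, ha, b, hb, rfl⟩
    exact (norm_sub_le a b).trans (add_le_add (hM₀ a ha) (hM₀ b hb))
  obtain ⟨m, hm⟩ := exists_pow_lt_of_lt_one (show 0 < δ / (|M| + 1) by positivity) h1
  refine ⟨m, fun x hx => ?_⟩
  have key : ∀ y, y - x ∈ lam ^ m • (K - K) → y ∈ Metric.ball x δ := by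
    rintro y ⟨v, hv, hvy⟩
    have hvy' : lam ^ m • v = y - x := hvy
    rw [Metric.mem_ball, dist_eq_norm, ← hvy', norm_smul, Real.norm_eq_abs,
      abs_of_nonneg (pow_nonneg h0 m)]
    have hv' := hM v hv
    have hM1 : ‖v‖ ≤ |M| + 1 := by
      have := le_abs_self M
      linarith
    calc lam ^ m * ‖v‖ ≤ lam ^ m * (|M| + 1) := by
          apply mul_le_mul_of_nonneg_left hM1 (pow_nonneg h0 m)
      _ < δ / (|M| + 1) * (|M| + 1) := by
          apply mul_lt_mul_of_pos_right hm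
          positivity
      _ = δ := by field_simp
  obtain ⟨i, hi⟩ := H x hx
  cases i
  · exact Or.inr fun y _ hyx => hi (key y hyx)
  · exact Or.inl fun y _ hyx => hi (key y hyx)

lemma hull_image (f : V →L[ℝ] V) {j : ℕ} (σ : Fin j → V) :
    hull (fun i => f (σ i)) = f '' hull σ := by
  unfold hull
  have : range (fun i => f (σ i)) = f '' range σ := by
    rw [← Set.range_comp]; rfl
  rw [this]
  exact (IsLinearMap.image_convexHull (𝕜 := ℝ) f.toLinearMap.isLinear (range σ)).symm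

lemma hull_isCompact {j : ℕ} (σ : Fin j → V) : IsCompact (hull σ) :=
  (Set.finite_range σ).isCompact_convexHull ℝ

lemma sm_image {U₁ U₂ : Set V} {K : Set V} {r : ℝ} (f f' : V →L[ℝ] V) (hf : ∀ x, f' (f x) = x)
    (i₁ : ∀ x ∈ U₁, f x ∈ U₁) (i₂ : ∀ x ∈ U₂, f x ∈ U₂) (h : Sm U₁ U₂ r K) :
    Sm U₁ U₂ r (f '' K) := by
  rintro _ ⟨x, hx, rfl⟩
  have key : ∀ y, f y - f x ∈ r • (f '' K - f '' K) → y - x ∈ r • (K - K) := by
    rintro y ⟨_, ⟨_, ⟨u, hu, rfl⟩, _, ⟨v, hv, rfl⟩, rfl⟩, h⟩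
    refine ⟨u - v, ⟨u, hu, v, hv, rfl⟩, ?_⟩
    have h2 := congrArg f' h
    simp only [map_smul, map_sub, hf] at h2
    exact h2
  refine (h x hx).imp (fun H => ?_) (fun H => ?_)
  · rintro _ ⟨y, hy, rfl⟩ hyx
    exact i₁ _ (H y hy (key y hyx))
  · rintro _ ⟨y, hy, rfl⟩ hyx
    exact i₂ _ (H y hy (key y hyx))

variable {A : Type*} [AddCommGroup A]

open Classical in
/-- The recursive construction. -/
noncomputable def BB (U₁ U₂ : Set V) (lam : ℝ) {k : ℕ} (z : (Fin (k + 2) → V) → A)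
    (b₀ : (Fin (k + 1) → V) → A) : ℕ → (Fin (k + 1) → V) → A
  | 0 => b₀
  | m + 1 => fun σ => sdC (k + 1) (BB U₁ U₂ lam z b₀ m) σ + tC (k + 1) z σ +
      dC (fun τ => if Sm U₁ U₂ (lam ^ m) (hull τ) then tC k (BB U₁ U₂ lam z b₀ m) τ else 0) σ

section BBlemmas

variable {U₁ U₂ : Set V} {lam : ℝ} {k : ℕ} {z : (Fin (k + 2) → V) → A}
  {b₀ : (Fin (k + 1) → V) → A}

lemma sm_face {j : ℕ} {r : ℝ} {σ : Fin (j + 1) → V} (h : Sm U₁ U₂ r (hull σ)) (i : Fin (j + 1)) :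
    Sm U₁ U₂ r (hull (fun l => σ (i.succAbove l))) :=
  h.mono (hull_face σ i) (smul_sub_mono r (hull_face σ i))

lemma Sub.sm {j : ℕ} {m : ℕ} {σ τ : Fin j → V} (h : Sub lam σ τ)
    (hσ : Sm U₁ U₂ (lam ^ (m + 1)) (hull σ)) : Sm U₁ U₂ (lam ^ m) (hull τ) := by
  refine hσ.mono h.1 ?_
  rw [pow_succ, mul_smul]
  exact Set.smul_set_mono h.diff

lemma BB_dC (h0 : 0 < lam) (hN : 1 - 1 / ((k + 2 : ℕ) : ℝ) ≤ lam)
    (hdz : ∀ σ, hull σ ⊆ U₁ ∪ U₂ → dC z σ = 0)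
    (hb₀ : ∀ σ, Sm U₁ U₂ 1 (hull σ) → dC b₀ σ = z σ) :
    ∀ (m : ℕ) (σ : Fin (k + 2) → V), Sm U₁ U₂ (lam ^ m) (hull σ) →
      dC (BB U₁ U₂ lam z b₀ m) σ = z σ
  | 0, σ, h => hb₀ σ (by simpa using h)
  | m + 1, σ, h => by
    simp only [BB]
    rw [dC_add, dC_add, dC_dC, add_zero, ← sdC_dC]
    have h1 : sdC (k + 2) (dC (BB U₁ U₂ lam z b₀ m)) σ = sdC (k + 2) z σ :=
      sdC_congr h0 (k + 2) hN (k + 2) le_rfl _ _ _ fun τ hτ =>
        BB_dC h0 hN hdz hb₀ m τ (hτ.sm h)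
    have h2 : tC (k + 2) (dC z) σ = 0 := by
      have h3 : tC (k + 2) (dC z) σ = tC (k + 2) (fun τ => dC z τ - dC z τ) σ :=
        tC_congr _ _ _ _ fun τ hτ => by rw [hdz τ (hτ.trans h.subset)]; simp
      rw [h3, tC_sub, sub_self]
    have h4 := homotopy (k + 1) z σ
    rw [h2, add_zero] at h4
    rw [h1]
    exact h4

lemma BB_succ (h0 : 0 < lam) (hN : 1 - 1 / ((k + 2 : ℕ) : ℝ) ≤ lam)
    (hdz : ∀ σ, hull σ ⊆ U₁ ∪ U₂ → dC z σ = 0)
    (hb₀ : ∀ σ, Sm U₁ U₂ 1 (hull σ) → dC b₀ σ = z σ)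
    (m : ℕ) (σ : Fin (k + 1) → V) (h : Sm U₁ U₂ (lam ^ m) (hull σ)) :
    BB U₁ U₂ lam z b₀ (m + 1) σ = BB U₁ U₂ lam z b₀ m σ := by
  simp only [BB]
  rw [← homotopy k (BB U₁ U₂ lam z b₀ m) σ]
  congr 1
  · congr 1
    refine (tC_congr _ _ _ _ fun τ hτ => ?_).symm
    exact BB_dC h0 hN hdz hb₀ m τ (h.mono hτ (smul_sub_mono _ hτ))
  · simp only [dC]
    refine Finset.sum_congr rfl fun i _ => ?_
    rw [if_pos (sm_face h i)]

lemma BB_eq (h0 : 0 < lam) (h1 : lam ≤ 1) (hN : 1 - 1 / ((k + 2 : ℕ) : ℝ) ≤ lam)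
    (hdz : ∀ σ, hull σ ⊆ U₁ ∪ U₂ → dC z σ = 0)
    (hb₀ : ∀ σ, Sm U₁ U₂ 1 (hull σ) → dC b₀ σ = z σ)
    (m m' : ℕ) (hm : m ≤ m') (σ : Fin (k + 1) → V) (h : Sm U₁ U₂ (lam ^ m) (hull σ)) :
    BB U₁ U₂ lam z b₀ m' σ = BB U₁ U₂ lam z b₀ m σ := by
  induction m', hm using Nat.le_induction with
  | base => rfl
  | succ n hn ih =>
    rw [BB_succ h0 hN hdz hb₀ n σ (h.pow (convex_convexHull ℝ _) h0.le h1 hn), ih]

lemma bary_map (f : V →L[ℝ] V) (j : ℕ) (σ : Fin j → V) :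
    bary (fun i => f (σ i)) = f (bary σ) := by
  simp [bary, map_smul, map_sum]

omit [NormedAddCommGroup V] [NormedSpace ℝ V] in
lemma dC_map {j : ℕ} (f : V → V) (φ : A →+ A) (c c' : (Fin j → V) → A)
    (h : ∀ τ, c (fun i => f (τ i)) = φ (c' τ)) (σ : Fin (j + 1) → V) :
    dC c (fun i => f (σ i)) = φ (dC c' σ) := by
  simp only [dC, map_sum, map_zsmul]
  exact Finset.sum_congr rfl fun i _ => by rw [h fun l => σ (i.succAbove l)]

end BBlemmas

end Main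

end GlueAux

open GlueAux in
theorem glue {V : Type*} [NormedAddCommGroup V] [NormedSpace ℝ V] {A : Type*} [AddCommGroup A]
    {G : Type*} [Group G] (ρ : G →* (V →L[ℝ] V)) (τ : G →* AddMonoid.End A)
    {k : ℕ} {U₁ U₂ : Set V} (h₁ : IsOpen U₁) (h₂ : IsOpen U₂)
    (i₁ : InvSet ρ U₁) (i₂ : InvSet ρ U₂)
    (z : (Fin (k + 2) → V) → A) (hz : Equivar ρ τ z) (hdz : EqOnS (U₁ ∪ U₂) (dC z) 0)
    (b₁ b₂ : (Fin (k + 1) → V) → A) (e₁ : Equivar ρ τ b₁) (e₂ : Equivar ρ τ b₂)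
    (d₁ : EqOnS U₁ (dC b₁) z) (d₂ : EqOnS U₂ (dC b₂) z) (h₁₂ : EqOnS (U₁ ∩ U₂) b₁ b₂) :
    ∃ b : (Fin (k + 1) → V) → A, Equivar ρ τ b ∧ EqOnS (U₁ ∪ U₂) (dC b) z ∧
      EqOnS U₁ b b₁ ∧ EqOnS U₂ b b₂ := by
  classical
  have hinv : ∀ (g : G) (x : V), ρ g⁻¹ (ρ g x) = x := fun g x => by
    have : (ρ g⁻¹ * ρ g) x = x := by rw [← map_mul, inv_mul_cancel, map_one]; rfl
    exact this
  have hinv' : ∀ (g : G) (x : V), ρ g (ρ g⁻¹ x) = x := fun g x => by
    simpa using hinv g⁻¹ x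
  -- hulls in invariant sets
  have hsub : ∀ {U : Set V}, InvSet ρ U → ∀ (g : G) {j : ℕ} (σ : Fin j → V),
      hull (fun i => ρ g (σ i)) ⊆ U ↔ hull σ ⊆ U := by
    intro U hU g j σ
    rw [hull_image]
    constructor
    · intro h x hx
      have := hU g⁻¹ _ (h ⟨x, hx, rfl⟩)
      rwa [hinv] at this
    · rintro h _ ⟨x, hx, rfl⟩
      exact hU g x (h hx)
  have hsm : ∀ (g : G) (r : ℝ) {j : ℕ} (σ : Fin j → V),
      Sm U₁ U₂ r (hull (fun i => ρ g (σ i))) ↔ Sm U₁ U₂ r (hull σ) := by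
    intro g r j σ
    constructor
    · intro h
      have := sm_image (ρ g⁻¹) (ρ g) (hinv' g) (i₁ g⁻¹) (i₂ g⁻¹) h
      rw [← hull_image] at this
      simpa only [hinv] using this
    · intro h
      rw [hull_image]
      exact sm_image (ρ g) (ρ g⁻¹) (hinv g) (i₁ g) (i₂ g) h
  -- the constant
  set lam : ℝ := 1 - 1 / ((k + 2 : ℕ) : ℝ) with hlam
  have hk : (2 : ℝ) ≤ ((k + 2 : ℕ) : ℝ) := by push_cast; linarith [Nat.cast_nonneg (α := ℝ) k]
  have hl1 : 1 / ((k + 2 : ℕ) : ℝ) ≤ 1 / 2 := one_div_le_one_div_of_le (by norm_num) hk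
  have hl2 : 0 < 1 / ((k + 2 : ℕ) : ℝ) := by positivity
  have h0 : 0 < lam := by rw [hlam]; linarith
  have h1 : lam < 1 := by rw [hlam]; linarith
  -- start
  set b₀ : (Fin (k + 1) → V) → A := fun σ =>
    if hull σ ⊆ U₁ then b₁ σ else if hull σ ⊆ U₂ then b₂ σ else 0 with hb₀
  have hb₀1 : ∀ σ, hull σ ⊆ U₁ → b₀ σ = b₁ σ := fun σ h => by simp only [hb₀, if_pos h]
  have hb₀2 : ∀ σ, hull σ ⊆ U₂ → b₀ σ = b₂ σ := fun σ h => by
    by_cases h' : hull σ ⊆ U₁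
    · rw [hb₀1 σ h']
      exact h₁₂ σ (Set.subset_inter h' h)
    · simp only [hb₀, if_neg h', if_pos h]
  have hd₀ : ∀ σ : Fin (k + 2) → V, Sm U₁ U₂ 1 (hull σ) → dC b₀ σ = z σ := by
    intro σ hσ
    rcases hσ.one ⟨_, bary_mem_hull σ⟩ with h | h
    · rw [← d₁ σ h]
      exact Finset.sum_congr rfl fun i _ => by rw [hb₀1 _ ((hull_face σ i).trans h)]
    · rw [← d₂ σ h]
      exact Finset.sum_congr rfl fun i _ => by rw [hb₀2 _ ((hull_face σ i).trans h)]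
  have he₀ : Equivar ρ τ b₀ := by
    intro g σ
    simp only [hb₀, hsub i₁, hsub i₂]
    split_ifs
    · exact e₁ g σ
    · exact e₂ g σ
    · simp
  set B := BB U₁ U₂ lam z b₀ with hB
  have hBe : ∀ m, Equivar ρ τ (B m) := by
    intro m
    induction m with
    | zero => exact he₀
    | succ m ih =>
      intro g σ
      simp only [hB, BB]
      rw [map_add, map_add]
      have f1 := sdC_map (ρ g) (bary_map (ρ g)) (τ g) (k + 1) (B m) (B m) (fun τ => ih g τ) σ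
      have f2 := tC_map (ρ g) (bary_map (ρ g)) (τ g) (k + 1) z z (fun τ => hz g τ) σ
      have f3 := dC_map (ρ g) (τ g)
        (fun τ => if Sm U₁ U₂ (lam ^ m) (hull τ) then tC k (B m) τ else 0)
        (fun τ => if Sm U₁ U₂ (lam ^ m) (hull τ) then tC k (B m) τ else 0) (fun τ' => by
          by_cases h : Sm U₁ U₂ (lam ^ m) (hull τ')
          · rw [if_pos h, if_pos ((hsm g _ τ').2 h)]
            exact tC_map (ρ g) (bary_map (ρ g)) (τ g) k (B m) (B m) (fun τ => ih g τ) τ'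
          · rw [if_neg h, if_neg (fun h' => h ((hsm g _ τ').1 h'))]
            exact (map_zero (τ g)).symm) σ
      rw [f1, f2]
      exact congrArg _ f3
  have hdz' : ∀ σ, hull σ ⊆ U₁ ∪ U₂ → dC z σ = 0 := fun σ h => hdz σ h
  have hBeq := fun m m' hm σ h => BB_eq (z := z) (b₀ := b₀) (k := k) h0 h1.le hlam.ge hdz' hd₀
    m m' hm σ h
  set b : (Fin (k + 1) → V) → A := fun σ =>
    if h : ∃ m : ℕ, Sm U₁ U₂ (lam ^ m) (hull σ) then B (Nat.find h) σ else 0 with hb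
  have hbB : ∀ (m : ℕ) (σ : Fin (k + 1) → V), Sm U₁ U₂ (lam ^ m) (hull σ) → b σ = B m σ := by
    intro m σ hσ
    have h : ∃ m : ℕ, Sm U₁ U₂ (lam ^ m) (hull σ) := ⟨m, hσ⟩
    simp only [hb, dif_pos h]
    exact (hBeq _ _ (Nat.find_min' h hσ) σ (Nat.find_spec h)).symm
  refine ⟨b, ?_, ?_, ?_, ?_⟩
  · intro g σ
    by_cases h : ∃ m : ℕ, Sm U₁ U₂ (lam ^ m) (hull σ)
    · obtain ⟨m, hm⟩ := h
      rw [hbB m σ hm, hbB m _ ((hsm g _ σ).2 hm)]
      exact hBe m g σ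
    · have h' : ¬ ∃ m : ℕ, Sm U₁ U₂ (lam ^ m) (hull (fun i => ρ g (σ i))) := by
        rintro ⟨m, hm⟩
        exact h ⟨m, (hsm g _ σ).1 hm⟩
      simp only [hb, dif_neg h, dif_neg h', map_zero]
  · intro σ hσ
    obtain ⟨m, hm⟩ := exists_sm h₁ h₂ (hull_isCompact σ) hσ h0.le h1
    rw [← BB_dC h0 hlam.ge hdz' hd₀ m σ hm]
    exact Finset.sum_congr rfl fun i _ => by rw [hbB m _ (sm_face hm i)]
  · intro σ hσ
    have h : Sm U₁ U₂ (lam ^ 0) (hull σ) := sm_of_subset _ (Or.inl hσ)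
    rw [hbB 0 σ h]
    exact hb₀1 σ hσ
  · intro σ hσ
    have h : Sm U₁ U₂ (lam ^ 0) (hull σ) := sm_of_subset _ (Or.inr hσ)
    rw [hbB 0 σ h]
    exact hb₀2 σ hσ

end Pool.Agent.MP_8db1a4_gt
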