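import Pool.Agent.MP_8db1a4_gt.Cochain
import Pool.Agent.MP_8db1a4_gt.Glue

set_option autoImplicit false

/-! # [KAP-T2] compact sets with convex fibres are good (MP_8db1a4_gt) -/

namespace Pool.Agent.MP_8db1a4_gt

open Set

section Alg

variable {V : Type*} {A : Type*} [AddCommGroup A]

theorem kt2_dC_add {j : ℕ} (c c' : (Fin j → V) → A) (σ : Fin (j + 1) → V) :
    dC (fun τ => c τ + c' τ) σ = dC c σ + dC c' σ := by
  simp [dC, smul_add, Finset.sum_add_distrib]

theorem kt2_dC_sub {j : ℕ} (c c' : (Fin j → V) → A) (σ : Fin (j + 1) → V) :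
    dC (fun τ => c τ - c' τ) σ = dC c σ - dC c' σ := by
  simp [dC, smul_sub, Finset.sum_sub_distrib]

theorem kt2_dC_dC {j : ℕ} (c : (Fin j → V) → A) (σ : Fin (j + 2) → V) :
    dC (dC c) σ = 0 := by
  unfold dC
  simp only [Finset.smul_sum, smul_smul]
  rw [← Finset.sum_product' (s := Finset.univ) (t := Finset.univ)
    (f := fun (i : Fin (j + 2)) (l : Fin (j + 1)) =>
      ((-1 : ℤ) ^ (i : ℕ) * (-1 : ℤ) ^ (l : ℕ)) •
        c (fun m => σ (i.succAbove (l.succAbove m))))]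
  refine Finset.sum_involution
    (fun (x : Fin (j + 2) × Fin (j + 1)) _ => (x.1.succAbove x.2, x.2.predAbove x.1)) ?_ ?_ ?_ ?_
  · rintro ⟨i, l⟩ -
    simp only
    have h1 : (fun m => σ ((i.succAbove l).succAbove ((l.predAbove i).succAbove m)))
        = fun m => σ (i.succAbove (l.succAbove m)) := by
      funext m
      rw [Fin.succAbove_succAbove_succAbove_predAbove]
    rw [h1, ← add_smul]
    have h2 : (-1 : ℤ) ^ (i : ℕ) * (-1 : ℤ) ^ (l : ℕ)
        + (-1 : ℤ) ^ ((i.succAbove l : Fin (j + 2)) : ℕ) *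
          (-1 : ℤ) ^ ((l.predAbove i : Fin (j + 1)) : ℕ) = 0 := by
      rcases Fin.lt_or_ge l.castSucc i with h | h
      · rw [Fin.succAbove_of_castSucc_lt _ _ h, Fin.predAbove_of_castSucc_lt _ _ h]
        have hi : (i : ℕ) = (i.pred (Fin.ne_zero_of_lt h) : ℕ) + 1 := by
          rw [Fin.val_pred]
          have : (l : ℕ) < (i : ℕ) := h
          omega
        rw [hi]
        simp only [Fin.val_castSucc]
        ring
      · rw [Fin.succAbove_of_le_castSucc _ _ h, Fin.predAbove_of_le_castSucc _ _ h]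
        simp only [Fin.val_succ, Fin.coe_castPred]
        ring
    rw [h2, zero_smul]
  · rintro ⟨i, l⟩ - - heq
    have := congrArg Prod.fst heq
    exact Fin.succAbove_ne i l this
  · rintro ⟨i, l⟩ -
    exact Finset.mem_product.2 ⟨Finset.mem_univ _, Finset.mem_univ _⟩
  · rintro ⟨i, l⟩ -
    simp only
    rw [Fin.succAbove_succAbove_predAbove, Fin.predAbove_predAbove_succAbove]

theorem kt2_dC_cons {j : ℕ} (z : (Fin (j + 1) → V) → A) (p : V) (σ : Fin (j + 1) → V) :
    dC z (Fin.cons p σ) = z σ - dC (fun τ : Fin j → V => z (Fin.cons p τ)) σ := by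
  unfold dC
  rw [Fin.sum_univ_succ]
  simp only [Fin.val_zero, pow_zero, one_smul, Fin.zero_succAbove, Fin.cons_succ, Fin.val_succ]
  rw [sub_eq_add_neg, ← Finset.sum_neg_distrib]
  congr 1
  refine Finset.sum_congr rfl fun i _ => ?_
  have h : (fun l => (Fin.cons p σ : Fin (j + 2) → V) (i.succ.succAbove l))
      = (Fin.cons p (fun l => σ (i.succAbove l)) : Fin (j + 1) → V) := by
    funext l
    refine Fin.cases ?_ (fun l => ?_) l
    · simp
    · simp [Fin.succ_succAbove_succ]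
  rw [h, pow_succ]
  simp

variable [AddCommGroup V] [Module ℝ V]

omit [AddCommGroup A] in
theorem kt2_EqOnS_mono {j : ℕ} {U U' : Set V} (h : U' ⊆ U) {c c' : (Fin j → V) → A}
    (hc : EqOnS U c c') : EqOnS U' c c' := fun σ hσ => hc σ (hσ.trans h)

theorem kt2_hull_face {j : ℕ} (σ : Fin (j + 1) → V) (i : Fin (j + 1)) :
    hull (fun l => σ (i.succAbove l)) ⊆ hull σ := by
  unfold hull
  apply convexHull_mono
  rintro _ ⟨l, rfl⟩
  exact ⟨_, rfl⟩

theorem kt2_dC_congr {j : ℕ} {U : Set V} {c c' : (Fin j → V) → A} (h : EqOnS U c c') :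
    EqOnS U (dC c) (dC c') := by
  intro σ hσ
  unfold dC
  refine Finset.sum_congr rfl fun i _ => ?_
  rw [h _ ((kt2_hull_face σ i).trans hσ)]

end Alg

/-- `z` is a coboundary near `K` (inside `U`). -/
def kt2Cob {V : Type*} [NormedAddCommGroup V] [NormedSpace ℝ V] {A : Type*} [AddCommGroup A]
    (j : ℕ) (U : Set V) (z : (Fin (j + 1) → V) → A) (K : Set V) : Prop :=
  ∃ U' : Set V, U' ⊆ U ∧ IsOpen U' ∧ K ⊆ U' ∧ ∃ b : (Fin j → V) → A, EqOnS U' (dC b) z

section Top

variable {V : Type*} [NormedAddCommGroup V] [NormedSpace ℝ V] {A : Type*} [AddCommGroup A]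

theorem kt2Cob_mono {j : ℕ} {U : Set V} {z : (Fin (j + 1) → V) → A} {K K' : Set V}
    (h : K' ⊆ K) (hK : kt2Cob j U z K) : kt2Cob j U z K' := by
  obtain ⟨U', h1, h2, h3, b, hb⟩ := hK
  exact ⟨U', h1, h2, h.trans h3, b, hb⟩

/-- gluing without group -/
theorem kt2_glue {k : ℕ} {U₁ U₂ : Set V} (h₁ : IsOpen U₁) (h₂ : IsOpen U₂)
    (z : (Fin (k + 2) → V) → A) (hdz : EqOnS (U₁ ∪ U₂) (dC z) 0)
    (b₁ b₂ : (Fin (k + 1) → V) → A)
    (d₁ : EqOnS U₁ (dC b₁) z) (d₂ : EqOnS U₂ (dC b₂) z) (h₁₂ : EqOnS (U₁ ∩ U₂) b₁ b₂) :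
    ∃ b : (Fin (k + 1) → V) → A, EqOnS (U₁ ∪ U₂) (dC b) z := by
  obtain ⟨b, -, hb, -, -⟩ := glue (G := PUnit.{1}) 1 1 h₁ h₂ (fun g x hx => by simpa using hx)
    (fun g x hx => by simpa using hx) z (fun g σ => by simp) hdz b₁ b₂ (fun g σ => by simp)
    (fun g σ => by simp) d₁ d₂ h₁₂
  exact ⟨b, hb⟩

/-- convex compact sets -/
theorem kt2_good_of_convex (K : Set V) (hK : IsCompact K) (hc : Convex ℝ K) (j : ℕ) :
    Good A j K := by
  intro U hU hKU z hz
  rcases K.eq_empty_or_nonempty with rfl | ⟨p, hp⟩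
  · refine ⟨∅, empty_subset _, isOpen_empty, subset_rfl, fun τ => 0, ?_⟩
    intro σ hσ
    exfalso
    have : σ 0 ∈ hull σ := subset_convexHull ℝ _ ⟨0, rfl⟩
    exact hσ this
  · obtain ⟨δ, hδ, hsub⟩ := hK.exists_thickening_subset_open hU hKU
    refine ⟨Metric.thickening δ K, hsub, Metric.isOpen_thickening,
      Metric.self_subset_thickening hδ K, fun τ => z (Fin.cons p τ), ?_⟩
    intro σ hσ
    have hcons : hull (Fin.cons p σ : Fin (j + 2) → V) ⊆ U := by
      refine Subset.trans ?_ hsub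
      unfold hull
      refine convexHull_min ?_ (hc.thickening δ)
      rintro _ ⟨i, rfl⟩
      refine Fin.cases ?_ (fun i => ?_) i
      · exact Metric.self_subset_thickening hδ K hp
      · simp only [Fin.cons_succ]
        exact hσ (subset_convexHull ℝ _ ⟨i, rfl⟩)
    have := hz _ hcons
    rw [kt2_dC_cons] at this
    simp only [Pi.zero_apply] at this
    exact (sub_eq_zero.1 this).symm

/-- union of two compact sets -/
theorem kt2Cob_union {j : ℕ} {U : Set V} (z : (Fin (j + 1) → V) → A)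
    (hz : EqOnS U (dC z) 0) {K₁ K₂ : Set V} (hK₁ : IsCompact K₁) (hK₂ : IsCompact K₂)
    (h₁ : kt2Cob j U z K₁) (h₂ : kt2Cob j U z K₂)
    (hs : ∀ k, j = k + 1 → Good A k (K₁ ∩ K₂)) (h0 : j = 0 → (K₁ ∩ K₂).Nonempty) :
    kt2Cob j U z (K₁ ∪ K₂) := by
  obtain ⟨U₁, hU₁U, hU₁, hKU₁, b₁, hb₁⟩ := h₁
  obtain ⟨U₂, hU₂U, hU₂, hKU₂, b₂, hb₂⟩ := h₂
  cases j with
  | zero =>
    obtain ⟨x, hx1, hx2⟩ := h0 rfl
    have hhull : ∀ σ : Fin 1 → V, hull σ = {σ 0} := by
      intro σ
      unfold hull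
      have : range σ = {σ 0} := by
        ext y
        simp only [mem_range, mem_singleton_iff]
        constructor
        · rintro ⟨i, rfl⟩
          rw [Subsingleton.elim i 0]
        · rintro rfl
          exact ⟨0, rfl⟩
      rw [this, convexHull_singleton]
    have hb : b₁ = b₂ := by
      funext τ
      have e1 := hb₁ (fun _ => x) (by rw [hhull]; exact singleton_subset_iff.2 (hKU₁ hx1))
      have e2 := hb₂ (fun _ => x) (by rw [hhull]; exact singleton_subset_iff.2 (hKU₂ hx2))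
      have e3 := e1.trans e2.symm
      have key : ∀ b : (Fin 0 → V) → A, dC b (fun _ : Fin 1 => x) = b τ := by
        intro b
        unfold dC
        rw [Fin.sum_univ_one, Fin.val_zero, pow_zero, one_smul]
        congr 1
        exact Subsingleton.elim _ _
      rw [key, key] at e3
      exact e3
    subst hb
    refine ⟨U₁ ∪ U₂, union_subset hU₁U hU₂U, hU₁.union hU₂, union_subset_union hKU₁ hKU₂, b₁, ?_⟩
    intro σ hσ
    have h1 : σ 0 ∈ U₁ ∪ U₂ := hσ (by rw [hhull]; rfl)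
    rcases h1 with h1 | h1
    · exact hb₁ σ (by rw [hhull]; exact singleton_subset_iff.2 h1)
    · exact hb₂ σ (by rw [hhull]; exact singleton_subset_iff.2 h1)
  | succ k =>
    have hg := hs k rfl (U₁ ∩ U₂) (hU₁.inter hU₂) (inter_subset_inter hKU₁ hKU₂)
      (fun τ => b₁ τ - b₂ τ) (by
        intro σ hσ
        rw [kt2_dC_sub, hb₁ σ (hσ.trans inter_subset_left), hb₂ σ (hσ.trans inter_subset_right)]
        simp)
    obtain ⟨U₃, hU₃sub, hU₃, hKU₃, e, he⟩ := hg
    -- separate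
    have hdisj : Disjoint (K₁ \ U₃) (K₂ \ U₃) := by
      rw [Set.disjoint_left]
      rintro x ⟨hx1, hx3⟩ ⟨hx2, -⟩
      exact hx3 (hKU₃ ⟨hx1, hx2⟩)
    obtain ⟨O₁, O₂, hO₁, hO₂, hKO₁, hKO₂, hOO⟩ :=
      SeparatedNhds.of_isCompact_isCompact (hK₁.diff hU₃) (hK₂.diff hU₃) hdisj
    have hint : (U₁ ∩ (O₁ ∪ U₃)) ∩ (U₂ ∩ (O₂ ∪ U₃)) ⊆ U₃ := by
      rintro x ⟨⟨-, hx1⟩, ⟨-, hx2⟩⟩
      rcases hx1 with hx1 | hx1
      · rcases hx2 with hx2 | hx2
        · exact absurd hx2 (Set.disjoint_left.1 hOO hx1)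
        · exact hx2
      · exact hx1
    have hd2 : EqOnS (U₂ ∩ (O₂ ∪ U₃)) (dC fun τ => b₂ τ + dC e τ) z := by
      intro σ hσ
      rw [kt2_dC_add, kt2_dC_dC, add_zero]
      exact hb₂ σ (hσ.trans inter_subset_left)
    obtain ⟨b, hb⟩ := kt2_glue (hU₁.inter (hO₁.union hU₃)) (hU₂.inter (hO₂.union hU₃)) z
      (kt2_EqOnS_mono (union_subset (inter_subset_left.trans hU₁U)
        (inter_subset_left.trans hU₂U)) hz)
      b₁ (fun τ => b₂ τ + dC e τ) (kt2_EqOnS_mono inter_subset_left hb₁) hd2 (by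
        intro σ hσ
        have := he σ (hσ.trans hint)
        simp only [this]
        abel)
    refine ⟨_, union_subset (inter_subset_left.trans hU₁U) (inter_subset_left.trans hU₂U),
      (hU₁.inter (hO₁.union hU₃)).union (hU₂.inter (hO₂.union hU₃)), ?_, b, hb⟩
    refine union_subset_union ?_ ?_
    · intro x hx
      refine ⟨hKU₁ hx, ?_⟩
      by_cases h3 : x ∈ U₃
      · exact Or.inr h3
      · exact Or.inl (hKO₁ ⟨hx, h3⟩)
    · intro x hx
      refine ⟨hKU₂ hx, ?_⟩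
      by_cases h3 : x ∈ U₃
      · exact Or.inr h3
      · exact Or.inl (hKO₂ ⟨hx, h3⟩)

/-- concatenation over an interval -/
theorem kt2_interval (P : ℝ → ℝ → Prop) (a b : ℝ) (hab : a ≤ b)
    (hloc : ∀ t ∈ Icc a b, ∃ η > (0 : ℝ), ∀ s s' : ℝ, t - η < s → s ≤ s' → s' < t + η → P s s')
    (hcat : ∀ r s t : ℝ, a ≤ r → r ≤ s → s ≤ t → t ≤ b → P r s → P s t → P r t) : P a b := by
  -- the set of good endpoints
  by_contra hneg
  let S : Set ℝ := {t | a ≤ t ∧ t ≤ b ∧ P a t}
  have haS : a ∈ S := by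
    obtain ⟨η, hη, h⟩ := hloc a ⟨le_rfl, hab⟩
    exact ⟨le_rfl, hab, h a a (by linarith) le_rfl (by linarith)⟩
  have hbdd : BddAbove S := ⟨b, fun t ht => ht.2.1⟩
  set c := sSup S with hc
  have hac : a ≤ c := le_csSup hbdd haS
  have hcb : c ≤ b := csSup_le ⟨a, haS⟩ fun t ht => ht.2.1
  obtain ⟨η, hη, h⟩ := hloc c ⟨hac, hcb⟩
  obtain ⟨t, htS, hct⟩ := exists_lt_of_lt_csSup ⟨a, haS⟩ (show c - η < c by linarith)
  have htc : t ≤ c := le_csSup hbdd htS
  -- extend to min b (c + η/2)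
  have hP : P a (min b (c + η / 2)) := by
    refine hcat a t _ le_rfl htS.1 ?_ (min_le_left _ _) htS.2.2 ?_
    · exact le_min htS.2.1 (by linarith)
    · refine h t _ hct (le_min htS.2.1 (by linarith)) ?_
      exact lt_of_le_of_lt (min_le_right _ _) (by linarith)
  rcases le_total b (c + η / 2) with hb | hb
  · rw [min_eq_left hb] at hP
    exact hneg hP
  · rw [min_eq_right hb] at hP
    have : c + η / 2 ∈ S := ⟨by linarith, hb, hP⟩
    have := le_csSup hbdd this
    linarith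

/-- One dimension at a time. -/
theorem kt2_slab (f : V → ℝ) (hf : Continuous f) (K : Set V) (hK : IsCompact K) (a b : ℝ)
    (hab : a ≤ b) (hran : ∀ x ∈ K, f x ∈ Icc a b) (j : ℕ)
    (h1 : ∀ t ∈ Icc a b, Good A j (K ∩ f ⁻¹' {t}))
    (h2 : ∀ k, j = k + 1 → ∀ t ∈ Icc a b, Good A k (K ∩ f ⁻¹' {t}))
    (h3 : j = 0 → ∀ t ∈ Icc a b, (K ∩ f ⁻¹' {t}).Nonempty) : Good A j K := by
  intro U hU hKU z hz
  have main : kt2Cob j U z (K ∩ f ⁻¹' (Icc a b)) := by
    refine kt2_interval (fun s s' => kt2Cob j U z (K ∩ f ⁻¹' (Icc s s'))) a b hab ?_ ?_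
    · intro t ht
      obtain ⟨U', hU'U, hU', hKU', b', hb'⟩ := h1 t ht U hU (inter_subset_left.trans hKU) z hz
      have hcomp : IsCompact (f '' (K \ U')) := (hK.diff hU').image hf
      have htn : t ∉ f '' (K \ U') := by
        rintro ⟨x, ⟨hxK, hxU⟩, hfx⟩
        exact hxU (hKU' ⟨hxK, hfx⟩)
      obtain ⟨η, hη, hball⟩ := Metric.isOpen_iff.1 hcomp.isClosed.isOpen_compl t htn
      refine ⟨η, hη, fun s s' hs _ hs' => ⟨U', hU'U, hU', ?_, b', hb'⟩⟩
      rintro x ⟨hxK, hx1, hx2⟩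
      by_contra hxU
      have : f x ∈ Metric.ball t η := by
        rw [Metric.mem_ball, Real.dist_eq, abs_lt]
        constructor <;> linarith
      exact hball this ⟨x, ⟨hxK, hxU⟩, rfl⟩
    · intro r s t har hrs hst htb hr ht
      have hun : K ∩ f ⁻¹' (Icc r t) = (K ∩ f ⁻¹' (Icc r s)) ∪ (K ∩ f ⁻¹' (Icc s t)) := by
        rw [← inter_union_distrib_left, ← preimage_union, Icc_union_Icc_eq_Icc hrs hst]
      have hin : (K ∩ f ⁻¹' (Icc r s)) ∩ (K ∩ f ⁻¹' (Icc s t)) = K ∩ f ⁻¹' {s} := by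
        ext x
        simp only [mem_inter_iff, mem_preimage, mem_Icc, mem_singleton_iff]
        constructor
        · rintro ⟨⟨hx, -, h⟩, -, h', -⟩
          exact ⟨hx, le_antisymm h h'⟩
        · rintro ⟨hx, h⟩
          exact ⟨⟨hx, by linarith, by linarith⟩, hx, by linarith, by linarith⟩
      have hsab : s ∈ Icc a b := ⟨by linarith, by linarith⟩
      show kt2Cob j U z (K ∩ f ⁻¹' (Icc r t))
      rw [hun]
      refine kt2Cob_union z hz (hK.inter_right (isClosed_Icc.preimage hf))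
        (hK.inter_right (isClosed_Icc.preimage hf)) hr ht ?_ ?_
      · intro k hk
        rw [hin]
        exact h2 k hk s hsab
      · intro hj
        rw [hin]
        exact h3 hj s hsab
  have hKeq : K ∩ f ⁻¹' (Icc a b) = K := inter_eq_left.2 hran
  rw [hKeq] at main
  exact main

/-- convex fibres over `ℝ^p` -/
theorem kt2_fib (p : ℕ) : ∀ (π : V → (Fin p → ℝ)) (_ : Continuous π) (K : Set V)
    (_ : IsCompact K) (_ : ∀ u, Convex ℝ {x | x ∈ K ∧ π x = u}) (j : ℕ) (_ : p ≤ j),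
    Good A j K := by
  induction p with
  | zero =>
    intro π _ K hK hfib j _
    refine kt2_good_of_convex K hK ?_ j
    have := hfib 0
    have h : {x | x ∈ K ∧ π x = 0} = K := by
      ext x
      simp only [mem_ofPred_eq, and_iff_left_iff_imp]
      intro _
      exact Subsingleton.elim _ _
    rwa [h] at this
  | succ p ih =>
    intro π hπ K hK hfib j hj
    have hf : Continuous fun x => π x 0 := (continuous_apply 0).comp hπ
    have hslice : ∀ t : ℝ, ∀ i, p ≤ i → Good A i (K ∩ (fun x => π x 0) ⁻¹' {t}) := by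
      intro t i hi
      refine ih (fun x l => π x l.succ) (by fun_prop) _
        (hK.inter_right (isClosed_singleton.preimage hf)) ?_ i hi
      intro u
      have : {x | x ∈ K ∩ (fun x => π x 0) ⁻¹' {t} ∧ (fun l : Fin p => π x l.succ) = u}
          = {x | x ∈ K ∧ π x = Fin.cons t u} := by
        ext x
        simp only [mem_inter_iff, mem_preimage, mem_singleton_iff, mem_ofPred_eq]
        constructor
        · rintro ⟨⟨hx, h0⟩, hu⟩
          refine ⟨hx, ?_⟩
          funext l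
          refine Fin.cases ?_ (fun l => ?_) l
          · simpa using h0
          · rw [← hu]; rfl
        · rintro ⟨hx, h⟩
          refine ⟨⟨hx, by rw [h]; rfl⟩, ?_⟩
          funext l
          rw [h]; rfl
      rw [this]
      exact hfib _
    obtain ⟨R, hR⟩ := (hK.image hf).isBounded.subset_closedBall 0
    have hR' : ∀ x ∈ K, π x 0 ∈ Icc (-|R|) |R| := by
      intro x hx
      have := hR ⟨x, hx, rfl⟩
      simp only [Metric.mem_closedBall, dist_zero_right, Real.norm_eq_abs] at this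
      exact abs_le.1 (this.trans (le_abs_self R))
    refine kt2_slab (fun x => π x 0) hf K hK (-|R|) |R| (by linarith [abs_nonneg R]) hR' j ?_ ?_ ?_
    · intro t _
      exact hslice t j (by omega)
    · intro k hk t _
      exact hslice t k (by omega)
    · intro h0
      omega

/-- full convex fibres over a box -/
theorem kt2_full (m : ℕ) : ∀ (π : V → (Fin m → ℝ)) (_ : Continuous π) (K : Set V)
    (_ : IsCompact K) (a b : Fin m → ℝ) (_ : a ≤ b) (_ : ∀ x ∈ K, π x ∈ Icc a b)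
    (_ : ∀ u, Convex ℝ {x | x ∈ K ∧ π x = u})
    (_ : ∀ u ∈ Icc a b, {x | x ∈ K ∧ π x = u}.Nonempty) (j : ℕ), Good A j K := by
  induction m with
  | zero =>
    intro π _ K hK _ _ _ _ hfib _ j
    refine kt2_good_of_convex K hK ?_ j
    have := hfib 0
    have h : {x | x ∈ K ∧ π x = 0} = K := by
      ext x
      simp only [mem_ofPred_eq, and_iff_left_iff_imp]
      intro _
      exact Subsingleton.elim _ _
    rwa [h] at this
  | succ m ih =>
    intro π hπ K hK a b hab hsub hfib hne j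
    have hf : Continuous fun x => π x 0 := (continuous_apply 0).comp hπ
    have hset : ∀ (t : ℝ) (u : Fin m → ℝ),
        {x | x ∈ K ∩ (fun x => π x 0) ⁻¹' {t} ∧ (fun l : Fin m => π x l.succ) = u}
          = {x | x ∈ K ∧ π x = Fin.cons t u} := by
      intro t u
      ext x
      simp only [mem_inter_iff, mem_preimage, mem_singleton_iff, mem_ofPred_eq]
      constructor
      · rintro ⟨⟨hx, h0⟩, hu⟩
        refine ⟨hx, ?_⟩
        funext l
        refine Fin.cases ?_ (fun l => ?_) l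
        · simpa using h0
        · rw [← hu]; rfl
      · rintro ⟨hx, h⟩
        refine ⟨⟨hx, by rw [h]; rfl⟩, ?_⟩
        funext l
        rw [h]; rfl
    have hbox : ∀ t ∈ Icc (a 0) (b 0), ∀ u ∈ Icc (fun l : Fin m => a l.succ) (fun l => b l.succ),
        (Fin.cons t u : Fin (m + 1) → ℝ) ∈ Icc a b := by
      intro t ht u hu
      constructor
      · intro l
        refine Fin.cases ?_ (fun l => ?_) l
        · exact ht.1
        · exact hu.1 l
      · intro l
        refine Fin.cases ?_ (fun l => ?_) l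
        · exact ht.2
        · exact hu.2 l
    have hslice : ∀ t ∈ Icc (a 0) (b 0), ∀ i, Good A i (K ∩ (fun x => π x 0) ⁻¹' {t}) := by
      intro t ht i
      refine ih (fun x l => π x l.succ) (by fun_prop) _
        (hK.inter_right (isClosed_singleton.preimage hf)) (fun l => a l.succ) (fun l => b l.succ)
        (fun l => hab _) ?_ ?_ ?_ i
      · rintro x ⟨hx, -⟩
        exact ⟨fun l => (hsub x hx).1 _, fun l => (hsub x hx).2 _⟩
      · intro u
        rw [hset]
        exact hfib _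
      · intro u hu
        rw [hset]
        exact hne _ (hbox t ht u hu)
    refine kt2_slab (fun x => π x 0) hf K hK (a 0) (b 0) (hab 0)
      (fun x hx => ⟨(hsub x hx).1 0, (hsub x hx).2 0⟩) j (fun t ht => hslice t ht j)
      (fun k _ t ht => hslice t ht k) ?_
    intro _ t ht
    have := hne (Fin.cons t fun l => a l.succ) (hbox t ht _ ⟨le_rfl, fun l => hab _⟩)
    obtain ⟨x, hx, hxu⟩ := this
    exact ⟨x, hx, by simp [hxu]⟩

end Top

theorem kt2_fibre_convex {p : ℕ} {W : Type*} [NormedAddCommGroup W] [NormedSpace ℝ W]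
    (K : Set ((Fin p → ℝ) × W)) (hfib : ∀ u, Convex ℝ {w : W | (u, w) ∈ K}) (u : Fin p → ℝ) :
    Convex ℝ {x | x ∈ K ∧ x.1 = u} := by
  have : {x | x ∈ K ∧ x.1 = u} = ({u} : Set (Fin p → ℝ)) ×ˢ {w : W | (u, w) ∈ K} := by
    ext ⟨v, w⟩
    simp only [mem_ofPred_eq, mem_prod, mem_singleton_iff]
    constructor
    · rintro ⟨h, rfl⟩
      exact ⟨rfl, h⟩
    · rintro ⟨rfl, h⟩
      exact ⟨h, rfl⟩
  rw [this]
  exact (convex_singleton u).prod (hfib u)

theorem good_of_fibers {A : Type*} [AddCommGroup A] {p : ℕ} {W : Type*} [NormedAddCommGroup W]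
    [NormedSpace ℝ W] [FiniteDimensional ℝ W] (K : Set ((Fin p → ℝ) × W)) (hK : IsCompact K)
    (hfib : ∀ u, Convex ℝ {w : W | (u, w) ∈ K}) (j : ℕ) (hj1 : 1 ≤ j) (hjp : p ≤ j) :
    Good A j K :=
  kt2_fib p Prod.fst continuous_fst K hK (kt2_fibre_convex K hfib) j hjp

theorem good_of_full_fibers {A : Type*} [AddCommGroup A] {m : ℕ} {W : Type*}
    [NormedAddCommGroup W] [NormedSpace ℝ W] [FiniteDimensional ℝ W] (a b : Fin m → ℝ)
    (hab : a ≤ b) (K : Set ((Fin m → ℝ) × W)) (hK : IsCompact K)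
    (hsub : ∀ x ∈ K, x.1 ∈ Icc a b) (hfib : ∀ u, Convex ℝ {w : W | (u, w) ∈ K})
    (hne : ∀ u ∈ Icc a b, {w : W | (u, w) ∈ K}.Nonempty) :
    (∀ j : ℕ, 1 ≤ j → Good A j K) ∧ ConstNear A K := by
  have key : ∀ j : ℕ, Good A j K := by
    intro j
    refine kt2_full m Prod.fst continuous_fst K hK a b hab hsub (kt2_fibre_convex K hfib) ?_ j
    intro u hu
    obtain ⟨w, hw⟩ := hne u hu
    exact ⟨(u, w), hw, rfl⟩
  refine ⟨fun j _ => key j, ?_⟩
  intro U hU hKU z hz
  obtain ⟨U', h1, h2, h3, b', hb'⟩ := key 0 U hU hKU z hz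
  refine ⟨U', h1, h2, h3, b' (fun l => l.elim0), ?_⟩
  intro σ hσ
  rw [← hb' σ hσ]
  unfold dC
  rw [Fin.sum_univ_one, Fin.val_zero, pow_zero, one_smul]
  congr 1
  exact Subsingleton.elim _ _

end Pool.Agent.MP_8db1a4_gt
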