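import Pool.Agent.MP_8db1a4_gt.Cochain

set_option autoImplicit false

/-!
# Transfer of local vanishing from an affine chart to the cone over it (K-T3)
-/

namespace Pool.Agent.MP_8db1a4_gt

open Set

section Prism

variable {V : Type*} {A : Type*} [AddCommGroup A]

theorem dC_cons {n : ℕ} (z : (Fin (n + 1) → V) → A) (x : V) (σ : Fin (n + 1) → V) :
    dC z (Fin.cons x σ : Fin (n + 2) → V) = z σ - dC (fun τ : Fin n → V => z (Fin.cons x τ)) σ := by
  unfold dC
  rw [Fin.sum_univ_succ]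
  simp only [Fin.val_zero, pow_zero, one_smul, Fin.zero_succAbove, Fin.val_succ, pow_succ,
    mul_neg, mul_one, neg_smul, Finset.sum_neg_distrib, sub_eq_add_neg]
  congr 1
  congr 1
  refine Finset.sum_congr rfl fun i _ => ?_
  congr 2
  funext l
  refine Fin.cases ?_ (fun l => ?_) l
  · simp
  · simp

/-- The prism operator of the map `π`. -/
def prism (π : V → V) : (n : ℕ) → ((Fin (n + 1) → V) → A) → (Fin n → V) → A
  | 0, _, _ => 0
  | n + 1, z, σ => z (Fin.cons (σ 0) (fun i => π (σ i))) -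
      prism π n (fun τ => z (Fin.cons (σ 0) τ)) (Fin.tail σ)

theorem prism_sub (π : V → V) (n : ℕ) (z w : (Fin (n + 1) → V) → A) (σ : Fin n → V) :
    prism π n (fun τ => z τ - w τ) σ = prism π n z σ - prism π n w σ := by
  induction n with
  | zero => simp [prism]
  | succ n ih =>
    simp only [prism]
    rw [ih]
    abel

theorem dC_sub {n : ℕ} (z w : (Fin n → V) → A) (σ : Fin (n + 1) → V) :
    dC (fun τ => z τ - w τ) σ = dC z σ - dC w σ := by
  simp only [dC, smul_sub, Finset.sum_sub_distrib]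

theorem prism_identity (π : V → V) (n : ℕ) (z : (Fin (n + 1) → V) → A) (σ : Fin (n + 1) → V) :
    dC (prism π n z) σ + prism π (n + 1) (dC z) σ = z (fun i => π (σ i)) - z σ := by
  induction n with
  | zero =>
    have h1 : dC (prism π 0 z) σ = 0 := by simp [dC, prism]
    rw [h1, zero_add]
    show dC z (Fin.cons (σ 0) (fun i => π (σ i))) - 0 = _
    rw [dC_cons, sub_zero]
    congr 1
    have e : (Fin.cons (σ 0) (fun l : Fin 0 => π (σ ((0 : Fin 1).succAbove l))) : Fin 1 → V) = σ := by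
      funext l
      have : l = 0 := Fin.fin_one_eq_zero l
      subst this
      simp
    simp only [dC, Fin.val_eq_zero, pow_zero, one_smul]
    rw [Fin.sum_univ_one, e]
  | succ n ih =>
    obtain ⟨x, σ', rfl⟩ : ∃ x : V, ∃ σ' : Fin (n + 1) → V, σ = Fin.cons x σ' :=
      ⟨σ 0, Fin.tail σ, (Fin.cons_self_tail σ).symm⟩
    have hπ : (fun i => π ((Fin.cons x σ' : Fin (n + 2) → V) i)) =
        (Fin.cons (π x) (fun i => π (σ' i)) : Fin (n + 2) → V) := by
      funext l
      refine Fin.cases ?_ (fun l => ?_) l <;> simp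
    have hP : ∀ τ : Fin n → V, prism π (n + 1) z (Fin.cons x τ) =
        z (Fin.cons x (Fin.cons (π x) (fun i => π (τ i)))) -
          prism π n (fun τ' => z (Fin.cons x τ')) τ := by
      intro τ
      simp only [prism, Fin.cons_zero, Fin.tail_cons]
      congr 2
      congr 1
      funext l
      refine Fin.cases ?_ (fun l => ?_) l <;> simp
    rw [dC_cons]
    have e1 : dC (fun τ : Fin n → V => prism π (n + 1) z (Fin.cons x τ)) σ' =
        dC (fun τ : Fin n → V => z (Fin.cons x (Fin.cons (π x) (fun i => π (τ i))))) σ' -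
          dC (prism π n (fun τ' => z (Fin.cons x τ'))) σ' := by
      rw [← dC_sub]
      congr 1
      funext τ
      exact hP τ
    have e2 : prism π (n + 2) (dC z) (Fin.cons x σ') =
        dC z (Fin.cons x (Fin.cons (π x) (fun i => π (σ' i)))) -
          prism π (n + 1) (fun τ => dC z (Fin.cons x τ)) σ' := by
      simp only [prism, Fin.cons_zero, Fin.tail_cons]
      congr 3
    have e3 : prism π (n + 1) (fun τ => dC z (Fin.cons x τ)) σ' =
        prism π (n + 1) z σ' - prism π (n + 1) (dC (fun τ' => z (Fin.cons x τ'))) σ' := by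
      rw [← prism_sub]
      congr 1
      funext τ
      exact dC_cons z x τ
    have e4 : dC (fun τ : Fin n → V => z (Fin.cons x (Fin.cons (π x) (fun i => π (τ i))))) σ' =
        dC (fun τ : Fin n → V => z (Fin.cons x (Fin.cons (π x) τ))) (fun i => π (σ' i)) := rfl
    rw [e1, e2, e3, e4, dC_cons, dC_cons, hπ]
    have := ih (fun τ' => z (Fin.cons x τ')) σ'
    have h5 : dC (prism π n (fun τ' => z (Fin.cons x τ'))) σ' =
        z (Fin.cons x (fun i => π (σ' i))) - z (Fin.cons x σ') -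
          prism π (n + 1) (dC (fun τ' => z (Fin.cons x τ'))) σ' := by
      rw [← this]; abel
    rw [h5]
    abel

theorem prism_eq_zero (π : V → V) (n : ℕ) (S : Set V) (z : (Fin (n + 1) → V) → A)
    (hz : ∀ τ : Fin (n + 1) → V, (∀ i, τ i ∈ S) → z τ = 0) (σ : Fin n → V)
    (h1 : ∀ i, σ i ∈ S) (h2 : ∀ i, π (σ i) ∈ S) : prism π n z σ = 0 := by
  induction n with
  | zero => rfl
  | succ n ih =>
    simp only [prism]
    rw [hz, ih, sub_zero]
    · intro τ hτ
      apply hz
      intro i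
      refine Fin.cases ?_ (fun i => ?_) i
      · simpa using h1 0
      · simpa using hτ i
    · intro i; exact h1 _
    · intro i; exact h2 _
    · intro i
      refine Fin.cases ?_ (fun i => ?_) i
      · simpa using h1 0
      · simpa using h2 i

end Prism

section Chart

variable {V E : Type*} [NormedAddCommGroup V] [NormedSpace ℝ V] [NormedAddCommGroup E]
  [NormedSpace ℝ E] (ψ : (ℝ × E) ≃L[ℝ] V)

/-- The height. -/
noncomputable def hgt (X : V) : ℝ := (ψ.symm X).1

/-- The chart coordinate of the ray through `X`. -/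
noncomputable def crd (X : V) : E := (hgt ψ X)⁻¹ • (ψ.symm X).2

/-- The radial projection to height one. -/
noncomputable def gcRad (X : V) : V := ψ (1, crd ψ X)

theorem hgt_add (X Y : V) : hgt ψ (X + Y) = hgt ψ X + hgt ψ Y := by simp [hgt]

theorem hgt_smul (t : ℝ) (X : V) : hgt ψ (t • X) = t * hgt ψ X := by simp [hgt]

theorem hgt_psi (t : ℝ) (x : E) : hgt ψ (ψ (t, x)) = t := by simp [hgt]

theorem crd_psi (x : E) : crd ψ (ψ (1, x)) = x := by simp [crd, hgt]

theorem crd_smul {t : ℝ} (ht : 0 < t) (X : V) : crd ψ (t • X) = crd ψ X := by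
  simp only [crd, hgt_smul, map_smul, Prod.smul_snd, smul_smul, mul_inv]
  congr 1
  field_simp

theorem eq_smul_rad {X : V} (hX : 0 < hgt ψ X) : X = hgt ψ X • gcRad ψ X := by
  have h : (hgt ψ X • (1, crd ψ X) : ℝ × E) = ψ.symm X := by
    refine Prod.ext ?_ ?_
    · simp [hgt]
    · simp [crd, smul_smul, mul_inv_cancel₀ hX.ne']
  rw [gcRad, ← map_smul, h, ψ.apply_symm_apply]

theorem crd_comb {X Y : V} (hX : 0 < hgt ψ X) (hY : 0 < hgt ψ Y) {a b : ℝ} (ha : 0 ≤ a)
    (hb : 0 ≤ b) (hab : a + b = 1) :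
    0 < a * hgt ψ X + b * hgt ψ Y ∧ crd ψ (a • X + b • Y) =
      (a * hgt ψ X / (a * hgt ψ X + b * hgt ψ Y)) • crd ψ X +
      (b * hgt ψ Y / (a * hgt ψ X + b * hgt ψ Y)) • crd ψ Y := by
  have hpos : 0 < a * hgt ψ X + b * hgt ψ Y := by
    rcases ha.lt_or_eq with h | h
    · have := mul_pos h hX
      have := mul_nonneg hb hY.le
      linarith
    · have hb1 : b = 1 := by linarith
      subst hb1
      rw [← h]; linarith
  refine ⟨hpos, ?_⟩
  have hX' := hX.ne'
  have hY' := hY.ne'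
  simp only [crd, hgt_add, hgt_smul, map_add, map_smul, Prod.snd_add, Prod.smul_snd, smul_add,
    smul_smul]
  congr 1
  · congr 1; field_simp
  · congr 1; field_simp

theorem convex_cone_chart {K : Set E} (hK : Convex ℝ K) :
    Convex ℝ {X : V | 0 < hgt ψ X ∧ crd ψ X ∈ K} := by
  intro X hX Y hY a b ha hb hab
  obtain ⟨hpos, hc⟩ := crd_comb ψ hX.1 hY.1 ha hb hab
  refine ⟨?_, ?_⟩
  · rw [hgt_add, hgt_smul, hgt_smul]; exact hpos
  · rw [hc]
    refine hK hX.2 hY.2 ?_ ?_ ?_
    · exact div_nonneg (mul_nonneg ha hX.1.le) hpos.le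
    · exact div_nonneg (mul_nonneg hb hY.1.le) hpos.le
    · rw [← add_div, div_self hpos.ne']

theorem hull_crd_subset {n : ℕ} {W : Set E} (σ : Fin n → V)
    (h : hull σ ⊆ {X : V | 0 < hgt ψ X ∧ crd ψ X ∈ W}) :
    hull (fun i => crd ψ (σ i)) ⊆ W := by
  have hconv : Convex ℝ (crd ψ '' hull σ) := by
    rintro _ ⟨X, hX, rfl⟩ _ ⟨Y, hY, rfl⟩ a b ha hb hab
    have hX1 := (h hX).1
    have hY1 := (h hY).1
    -- weights
    set S : ℝ := a / hgt ψ X + b / hgt ψ Y with hS
    have hSpos : 0 < S := by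
      rcases ha.lt_or_eq with h' | h'
      · have := div_pos h' hX1
        have := div_nonneg hb hY1.le
        linarith
      · have hb1 : b = 1 := by linarith
        subst hb1
        rw [hS, ← h']
        have := div_pos one_pos hY1
        simpa using this
    set a' : ℝ := (a / hgt ψ X) / S with ha'
    set b' : ℝ := (b / hgt ψ Y) / S with hb'
    have ha0 : 0 ≤ a' := div_nonneg (div_nonneg ha hX1.le) hSpos.le
    have hb0 : 0 ≤ b' := div_nonneg (div_nonneg hb hY1.le) hSpos.le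
    have hab' : a' + b' = 1 := by rw [ha', hb', ← add_div, ← hS, div_self hSpos.ne']
    refine ⟨a' • X + b' • Y, convex_convexHull ℝ _ hX hY ha0 hb0 hab', ?_⟩
    obtain ⟨hpos, hc⟩ := crd_comb ψ hX1 hY1 ha0 hb0 hab'
    rw [hc]
    have hX' := hX1.ne'
    have hY' := hY1.ne'
    have hS' := hSpos.ne'
    have e1 : a' * hgt ψ X = a / S := by rw [ha']; field_simp
    have e2 : b' * hgt ψ Y = b / S := by rw [hb']; field_simp
    have e3 : a / S + b / S = 1 / S := by rw [← add_div, hab]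
    rw [e1, e2, e3]
    congr 1
    · congr 1; field_simp
    · congr 1; field_simp
  have hsub : hull (fun i => crd ψ (σ i)) ⊆ crd ψ '' hull σ := by
    refine convexHull_min ?_ hconv
    rintro _ ⟨i, rfl⟩
    exact ⟨σ i, subset_convexHull ℝ _ ⟨i, rfl⟩, rfl⟩
  intro y hy
  obtain ⟨X, hX, rfl⟩ := hsub hy
  exact (h hX).2

theorem hull_chart {n : ℕ} {U : Set V} (σ : Fin n → E)
    (h : hull σ ⊆ {x : E | ψ (1, x) ∈ U}) : hull (fun i => ψ (1, σ i)) ⊆ U := by
  have hconv : Convex ℝ ((fun x : E => ψ (1, x)) '' hull σ) := by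
    rintro _ ⟨X, hX, rfl⟩ _ ⟨Y, hY, rfl⟩ a b ha hb hab
    refine ⟨a • X + b • Y, convex_convexHull ℝ _ hX hY ha hb hab, ?_⟩
    simp only
    rw [← map_smul, ← map_smul, ← map_add]
    congr 1
    refine Prod.ext ?_ ?_
    · simp [hab]
    · simp
  have hsub : hull (fun i => ψ (1, σ i)) ⊆ (fun x : E => ψ (1, x)) '' hull σ := by
    refine convexHull_min ?_ hconv
    rintro _ ⟨i, rfl⟩
    exact ⟨σ i, subset_convexHull ℝ _ ⟨i, rfl⟩, rfl⟩
  intro y hy
  obtain ⟨X, hX, rfl⟩ := hsub hy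
  exact h hX

theorem continuous_hgt : Continuous (hgt ψ) := by
  unfold hgt
  fun_prop

theorem isOpen_chart_cone {W : Set E} (hW : IsOpen W) :
    IsOpen {X : V | 0 < hgt ψ X ∧ crd ψ X ∈ W} := by
  have h1 : IsOpen {X : V | 0 < hgt ψ X} := isOpen_lt continuous_const (continuous_hgt ψ)
  have h2 : ContinuousOn (crd ψ) {X : V | 0 < hgt ψ X} := by
    unfold crd
    refine ContinuousOn.smul ?_ ?_
    · exact (continuous_hgt ψ).continuousOn.inv₀ fun X hX => (ne_of_gt hX)
    · fun_prop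
  exact h2.isOpen_inter_preimage h1 hW

end Chart

theorem goodC_of_good {A : Type*} [AddCommGroup A] {V E : Type*} [NormedAddCommGroup V]
    [NormedSpace ℝ V] [NormedAddCommGroup E] [NormedSpace ℝ E] [FiniteDimensional ℝ E]
    (ψ : (ℝ × E) ≃L[ℝ] V) (K : Set E) (hK : IsCompact K) (j : ℕ) (hj : 1 ≤ j)
    (h : Good A j K) : GoodC A j (coneOver ((fun x : E => ψ (1, x)) '' K)) := by
  intro U hU hUc hKU z hz
  have hcont : Continuous (fun x : E => ψ (1, x)) := by fun_prop
  obtain ⟨UE, hUE1, hUE2, hUE3, bE, hbE⟩ := h ((fun x : E => ψ (1, x)) ⁻¹' U)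
    (hU.preimage hcont) (fun x hx => hKU ⟨1, one_pos, ψ (1, x), ⟨x, hx, rfl⟩, by simp⟩)
    (fun σ => z (fun i => ψ (1, σ i))) (fun σ hσ => hz (fun i => ψ (1, σ i)) (hull_chart ψ σ hσ))
  have hsubU : {X : V | 0 < hgt ψ X ∧ crd ψ X ∈ UE} ⊆ U := by
    intro X hX
    rw [eq_smul_rad ψ hX.1]
    exact hUc _ (hUE1 hX.2) _ hX.1
  refine ⟨{X : V | 0 < hgt ψ X ∧ crd ψ X ∈ UE}, hsubU, isOpen_chart_cone ψ hUE2, ?_, ?_,
    fun σ => bE (fun i => crd ψ (σ i)) - prism (gcRad ψ) j z σ, ?_⟩
  · intro X hX t ht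
    refine ⟨?_, ?_⟩
    · rw [hgt_smul]; exact mul_pos ht hX.1
    · rw [crd_smul ψ ht]; exact hX.2
  · rintro X ⟨t, ht, _, ⟨x, hx, rfl⟩, rfl⟩
    refine ⟨?_, ?_⟩
    · rw [hgt_smul, hgt_psi]; simpa using ht
    · rw [crd_smul ψ ht, crd_psi]; exact hUE3 hx
  · intro σ hσ
    rw [dC_sub]
    have e1 : dC (fun τ : Fin j → V => bE (fun i => crd ψ (τ i))) σ =
        dC bE (fun i => crd ψ (σ i)) := rfl
    have e2 := hbE (fun i => crd ψ (σ i)) (hull_crd_subset ψ σ hσ)
    rw [e1, e2]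
    have hkey := prism_identity (gcRad ψ) j z σ
    have hvan : prism (gcRad ψ) (j + 1) (dC z) σ = 0 := by
      refine prism_eq_zero (gcRad ψ) (j + 1)
        {X : V | 0 < hgt ψ X ∧ crd ψ X ∈ hull (fun i => crd ψ (σ i))} _ ?_ σ ?_ ?_
      · intro τ hτ
        refine hz τ ?_
        refine subset_trans ?_ hsubU
        have hc := convex_cone_chart ψ (V := V) (K := hull (fun i => crd ψ (σ i)))
          (convex_convexHull ℝ _)
        have h1 : hull τ ⊆ {X : V | 0 < hgt ψ X ∧ crd ψ X ∈ hull (fun i => crd ψ (σ i))} := by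
          refine convexHull_min ?_ hc
          rintro _ ⟨i, rfl⟩
          exact hτ i
        intro X hX
        exact ⟨(h1 hX).1, hull_crd_subset ψ σ hσ (h1 hX).2⟩
      · intro i
        refine ⟨(hσ (subset_convexHull ℝ _ ⟨i, rfl⟩)).1, subset_convexHull ℝ _ ⟨i, rfl⟩⟩
      · intro i
        refine ⟨?_, ?_⟩
        · rw [gcRad, hgt_psi]; exact one_pos
        · rw [gcRad, crd_psi]; exact subset_convexHull ℝ _ ⟨i, rfl⟩
    rw [hvan, add_zero] at hkey
    rw [hkey]
    show z (fun i => gcRad ψ (σ i)) - (z (fun i => gcRad ψ (σ i)) - z σ) = z σ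
    abel

end Pool.Agent.MP_8db1a4_gt
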