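import Pool.Agent.MP_8db1a4_gt.MorseDefs
import Pool.Agent.MP_8db1a4_gt.Fibers
import Pool.Agent.MP_8db1a4_gt.GoodC

set_option autoImplicit false

/-! [K-M1] type I boxes are good (helper76). -/

namespace Pool.Agent.MP_8db1a4_gt

open Set

/-- A closed midpoint-convex set is convex. -/
theorem m1_convex_of_closed_midpoint {E : Type*} [AddCommGroup E] [Module ℝ E] [TopologicalSpace E]
    [IsTopologicalAddGroup E] [ContinuousSMul ℝ E] (S : Set E) (hS : IsClosed S)
    (h : ∀ x ∈ S, ∀ y ∈ S, (1 / 2 : ℝ) • (x + y) ∈ S) : Convex ℝ S := by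
  rw [convex_iff_segment_subset]
  intro x hx y hy p hp
  rw [segment_eq_image] at hp
  obtain ⟨t, ⟨ht0, ht1⟩, rfl⟩ := hp
  set f : ℝ → E := fun s => (1 - s) • x + s • y with hf
  have hfc : Continuous f := by fun_prop
  set T : Set ℝ := Icc 0 1 ∩ f ⁻¹' S with hT
  have hTc : IsClosed T := isClosed_Icc.inter (hS.preimage hfc)
  have h0 : (0 : ℝ) ∈ T := by
    refine ⟨by simp, ?_⟩
    simpa [f] using hx
  have h1 : (1 : ℝ) ∈ T := by
    refine ⟨by simp, ?_⟩
    simpa [f] using hy
  have hmid : ∀ a ∈ T, ∀ b ∈ T, (a + b) / 2 ∈ T := by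
    intro a ha b hb
    refine ⟨⟨?_, ?_⟩, ?_⟩
    · have := ha.1.1; have := hb.1.1; linarith
    · have := ha.1.2; have := hb.1.2; linarith
    · have := h _ ha.2 _ hb.2
      have e : f ((a + b) / 2) = (1 / 2 : ℝ) • (f a + f b) := by
        simp only [hf]
        module
      rw [mem_preimage, e]
      exact this
  -- left and right nearest points
  set L : Set ℝ := T ∩ Iic t with hL
  set R : Set ℝ := T ∩ Ici t with hR
  have hLc : IsClosed L := hTc.inter isClosed_Iic
  have hRc : IsClosed R := hTc.inter isClosed_Ici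
  have hL0 : L.Nonempty := ⟨0, h0, ht0⟩
  have hR0 : R.Nonempty := ⟨1, h1, ht1⟩
  have hLb : BddAbove L := ⟨t, fun s hs => hs.2⟩
  have hRb : BddBelow R := ⟨t, fun s hs => hs.2⟩
  have hLm : sSup L ∈ L := hLc.csSup_mem hL0 hLb
  have hRm : sInf R ∈ R := hRc.csInf_mem hR0 hRb
  have hm := hmid _ hLm.1 _ hRm.1
  have hLt : sSup L ≤ t := hLm.2
  have hRt : t ≤ sInf R := hRm.2
  rcases le_total ((sSup L + sInf R) / 2) t with hc | hc
  · have h3 : (sSup L + sInf R) / 2 ≤ sSup L := le_csSup hLb ⟨hm, hc⟩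
    have : sSup L = t := by linarith
    have hmem := hLm.1.2
    rw [this] at hmem
    exact hmem
  · have h3 : sInf R ≤ (sSup L + sInf R) / 2 := csInf_le hRb ⟨hm, hc⟩
    have : sSup L = t := by linarith
    have hmem := hLm.1.2
    rw [this] at hmem
    exact hmem

/-- Second differences of a `C²` function on a compact convex set. -/
theorem m1_second_diff {V : Type*} [NormedAddCommGroup V] [NormedSpace ℝ V]
    (C : Set V) (hC : IsOpen C) (φ : V → ℝ) (hφ : ContDiffOn ℝ 2 φ C) (Kc : Set V)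
    (hK : IsCompact Kc) (hKc : Convex ℝ Kc) (hKC : Kc ⊆ C) :
    ∃ M : ℝ, 0 ≤ M ∧ ∀ x h : V, x + h ∈ Kc → x - h ∈ Kc →
      φ (x + h) + φ (x - h) - 2 * φ x ≤ M * ‖h‖ ^ 2 := by
  have hd : ∀ x ∈ C, HasFDerivAt φ (fderiv ℝ φ x) x := fun x hx =>
    ((hφ.differentiableOn (by norm_num)).differentiableAt (hC.mem_nhds hx)).hasFDerivAt
  have hφ1 : ContDiffOn ℝ 1 (fderiv ℝ φ) C := by
    refine hφ.fderiv_of_isOpen hC ?_
    norm_num
  have hd2 : ∀ x ∈ C, HasFDerivAt (fderiv ℝ φ) (fderiv ℝ (fderiv ℝ φ) x) x := fun x hx =>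
    ((hφ1.differentiableOn (by norm_num)).differentiableAt (hC.mem_nhds hx)).hasFDerivAt
  have hc2 : ContinuousOn (fderiv ℝ (fderiv ℝ φ)) C := by
    have := hφ1.fderiv_of_isOpen (m := 0) hC (by norm_num)
    exact this.continuousOn
  obtain ⟨M, hM⟩ := IsCompact.exists_bound_of_continuousOn (f := fderiv ℝ (fderiv ℝ φ)) hK
    (hc2.mono hKC)
  refine ⟨2 * max M 0, by positivity, ?_⟩
  intro x h hp hm
  have hlip : ∀ a ∈ Kc, ∀ b ∈ Kc, ‖fderiv ℝ φ b - fderiv ℝ φ a‖ ≤ max M 0 * ‖b - a‖ := by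
    intro a ha b hb
    exact hKc.norm_image_sub_le_of_norm_hasFDerivWithin_le
      (fun y hy => (hd2 y (hKC hy)).hasFDerivWithinAt)
      (fun y hy => (hM y hy).trans (le_max_left _ _)) ha hb
  have hseg : ∀ s ∈ Icc (0 : ℝ) 1, x + s • h ∈ Kc ∧ x - s • h ∈ Kc := by
    intro s hs
    constructor
    · have e : x + s • h = ((1 + s) / 2) • (x + h) + ((1 - s) / 2) • (x - h) := by module
      rw [e]
      exact hKc hp hm (by linarith [hs.1]) (by linarith [hs.2]) (by ring)
    · have e : x - s • h = ((1 - s) / 2) • (x + h) + ((1 + s) / 2) • (x - h) := by module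
      rw [e]
      exact hKc hp hm (by linarith [hs.2]) (by linarith [hs.1]) (by ring)
  set g : ℝ → ℝ := fun s => φ (x + s • h) + φ (x - s • h) with hg
  have hgd : ∀ s ∈ Icc (0 : ℝ) 1, HasDerivWithinAt g
      (fderiv ℝ φ (x + s • h) h - fderiv ℝ φ (x - s • h) h) (Icc 0 1) s := by
    intro s hs
    have h1 : HasDerivAt (fun s : ℝ => x + s • h) h s := by
      simpa using ((hasDerivAt_id s).smul_const h).const_add x
    have h2 : HasDerivAt (fun s : ℝ => x - s • h) (-h) s := by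
      simpa using ((hasDerivAt_id s).smul_const h).const_sub x
    have h3 := (hd _ (hKC (hseg s hs).1)).comp_hasDerivAt s h1
    have h4 := (hd _ (hKC (hseg s hs).2)).comp_hasDerivAt s h2
    have h5 := (h3.add h4).hasDerivWithinAt (s := Icc (0 : ℝ) 1)
    have e6 : fderiv ℝ φ (x + s • h) h - fderiv ℝ φ (x - s • h) h
        = fderiv ℝ φ (x + s • h) h + fderiv ℝ φ (x - s • h) (-h) := by
      rw [map_neg, sub_eq_add_neg]
    rw [e6]
    exact h5
  have hb : ∀ s ∈ Ico (0 : ℝ) 1,
      ‖fderiv ℝ φ (x + s • h) h - fderiv ℝ φ (x - s • h) h‖ ≤ 2 * max M 0 * ‖h‖ ^ 2 := by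
    intro s hs
    have hs' : s ∈ Icc (0 : ℝ) 1 := ⟨hs.1, hs.2.le⟩
    have e1 := hlip _ (hseg s hs').2 _ (hseg s hs').1
    have e2 : (x + s • h) - (x - s • h) = (2 * s) • h := by module
    rw [e2, norm_smul] at e1
    have e3 : ‖(2 * s : ℝ)‖ ≤ 2 := by
      rw [Real.norm_eq_abs, abs_of_nonneg (by linarith [hs.1])]
      linarith [hs.2]
    have e4 : ‖fderiv ℝ φ (x + s • h) h - fderiv ℝ φ (x - s • h) h‖
        ≤ ‖fderiv ℝ φ (x + s • h) - fderiv ℝ φ (x - s • h)‖ * ‖h‖ := by
      rw [← sub_apply]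
      exact ContinuousLinearMap.le_opNorm _ _
    have hM0 : 0 ≤ max M 0 := le_max_right _ _
    have hh : 0 ≤ ‖h‖ := norm_nonneg _
    calc _ ≤ ‖fderiv ℝ φ (x + s • h) - fderiv ℝ φ (x - s • h)‖ * ‖h‖ := e4
      _ ≤ (max M 0 * (‖(2 * s : ℝ)‖ * ‖h‖)) * ‖h‖ := by gcongr
      _ ≤ (max M 0 * (2 * ‖h‖)) * ‖h‖ := by gcongr
      _ = 2 * max M 0 * ‖h‖ ^ 2 := by ring
  have hfin := norm_image_sub_le_of_norm_deriv_le_segment_01' hgd hb
  simp only [hg, one_smul, zero_smul, add_zero, sub_zero] at hfin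
  rw [Real.norm_eq_abs] at hfin
  have := le_abs_self (φ (x + h) + φ (x - h) - (φ x + φ x))
  linarith

section Chart

variable {V : Type*} [NormedAddCommGroup V] [NormedSpace ℝ V] [FiniteDimensional ℝ V]

/-- The chart. -/
theorem m1_chart (x₀ : V) (hx₀ : x₀ ≠ 0) (U W : Submodule ℝ V) (hd : Disjoint (ℝ ∙ x₀) U)
    (hc : IsCompl ((ℝ ∙ x₀) ⊔ U) W) :
    ∃ ψ : (ℝ × ((Fin (Module.finrank ℝ U) → ℝ) × W)) ≃L[ℝ] V,
      ∃ e : (Fin (Module.finrank ℝ U) → ℝ) →L[ℝ] U,
        ∀ t u w, ψ (t, (u, w)) = t • x₀ + (e u : V) + (w : V) := by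
  classical
  set b := Module.finBasis ℝ U with hb
  set e0 : (Fin (Module.finrank ℝ U) → ℝ) ≃ₗ[ℝ] U := b.equivFun.symm with he0
  set f : (ℝ × ((Fin (Module.finrank ℝ U) → ℝ) × W)) →ₗ[ℝ] V :=
    (LinearMap.toSpanSingleton ℝ V x₀).coprod
      ((U.subtype.comp e0.toLinearMap).coprod W.subtype) with hf
  have hfa : ∀ t u w, f (t, (u, w)) = t • x₀ + (e0 u : V) + (w : V) := by
    intro t u w
    simp [hf, add_assoc]
  have hinj : Function.Injective f := by
    rw [injective_iff_map_eq_zero]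
    rintro ⟨t, u, w⟩ h
    rw [hfa] at h
    have hw : (w : V) ∈ (ℝ ∙ x₀) ⊔ U := by
      have e1 : (w : V) = (-t) • x₀ + (-(e0 u) : U) := by
        have : (w : V) = -(t • x₀ + (e0 u : V)) := by
          rw [eq_neg_iff_add_eq_zero, add_comm]
          exact h
        rw [this]; push_cast; module
      rw [e1]
      exact Submodule.add_mem_sup (Submodule.smul_mem _ _ (Submodule.mem_span_singleton_self _))
        (Submodule.coe_mem _)
    have hw0 : (w : V) = 0 := by
      have := hc.disjoint.le_bot (show (w : V) ∈ ((ℝ ∙ x₀) ⊔ U) ⊓ W from ⟨hw, w.2⟩)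
      simpa using this
    rw [hw0, add_zero] at h
    have hu : (e0 u : V) ∈ (ℝ ∙ x₀) := by
      have : (e0 u : V) = (-t) • x₀ := by
        have : (e0 u : V) = -(t • x₀) := by
          rw [eq_neg_iff_add_eq_zero, add_comm]
          exact h
        rw [this]; module
      rw [this]
      exact Submodule.smul_mem _ _ (Submodule.mem_span_singleton_self _)
    have hu0 : (e0 u : V) = 0 := by
      have := hd.le_bot (show (e0 u : V) ∈ (ℝ ∙ x₀) ⊓ U from ⟨hu, Submodule.coe_mem _⟩)
      simpa using this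
    rw [hu0, add_zero] at h
    have ht : t = 0 := by
      rcases smul_eq_zero.mp h with h | h
      · exact h
      · exact absurd h hx₀
    have hu' : e0 u = 0 := by
      ext; simpa using hu0
    have hu'' : u = 0 := by simpa using hu'
    have hw' : w = 0 := by ext; simpa using hw0
    simp [ht, hu'', hw']
  have hsurj : Function.Surjective f := by
    intro v
    have hv : v ∈ ((ℝ ∙ x₀) ⊔ U) ⊔ W := by
      rw [hc.sup_eq_top]; trivial
    obtain ⟨a, ha, w, hw, rfl⟩ := Submodule.mem_sup.mp hv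
    obtain ⟨a1, ha1, u, hu, rfl⟩ := Submodule.mem_sup.mp ha
    obtain ⟨t, rfl⟩ := Submodule.mem_span_singleton.mp ha1
    refine ⟨(t, (e0.symm ⟨u, hu⟩, ⟨w, hw⟩)), ?_⟩
    rw [hfa]
    simp
  refine ⟨(LinearEquiv.ofBijective f ⟨hinj, hsurj⟩).toContinuousLinearEquiv,
    LinearMap.toContinuousLinearMap e0.toLinearMap, ?_⟩
  intro t u w
  exact hfa t u w

end Chart

variable {V : Type*} [NormedAddCommGroup V] [NormedSpace ℝ V] [FiniteDimensional ℝ V]
  {A : Type*} [AddCommGroup A]

theorem goodBox_of_typeI (C T' : Set V) (hCo : IsOpen C) (hCc : Convex ℝ C) (hCcon : Conic C)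
    (h0 : (0 : V) ∉ C) (hT' : T' ⊆ C) (hT'c : IsOpen (C \ T')) (hT'con : Conic T')
    (F : V → ℝ) (hF : ContinuousOn F (C \ T')) (hFcon : ∀ x ∈ C, ∀ t : ℝ, 0 < t → F (t • x) = F x)
    (k : ℕ) (hk : 2 ≤ k) (x₀ : V) (hx₀ : x₀ ∈ C \ T') (h : TypeI C T' F k x₀) :
    GoodBox A C T' F k x₀ := by
  classical
  obtain ⟨U, W, hU, hdis, hcompl, r, hr, c₀, hc₀, hball, hconv⟩ := h
  have hx₀0 : x₀ ≠ 0 := fun h => h0 (h ▸ hx₀.1)
  obtain ⟨ψ, e, hψ⟩ := m1_chart x₀ hx₀0 U W hdis hcompl
  have hψ0 : ψ (1, (0, 0)) = x₀ := by rw [hψ]; simp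
  intro N hN hNcon hx₀N hNC
  -- choose the size of the box
  have hcont : Continuous (fun q : (Fin (Module.finrank ℝ U) → ℝ) × W => ψ (1, q)) := by fun_prop
  obtain ⟨δ, hδ, hδr, hδe, hδN⟩ : ∃ δ > (0 : ℝ), δ ≤ r ∧
      (∀ u : Fin (Module.finrank ℝ U) → ℝ, ‖u‖ ≤ δ → ‖e u‖ ≤ r) ∧
      (∀ q : (Fin (Module.finrank ℝ U) → ℝ) × W, ‖q‖ ≤ δ → ψ (1, q) ∈ N ∩ (C \ T')) := by
    have hnh : (fun q : (Fin (Module.finrank ℝ U) → ℝ) × W => ψ (1, q)) ⁻¹' (N ∩ (C \ T')) ∈
        nhds (0 : (Fin (Module.finrank ℝ U) → ℝ) × W) := by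
      apply hcont.continuousAt.preimage_mem_nhds
      refine (hN.inter hT'c).mem_nhds ?_
      have : ψ (1, (0 : (Fin (Module.finrank ℝ U) → ℝ) × W)) = x₀ := hψ0
      rw [this]
      exact ⟨hx₀N, hx₀⟩
    obtain ⟨δ₁, hδ₁, hb₁⟩ := Metric.mem_nhds_iff.mp hnh
    have hnh2 : (fun u : Fin (Module.finrank ℝ U) → ℝ => e u) ⁻¹' (Metric.ball 0 r) ∈
        nhds (0 : Fin (Module.finrank ℝ U) → ℝ) := by
      apply e.continuous.continuousAt.preimage_mem_nhds
      rw [map_zero]
      exact Metric.ball_mem_nhds _ hr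
    obtain ⟨δ₂, hδ₂, hb₂⟩ := Metric.mem_nhds_iff.mp hnh2
    refine ⟨min r (min (δ₁ / 2) (δ₂ / 2)), by positivity, min_le_left _ _, ?_, ?_⟩
    · intro u hu
      have : u ∈ Metric.ball (0 : Fin (Module.finrank ℝ U) → ℝ) δ₂ := by
        rw [mem_ball_zero_iff]
        have := (hu.trans (min_le_right _ _)).trans (min_le_right _ _)
        linarith
      have := hb₂ this
      rw [mem_preimage, mem_ball_zero_iff] at this
      exact this.le
    · intro q hq
      have : q ∈ Metric.ball (0 : (Fin (Module.finrank ℝ U) → ℝ) × W) δ₁ := by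
        rw [mem_ball_zero_iff]
        have := (hq.trans (min_le_right _ _)).trans (min_le_left _ _)
        linarith
      exact hb₁ this
  set B : Set ((Fin (Module.finrank ℝ U) → ℝ) × W) := Metric.closedBall 0 δ with hB
  have hBc : IsCompact B := isCompact_closedBall _ _
  have hBconv : Convex ℝ B := convex_closedBall _ _
  set Q : Set V := (fun q : (Fin (Module.finrank ℝ U) → ℝ) × W => ψ (1, q)) '' B with hQ
  have hBN : ∀ q ∈ B, ψ (1, q) ∈ N ∩ (C \ T') := by
    intro q hq
    exact hδN q (by simpa [hB] using hq)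
  have hQc : IsCompact Q := hBc.image hcont
  have hQN : Q ⊆ N := by
    rintro _ ⟨q, hq, rfl⟩
    exact (hBN q hq).1
  have hQC : Q ⊆ C := hQN.trans hNC
  have hQconv : Convex ℝ Q := by
    rintro _ ⟨q, hq, rfl⟩ _ ⟨q', hq', rfl⟩ a b ha hb hab
    refine ⟨a • q + b • q', hBconv hq hq' ha hb hab, ?_⟩
    simp only
    rw [← map_smul, ← map_smul, ← map_add]
    congr 1
    ext1
    · simp [hab]
    · rfl
  refine ⟨Q, hQc, hQN, ?_, ?_⟩
  · -- interior
    rw [mem_interior]
    refine ⟨ψ '' {p | 0 < p.1 ∧ ‖p.2‖ < δ * p.1}, ?_, ?_, ?_⟩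
    · rintro _ ⟨⟨t, q⟩, ⟨ht, hq⟩, rfl⟩
      simp only at ht hq
      refine ⟨t, ht, ψ (1, t⁻¹ • q), ⟨t⁻¹ • q, ?_, rfl⟩, ?_⟩
      · rw [hB, mem_closedBall_zero_iff, norm_smul, Real.norm_eq_abs, abs_of_pos (inv_pos.mpr ht)]
        rw [inv_mul_le_iff₀ ht]
        linarith
      · rw [← map_smul]
        congr 1
        ext1
        · simp
        · simp only [Prod.smul_mk]
          rw [smul_smul, mul_inv_cancel₀ ht.ne', one_smul]
    · apply ψ.toHomeomorph.isOpenMap
      have o1 : IsOpen {p : ℝ × ((Fin (Module.finrank ℝ U) → ℝ) × W) | 0 < p.1} :=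
        isOpen_lt continuous_const continuous_fst
      have o2 : IsOpen {p : ℝ × ((Fin (Module.finrank ℝ U) → ℝ) × W) | ‖p.2‖ < δ * p.1} :=
        isOpen_lt (by fun_prop) (by fun_prop)
      exact o1.inter o2
    · refine ⟨(1, (0, 0)), ⟨by simp, ?_⟩, hψ0⟩
      simpa using hδ
  · intro m φ hφ hφcon
    have hM := fun i => m1_second_diff C hCo (φ i) (hφ i) Q hQc hQconv hQC
    choose M hM0 hM using hM
    set S : ℝ := ∑ i, M i with hS
    have hS0 : 0 ≤ S := Finset.sum_nonneg fun i _ => hM0 i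
    refine ⟨c₀ / (S + 1), by positivity, ?_⟩
    intro c ε hε j hj1 hjk
    set Tl : V → ℝ := fun x => c + ∑ i, ε i * φ i x with hTl
    have hTlc : ContinuousOn Tl C := by
      apply ContinuousOn.add continuousOn_const
      exact continuousOn_finsetSum _ fun i _ => continuousOn_const.mul (hφ i).continuousOn
    have hTlcon : ∀ x ∈ C, ∀ t : ℝ, 0 < t → Tl (t • x) = Tl x := by
      intro x hx t ht
      simp only [hTl]
      congr 1
      exact Finset.sum_congr rfl fun i _ => by rw [hφcon i x hx t ht]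
    set K : Set ((Fin (Module.finrank ℝ U) → ℝ) × W) :=
      B ∩ {q | F (ψ (1, q)) ≤ Tl (ψ (1, q))} with hK
    have hFB : ContinuousOn (fun q : (Fin (Module.finrank ℝ U) → ℝ) × W => F (ψ (1, q))) B :=
      hF.comp hcont.continuousOn fun q hq => (hBN q hq).2
    have hTB : ContinuousOn (fun q : (Fin (Module.finrank ℝ U) → ℝ) × W => Tl (ψ (1, q))) B :=
      hTlc.comp hcont.continuousOn fun q hq => (hBN q hq).2.1
    have hKcl : IsClosed K := by
      have := hBc.isClosed.isClosed_le hFB hTB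
      have e1 : K = {x | x ∈ B ∧ F (ψ (1, x)) ≤ Tl (ψ (1, x))} := rfl
      rw [e1]
      exact this
    have hKc : IsCompact K := hBc.of_isClosed_subset hKcl inter_subset_left
    have hfib : ∀ u, Convex ℝ {w : W | (u, w) ∈ K} := by
      intro u
      apply m1_convex_of_closed_midpoint
      · exact hKcl.preimage (by fun_prop)
      · intro w₁ h₁ w₂ h₂
        have hB1 := h₁.1
        have hB2 := h₂.1
        rw [hB, mem_closedBall_zero_iff, norm_prod_le_iff] at hB1 hB2
        simp only at hB1 hB2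
        set w : W := (1 / 2 : ℝ) • (w₁ + w₂) with hw
        set d : W := (1 / 2 : ℝ) • (w₁ - w₂) with hd
        have e1 : w₁ = w + d := by rw [hw, hd]; module
        have e2 : w₂ = w - d := by rw [hw, hd]; module
        have hwn : ‖w‖ ≤ δ := by
          rw [hw, norm_smul]
          have := norm_add_le w₁ w₂
          have e3 : ‖(1 / 2 : ℝ)‖ = 1 / 2 := by norm_num
          rw [e3]
          linarith [hB1.2, hB2.2]
        have hdn : ‖d‖ ≤ δ := by
          rw [hd, norm_smul]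
          have := norm_sub_le w₁ w₂
          have e3 : ‖(1 / 2 : ℝ)‖ = 1 / 2 := by norm_num
          rw [e3]
          linarith [hB1.2, hB2.2]
        have hwB : (u, w) ∈ B := by
          rw [hB, mem_closedBall_zero_iff, norm_prod_le_iff]
          exact ⟨hB1.1, hwn⟩
        refine ⟨hwB, ?_⟩
        have key := hconv (e u) (Submodule.coe_mem _) w (Submodule.coe_mem _) d
          (Submodule.coe_mem _) (hδe u hB1.1) (hwn.trans hδr) (hdn.trans hδr)
        have p1 : ψ (1, (u, w₁)) = x₀ + e u + w + d := by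
          rw [hψ, e1]; push_cast; rw [one_smul]; abel
        have p2 : ψ (1, (u, w₂)) = x₀ + e u + w - d := by
          rw [hψ, e2]; push_cast; rw [one_smul]; abel
        have p0 : ψ (1, (u, w)) = x₀ + e u + w := by
          rw [hψ, one_smul]
        have q1 : F (x₀ + e u + w + d) ≤ Tl (x₀ + e u + w + d) := by
          have := h₁.2
          rw [mem_ofPred_eq, p1] at this
          exact this
        have q2 : F (x₀ + e u + w - d) ≤ Tl (x₀ + e u + w - d) := by
          have := h₂.2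
          rw [mem_ofPred_eq, p2] at this
          exact this
        rw [mem_ofPred_eq, p0]
        have hQ1 : x₀ + (e u : V) + w + d ∈ Q := by
          rw [← p1]; exact ⟨_, h₁.1, rfl⟩
        have hQ2 : x₀ + (e u : V) + w - d ∈ Q := by
          rw [← p2]; exact ⟨_, h₂.1, rfl⟩
        have hT : Tl (x₀ + e u + w + d) + Tl (x₀ + e u + w - d) - 2 * Tl (x₀ + e u + w)
            ≤ c₀ * ‖(d : V)‖ ^ 2 := by
          have s1 : Tl (x₀ + e u + w + d) + Tl (x₀ + e u + w - d) - 2 * Tl (x₀ + e u + w)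
              = ∑ i, ε i * (φ i (x₀ + e u + w + d) + φ i (x₀ + e u + w - d)
                - 2 * φ i (x₀ + e u + w)) := by
            simp only [hTl, mul_sub, mul_add, Finset.sum_sub_distrib, Finset.sum_add_distrib,
              Finset.mul_sum]
            have : ∀ i, ε i * (2 * φ i (x₀ + e u + w)) = 2 * (ε i * φ i (x₀ + e u + w)) := by
              intro i; ring
            simp only [this]
            ring
          rw [s1]
          calc ∑ i, ε i * (φ i (x₀ + e u + w + d) + φ i (x₀ + e u + w - d)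
                - 2 * φ i (x₀ + e u + w))
              ≤ ∑ i, (c₀ / (S + 1)) * (M i * ‖(d : V)‖ ^ 2) := by
                refine Finset.sum_le_sum fun i _ => ?_
                have a1 := hM i _ _ hQ1 hQ2
                have a2 := (hε i).1
                have a3 := (hε i).2
                have a4 : 0 ≤ M i * ‖(d : V)‖ ^ 2 := mul_nonneg (hM0 i) (by positivity)
                exact (mul_le_mul_of_nonneg_left a1 a2).trans
                  (mul_le_mul_of_nonneg_right a3 a4)
            _ = (c₀ / (S + 1)) * S * ‖(d : V)‖ ^ 2 := by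
                rw [← Finset.mul_sum, ← Finset.sum_mul]
                ring
            _ ≤ c₀ * ‖(d : V)‖ ^ 2 := by
                have : (c₀ / (S + 1)) * S ≤ c₀ := by
                  rw [div_mul_eq_mul_div, div_le_iff₀ (by linarith)]
                  nlinarith
                exact mul_le_mul_of_nonneg_right this (by positivity)
        linarith
    have hgood : Good A j K := good_of_fibers K hKc hfib j hj1 (by omega)
    have hC := goodC_of_good (A := A) ψ K hKc j hj1 hgood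
    have heq : subl C T' F Tl ∩ coneOver Q = coneOver ((fun x => ψ (1, x)) '' K) := by
      ext x
      constructor
      · rintro ⟨hx, t, ht, y, ⟨q, hq, rfl⟩, rfl⟩
        refine ⟨t, ht, ψ (1, q), ⟨q, ⟨hq, ?_⟩, rfl⟩, rfl⟩
        have hqC := (hBN q hq).2
        rcases hx with hx | hx
        · exfalso
          apply hqC.2
          have := hT'con _ hx t⁻¹ (inv_pos.mpr ht)
          rwa [smul_smul, inv_mul_cancel₀ ht.ne', one_smul] at this
        · have := hx.2
          simp only at this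
          rw [hFcon _ hqC.1 t ht, hTlcon _ hqC.1 t ht] at this
          exact this
      · rintro ⟨t, ht, y, ⟨q, hq, rfl⟩, rfl⟩
        have hqC := (hBN q hq.1).2
        refine ⟨Or.inr ⟨hCcon _ hqC.1 t ht, ?_⟩, t, ht, _, ⟨q, hq.1, rfl⟩, rfl⟩
        simp only
        rw [hFcon _ hqC.1 t ht, hTlcon _ hqC.1 t ht]
        exact hq.2
    rw [heq]
    exact hC

end Pool.Agent.MP_8db1a4_gt
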