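import Pool.Agent.MP_8db1a4_gt.MorseDefs
import Pool.Agent.MP_8db1a4_gt.Fibers
import Pool.Agent.MP_8db1a4_gt.GoodC

set_option autoImplicit false

/-! [K-M2] type II boxes are good. Uses `good_of_full_fibers` (K-T2) and `goodC_of_good` (K-T3). -/

namespace Pool.Agent.MP_8db1a4_gt

open Set

/-- The linear chart attached to a type II point. -/
theorem typeII_chart {V : Type*} [NormedAddCommGroup V] [NormedSpace ℝ V] [FiniteDimensional ℝ V]
    (x₀ ν : V) (U : Submodule ℝ V) (hx₀ : x₀ ≠ 0) (hν : ν ∉ (ℝ ∙ x₀) ⊔ U)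
    (hd : Disjoint (ℝ ∙ x₀) U) (hc : IsCompl ((ℝ ∙ x₀) ⊔ U) (ℝ ∙ ν)) :
    ∃ (m : ℕ) (L : (Fin m → ℝ) →L[ℝ] V) (ψ : (ℝ × ((Fin m → ℝ) × ℝ)) ≃L[ℝ] V),
      (∀ a, L a ∈ U) ∧ ∀ t a s, ψ (t, (a, s)) = t • x₀ + L a + s • ν := by
  classical
  let b := Module.finBasis ℝ U
  let m := Module.finrank ℝ U
  let e : (Fin m → ℝ) ≃ₗ[ℝ] U := b.equivFun.symm
  let L₀ : (Fin m → ℝ) →ₗ[ℝ] V := U.subtype ∘ₗ e.toLinearMap
  have hL₀ : ∀ a, L₀ a ∈ U := fun a => (e a).2
  let f : (ℝ × ((Fin m → ℝ) × ℝ)) →ₗ[ℝ] V :=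
    (LinearMap.toSpanSingleton ℝ V x₀).coprod (L₀.coprod (LinearMap.toSpanSingleton ℝ V ν))
  have hf : ∀ t a s, f (t, (a, s)) = t • x₀ + L₀ a + s • ν := by
    intro t a s
    simp [f, add_assoc]
  have hinj : Function.Injective f := by
    rw [← LinearMap.ker_eq_bot, LinearMap.ker_eq_bot']
    rintro ⟨t, a, s⟩ h
    rw [hf] at h
    have hν0 : ν ≠ 0 := by
      rintro rfl
      exact hν (Submodule.zero_mem _)
    have h1 : s • ν ∈ (ℝ ∙ x₀) ⊔ U := by
      have : s • ν = -(t • x₀ + L₀ a) := by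
        rw [eq_neg_iff_add_eq_zero, add_comm]; exact h
      rw [this]
      refine Submodule.neg_mem _ (Submodule.add_mem _ ?_ ?_)
      · exact Submodule.mem_sup_left (Submodule.smul_mem _ _ (Submodule.mem_span_singleton_self _))
      · exact Submodule.mem_sup_right (hL₀ a)
    have h2 : s • ν = 0 := by
      have := hc.disjoint
      rw [Submodule.disjoint_def] at this
      exact this _ h1 (Submodule.smul_mem _ _ (Submodule.mem_span_singleton_self _))
    have hs : s = 0 := by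
      rcases smul_eq_zero.1 h2 with h | h
      · exact h
      · exact absurd h hν0
    rw [h2, add_zero] at h
    have h3 : t • x₀ = 0 := by
      rw [Submodule.disjoint_def] at hd
      refine hd _ (Submodule.smul_mem _ _ (Submodule.mem_span_singleton_self _)) ?_
      have : t • x₀ = -(L₀ a) := by
        rw [eq_neg_iff_add_eq_zero]; exact h
      rw [this]
      exact Submodule.neg_mem _ (hL₀ a)
    have ht : t = 0 := by
      rcases smul_eq_zero.1 h3 with h | h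
      · exact h
      · exact absurd h hx₀
    rw [h3, zero_add] at h
    have ha : a = 0 := by
      have h4 : e a = 0 := by
        apply Subtype.ext
        exact h
      exact (LinearEquiv.map_eq_zero_iff e).1 h4
    subst hs ht ha
    rfl
  have hsurj : Function.Surjective f := by
    intro x
    have hx : x ∈ ((ℝ ∙ x₀) ⊔ U) ⊔ (ℝ ∙ ν) := by
      rw [hc.sup_eq_top]; trivial
    obtain ⟨y, hy, z, hz, rfl⟩ := Submodule.mem_sup.1 hx
    obtain ⟨p, hp, u, hu, rfl⟩ := Submodule.mem_sup.1 hy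
    obtain ⟨t, rfl⟩ := Submodule.mem_span_singleton.1 hp
    obtain ⟨s, rfl⟩ := Submodule.mem_span_singleton.1 hz
    refine ⟨(t, (e.symm ⟨u, hu⟩, s)), ?_⟩
    rw [hf]
    simp [L₀]
  let ψ₀ := LinearEquiv.ofBijective f ⟨hinj, hsurj⟩
  refine ⟨m, LinearMap.toContinuousLinearMap L₀, ψ₀.toContinuousLinearEquiv, ?_, ?_⟩
  · intro a
    exact hL₀ a
  · intro t a s
    exact hf t a s

theorem goodBox_of_typeII {V : Type*} [NormedAddCommGroup V] [NormedSpace ℝ V]
    [FiniteDimensional ℝ V] {A : Type*} [AddCommGroup A]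
    (C T' : Set V) (hCo : IsOpen C) (hCc : Convex ℝ C) (hCcon : Conic C)
    (h0 : (0 : V) ∉ C) (hT' : T' ⊆ C) (hT'c : IsOpen (C \ T')) (hT'con : Conic T')
    (F : V → ℝ) (hF : ContinuousOn F (C \ T')) (hFcon : ∀ x ∈ C, ∀ t : ℝ, 0 < t → F (t • x) = F x)
    (k : ℕ) (hk : 2 ≤ k) (x₀ : V) (hx₀ : x₀ ∈ T') (h : TypeII C T' F x₀) :
    GoodBox A C T' F k x₀ := by
  classical
  obtain ⟨U, ν, hν, hd, hc, r, hr, κ, hκ, hC1, hint, hmono⟩ := h
  have hx₀0 : x₀ ≠ 0 := by
    rintro rfl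
    exact h0 (hT' hx₀)
  obtain ⟨m, L, ψ, hLU, hψ⟩ := typeII_chart x₀ ν U hx₀0 hν hd hc
  intro N hN hNcon hxN hNC
  -- sizes
  obtain ⟨η, hη, hηN⟩ := Metric.isOpen_iff.1 hN x₀ hxN
  obtain ⟨r₂, hr₂, hr₂r, hr₂η⟩ : ∃ r₂ : ℝ, 0 < r₂ ∧ r₂ ≤ r ∧ r₂ * ‖ν‖ < η / 2 := by
    refine ⟨min r (η / 2 / (‖ν‖ + 1)), by positivity, min_le_left _ _, ?_⟩
    calc min r (η / 2 / (‖ν‖ + 1)) * ‖ν‖ ≤ (η / 2 / (‖ν‖ + 1)) * ‖ν‖ := by
          gcongr
          exact min_le_right _ _
      _ < (η / 2 / (‖ν‖ + 1)) * (‖ν‖ + 1) := by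
          gcongr
          linarith
      _ = η / 2 := by
          field_simp
  obtain ⟨η', hη', hη'T⟩ := Metric.isOpen_iff.1 isOpen_interior (x₀ + r₂ • ν) (hint r₂ hr₂ hr₂r)
  obtain ⟨δ, hδ, hδr, hδη, hδη'⟩ : ∃ δ : ℝ, 0 < δ ∧ ‖L‖ * δ < r ∧ ‖L‖ * δ < η / 2 ∧ ‖L‖ * δ < η' := by
    refine ⟨min r (min (η / 2) η') / (‖L‖ + 1), by positivity, ?_, ?_, ?_⟩
    all_goals
      have h1 : ‖L‖ * (min r (min (η / 2) η') / (‖L‖ + 1)) < min r (min (η / 2) η') := by
        have h2 : 0 < min r (min (η / 2) η') := by positivity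
        have h3 : 0 ≤ ‖L‖ := norm_nonneg _
        rw [mul_div_assoc', div_lt_iff₀ (by positivity)]
        nlinarith
    · exact h1.trans_le (min_le_left _ _)
    · exact h1.trans_le ((min_le_right _ _).trans (min_le_left _ _))
    · exact h1.trans_le ((min_le_right _ _).trans (min_le_right _ _))
  set lo : Fin m → ℝ := fun _ => -δ with hlo
  set hi : Fin m → ℝ := fun _ => δ with hhi
  have hLle : ∀ a ∈ Icc lo hi, ‖L a‖ ≤ ‖L‖ * δ := by
    intro a ha
    have h1 : ‖a‖ ≤ δ := by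
      rw [pi_norm_le_iff_of_nonneg hδ.le]
      intro i
      rw [Real.norm_eq_abs, abs_le]
      exact ⟨ha.1 i, ha.2 i⟩
    exact (L.le_opNorm a).trans (by gcongr)
  set P : (Fin m → ℝ) × ℝ → V := fun p => ψ (1, p) with hP
  have hPv : ∀ a s, P (a, s) = x₀ + L a + s • ν := by
    intro a s
    simp only [hP]
    rw [hψ, one_smul]
  have hPcont : Continuous P := by
    simp only [hP]
    exact ψ.continuous.comp (by fun_prop)
  set B : Set ((Fin m → ℝ) × ℝ) := Icc lo hi ×ˢ Icc (-r₂) r₂ with hB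
  have hBc : IsCompact B := isCompact_Icc.prod isCompact_Icc
  set Q : Set V := P '' B with hQ
  have hQc : IsCompact Q := hBc.image hPcont
  have hQN : Q ⊆ N := by
    rintro _ ⟨⟨a, s⟩, ⟨ha, hs⟩, rfl⟩
    apply hηN
    rw [hPv, Metric.mem_ball, dist_eq_norm]
    have h1 : x₀ + L a + s • ν - x₀ = L a + s • ν := by abel
    rw [h1]
    have h2 : ‖s • ν‖ ≤ r₂ * ‖ν‖ := by
      rw [norm_smul]
      gcongr
      rw [Real.norm_eq_abs, abs_le]
      exact ⟨hs.1, hs.2⟩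
    calc ‖L a + s • ν‖ ≤ ‖L a‖ + ‖s • ν‖ := norm_add_le _ _
      _ < η := by
        have := hLle a ha
        linarith
  have hQC : Q ⊆ C := hQN.trans hNC
  have hlohi : lo ≤ hi := fun i => by simp only [hlo, hhi]; linarith
  -- interior
  have hxint : x₀ ∈ interior (coneOver Q) := by
    rw [mem_interior]
    refine ⟨ψ '' {q : ℝ × ((Fin m → ℝ) × ℝ) | 0 < q.1 ∧ ‖q.2.1‖ < δ * q.1 ∧ ‖q.2.2‖ < r₂ * q.1}, ?_, ?_, ?_⟩
    · rintro _ ⟨⟨t, a, s⟩, ⟨ht, ha, hs⟩, rfl⟩
      simp only at ht ha hs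
      refine ⟨t, ht, P (t⁻¹ • a, t⁻¹ • s), ⟨(t⁻¹ • a, t⁻¹ • s), ⟨?_, ?_⟩, rfl⟩, ?_⟩
      · have h1 : ‖t⁻¹ • a‖ ≤ δ := by
          rw [norm_smul, norm_inv, Real.norm_eq_abs, abs_of_pos ht, inv_mul_le_iff₀ ht]
          linarith
        rw [pi_norm_le_iff_of_nonneg hδ.le] at h1
        constructor
        · intro i
          have := h1 i
          rw [Real.norm_eq_abs, abs_le] at this
          exact this.1
        · intro i
          have := h1 i
          rw [Real.norm_eq_abs, abs_le] at this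
          exact this.2
      · have h1 : ‖t⁻¹ • s‖ ≤ r₂ := by
          rw [norm_smul, norm_inv, Real.norm_eq_abs t, abs_of_pos ht, inv_mul_le_iff₀ ht]
          linarith
        rw [Real.norm_eq_abs, abs_le] at h1
        exact h1
      · simp only [hP]
        rw [← map_smul]
        congr 1
        simp [Prod.smul_mk, smul_smul, mul_inv_cancel₀ ht.ne', ht.ne']
    · apply ψ.toHomeomorph.isOpenMap
      have c1 : Continuous fun q : ℝ × ((Fin m → ℝ) × ℝ) => ‖q.2.1‖ := by fun_prop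
      have c2 : Continuous fun q : ℝ × ((Fin m → ℝ) × ℝ) => ‖q.2.2‖ := by fun_prop
      exact (isOpen_lt continuous_const continuous_fst).inter
        ((isOpen_lt c1 (continuous_const.mul continuous_fst)).inter
          (isOpen_lt c2 (continuous_const.mul continuous_fst)))
    · refine ⟨(1, (0, 0)), ⟨one_pos, ?_, ?_⟩, ?_⟩
      · simpa using hδ
      · simpa using hr₂
      · rw [hψ]; simp
  refine ⟨Q, hQc, hQN, hxint, ?_⟩
  intro n φ hφ hφcon
  -- Lipschitz bounds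
  have hQconv : Convex ℝ Q := by
    rintro _ ⟨p, hp, rfl⟩ _ ⟨q, hq, rfl⟩ α β hα hβ hαβ
    have hBconv : Convex ℝ B := (convex_Icc lo hi).prod (convex_Icc _ _)
    refine ⟨α • p + β • q, hBconv hp hq hα hβ hαβ, ?_⟩
    simp only [hP]
    rw [← map_smul, ← map_smul, ← map_add]
    congr 1
    simp [hαβ]
  have hLip : ∀ i, ∃ Λ : ℝ, 0 ≤ Λ ∧ ∀ x ∈ Q, ∀ y ∈ Q, |φ i y - φ i x| ≤ Λ * ‖y - x‖ := by
    intro i
    have h1 : ContinuousOn (fderiv ℝ (φ i)) C :=
      (hφ i).continuousOn_fderiv_of_isOpen hCo (by norm_num)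
    obtain ⟨Λ, hΛ⟩ := hQc.exists_bound_of_continuousOn (h1.mono hQC)
    refine ⟨max Λ 0, le_max_right _ _, ?_⟩
    intro x hx y hy
    have h2 : ∀ x ∈ Q, DifferentiableAt ℝ (φ i) x := fun x hx =>
      ((hφ i).differentiableOn (by norm_num)).differentiableAt (hCo.mem_nhds (hQC hx))
    have h3 := Convex.norm_image_sub_le_of_norm_fderiv_le (𝕜 := ℝ) (f := φ i) (C := max Λ 0) h2
      (fun x hx => (hΛ x hx).trans (le_max_left _ _)) hQconv hx hy
    exact h3
  choose Λ hΛ0 hΛ using hLip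
  refine ⟨κ / ((∑ i, Λ i) * ‖ν‖ + 1), ?_, ?_⟩
  · have : 0 ≤ ∑ i, Λ i := Finset.sum_nonneg fun i _ => hΛ0 i
    positivity
  intro c ε hε j hj _
  set ε₀ := κ / ((∑ i, Λ i) * ‖ν‖ + 1) with hε₀
  have hΛs : 0 ≤ ∑ i, Λ i := Finset.sum_nonneg fun i _ => hΛ0 i
  have hε₀κ : ε₀ * ((∑ i, Λ i) * ‖ν‖) ≤ κ := by
    rw [hε₀, div_mul_eq_mul_div, div_le_iff₀ (by positivity)]
    nlinarith
  set T : V → ℝ := fun x => c + ∑ i, ε i * φ i x with hT
  have hTcont : ContinuousOn T C := by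
    refine continuousOn_const.add (continuousOn_finsetSum _ fun i _ => ?_)
    exact continuousOn_const.mul (hφ i).continuousOn
  have hTcon : ∀ x ∈ C, ∀ t : ℝ, 0 < t → T (t • x) = T x := by
    intro x hx t ht
    simp only [hT]
    congr 1
    refine Finset.sum_congr rfl fun i _ => ?_
    rw [hφcon i x hx t ht]
  have hTlip : ∀ a ∈ Icc lo hi, ∀ s s' : ℝ, -r₂ ≤ s → s ≤ s' → s' ≤ r₂ →
      T (P (a, s)) ≤ T (P (a, s')) + κ * (s' - s) := by
    intro a ha s s' hs hss hs'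
    have hq : P (a, s) ∈ Q := ⟨(a, s), ⟨ha, ⟨hs, hss.trans hs'⟩⟩, rfl⟩
    have hq' : P (a, s') ∈ Q := ⟨(a, s'), ⟨ha, ⟨hs.trans hss, hs'⟩⟩, rfl⟩
    have hdist : ‖P (a, s) - P (a, s')‖ = (s' - s) * ‖ν‖ := by
      rw [hPv, hPv]
      have : x₀ + L a + s • ν - (x₀ + L a + s' • ν) = (s - s') • ν := by
        rw [sub_smul]; abel
      rw [this, norm_smul, Real.norm_eq_abs, abs_sub_comm, abs_of_nonneg (by linarith)]
    have h1 : ∀ i, ε i * φ i (P (a, s)) ≤ ε i * φ i (P (a, s')) + ε₀ * (Λ i * ((s' - s) * ‖ν‖)) := by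
      intro i
      have h2 := hΛ i _ hq' _ hq
      rw [hdist] at h2
      have h3 := (le_abs_self _).trans h2
      have h4 : 0 ≤ Λ i * ((s' - s) * ‖ν‖) := by
        have := hΛ0 i
        have h5 : 0 ≤ s' - s := by linarith
        positivity
      have h6 := (hε i).1
      have h7 := (hε i).2
      nlinarith
    have h2 : ∑ i, ε i * φ i (P (a, s)) ≤
        ∑ i, ε i * φ i (P (a, s')) + ε₀ * ((∑ i, Λ i) * ‖ν‖) * (s' - s) := by
      calc ∑ i, ε i * φ i (P (a, s)) ≤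
          ∑ i, (ε i * φ i (P (a, s')) + ε₀ * (Λ i * ((s' - s) * ‖ν‖))) :=
            Finset.sum_le_sum fun i _ => h1 i
        _ = _ := by
            rw [Finset.sum_add_distrib, ← Finset.mul_sum, ← Finset.sum_mul]
            ring
    have h3 : ε₀ * ((∑ i, Λ i) * ‖ν‖) * (s' - s) ≤ κ * (s' - s) :=
      mul_le_mul_of_nonneg_right hε₀κ (by linarith)
    simp only [hT]
    linarith
  -- the compact set
  set K : Set ((Fin m → ℝ) × ℝ) := {p ∈ B | P p ∈ T' ∨ F (P p) ≤ T (P p)} with hK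
  have hKB : K ⊆ B := fun p hp => hp.1
  have hKc : IsCompact K := by
    refine hBc.of_isClosed_subset ?_ hKB
    have hO : IsOpen {p : (Fin m → ℝ) × ℝ | P p ∈ C \ T'} := hT'c.preimage hPcont
    have hG : ContinuousOn (fun p => F (P p) - T (P p)) {p | P p ∈ C \ T'} := by
      refine ContinuousOn.sub ?_ ?_
      · exact hF.comp hPcont.continuousOn fun p hp => hp
      · exact (hTcont.mono sdiff_subset).comp hPcont.continuousOn fun p hp => hp
    have hO2 : IsOpen ({p | P p ∈ C \ T'} ∩ (fun p => F (P p) - T (P p)) ⁻¹' Ioi 0) :=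
      hG.isOpen_inter_preimage hO isOpen_Ioi
    have hKeq : K = B ∩ ({p | P p ∈ C \ T'} ∩ (fun p => F (P p) - T (P p)) ⁻¹' Ioi 0)ᶜ := by
      ext p
      constructor
      · rintro ⟨hp, h | h⟩
        · exact ⟨hp, fun h' => h'.1.2 h⟩
        · refine ⟨hp, fun h' => ?_⟩
          have := h'.2
          simp only [mem_preimage, mem_Ioi] at this
          linarith
      · rintro ⟨hp, h⟩
        refine ⟨hp, ?_⟩
        by_contra hcon
        push Not at hcon
        apply h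
        refine ⟨⟨hQC ⟨p, hp, rfl⟩, hcon.1⟩, ?_⟩
        simp only [mem_preimage, mem_Ioi]
        linarith [hcon.2]
    rw [hKeq]
    exact hBc.isClosed.inter hO2.isClosed_compl
  have hup : ∀ a ∈ Icc lo hi, ∀ s s' : ℝ, -r₂ ≤ s → s ≤ s' → s' ≤ r₂ →
      (a, s) ∈ K → (a, s') ∈ K := by
    intro a ha s s' hs hss hs' hk
    refine ⟨⟨ha, ⟨hs.trans hss, hs'⟩⟩, ?_⟩
    have hm := hmono (L a) (hLU a) ((hLle a ha).trans hδr.le) s s' (by linarith) hss (by linarith)
    rw [← hPv, ← hPv] at hm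
    by_cases h1 : P (a, s) ∈ T'
    · exact Or.inl (hm.1 h1)
    · by_cases h2 : P (a, s') ∈ T'
      · exact Or.inl h2
      · right
        have h3 := hm.2 h1 h2
        have h4 : F (P (a, s)) ≤ T (P (a, s)) := by
          rcases hk.2 with h | h
          · exact absurd h h1
          · exact h
        have h5 := hTlip a ha s s' hs hss hs'
        linarith
  have htop : ∀ a ∈ Icc lo hi, (a, r₂) ∈ K := by
    intro a ha
    refine ⟨⟨ha, ⟨by linarith, le_refl _⟩⟩, Or.inl ?_⟩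
    apply interior_subset
    apply hη'T
    rw [Metric.mem_ball, hPv, dist_eq_norm]
    have : x₀ + L a + r₂ • ν - (x₀ + r₂ • ν) = L a := by abel
    rw [this]
    exact (hLle a ha).trans_lt hδη'
  have hgood : Good A j K := by
    refine (good_of_full_fibers (A := A) lo hi hlohi K hKc (fun x hx => (hKB hx).1) ?_ ?_).1 j hj
    · intro u
      apply Set.OrdConnected.convex
      refine ⟨?_⟩
      intro s hs s' hs' w hw
      exact hup u (hKB hs).1 s w (hKB hs).2.1 hw.1 (hw.2.trans (hKB hs').2.2) hs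
    · intro u hu
      exact ⟨r₂, htop u hu⟩
  have hfin := goodC_of_good ψ K hKc j hj hgood
  have heq : subl C T' F T ∩ coneOver Q = coneOver ((fun x : (Fin m → ℝ) × ℝ => ψ (1, x)) '' K) := by
    ext x
    constructor
    · rintro ⟨hx, t, ht, _, ⟨p, hp, rfl⟩, rfl⟩
      refine ⟨t, ht, P p, ⟨p, ⟨hp, ?_⟩, rfl⟩, rfl⟩
      have hpC : P p ∈ C := hQC ⟨p, hp, rfl⟩
      rcases hx with hx | hx
      · left
        have := hT'con _ hx t⁻¹ (inv_pos.2 ht)
        rwa [smul_smul, inv_mul_cancel₀ ht.ne', one_smul] at this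
      · right
        have := hx.2
        rwa [hFcon _ hpC t ht, hTcon _ hpC t ht] at this
    · rintro ⟨t, ht, _, ⟨p, hp, rfl⟩, rfl⟩
      have hpC : P p ∈ C := hQC ⟨p, hp.1, rfl⟩
      refine ⟨?_, t, ht, P p, ⟨p, hp.1, rfl⟩, rfl⟩
      rcases hp.2 with h | h
      · left
        exact hT'con _ h t ht
      · right
        refine ⟨hCcon _ hpC t ht, ?_⟩
        have h' : F (t • P p) ≤ T (t • P p) := by
          rw [hFcon _ hpC t ht, hTcon _ hpC t ht]
          exact h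
        exact h'
  rw [heq]
  exact hfin

end Pool.Agent.MP_8db1a4_gt
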