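import Pool.Agent.MP_8db1a4_gt.Cochain

set_option autoImplicit false

/-! Definitions for the Morse theorem (MP_8db1a4_gt). -/

namespace Pool.Agent.MP_8db1a4_gt

open Set

variable {V : Type*} [NormedAddCommGroup V] [NormedSpace ℝ V]

/-- Near `x₀ ∉ T'`, in the affine chart `x₀ + U + W`, the function `F` is strongly midpoint convex along
`W`, and `dim U ≤ k-1`. -/
def TypeI (C T' : Set V) (F : V → ℝ) (k : ℕ) (x₀ : V) : Prop :=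
  ∃ U W : Submodule ℝ V, Module.finrank ℝ U + 1 ≤ k ∧ Disjoint (ℝ ∙ x₀) U ∧
    IsCompl ((ℝ ∙ x₀) ⊔ U) W ∧
    ∃ r > (0 : ℝ), ∃ c > (0 : ℝ), Metric.closedBall x₀ (3 * r) ⊆ C \ T' ∧
      ∀ u ∈ U, ∀ w ∈ W, ∀ h ∈ W, ‖u‖ ≤ r → ‖w‖ ≤ r → ‖h‖ ≤ r →
        c * ‖h‖ ^ 2 ≤ F (x₀ + u + w + h) + F (x₀ + u + w - h) - 2 * F (x₀ + u + w)

/-- Near `x₀ ∈ T'`, in the affine chart `x₀ + U + ℝ ν`, the set `T'` and the function `F` outside `T'` are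
monotone in the direction `ν`. -/
def TypeII (C T' : Set V) (F : V → ℝ) (x₀ : V) : Prop :=
  ∃ (U : Submodule ℝ V) (ν : V), ν ∉ (ℝ ∙ x₀) ⊔ U ∧ Disjoint (ℝ ∙ x₀) U ∧
    IsCompl ((ℝ ∙ x₀) ⊔ U) (ℝ ∙ ν) ∧
    ∃ r > (0 : ℝ), ∃ c > (0 : ℝ), (∀ u ∈ U, ‖u‖ ≤ r → ∀ t : ℝ, |t| ≤ r → x₀ + u + t • ν ∈ C) ∧
      (∀ s : ℝ, 0 < s → s ≤ r → x₀ + s • ν ∈ interior T') ∧
      ∀ u ∈ U, ‖u‖ ≤ r → ∀ t t' : ℝ, -r ≤ t → t ≤ t' → t' ≤ r →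
        (x₀ + u + t • ν ∈ T' → x₀ + u + t' • ν ∈ T') ∧
        (x₀ + u + t • ν ∉ T' → x₀ + u + t' • ν ∉ T' →
          F (x₀ + u + t' • ν) ≤ F (x₀ + u + t • ν) - c * (t' - t))

/-- The closed sublevel set of `F` at (variable) level `T`, together with `T'`. -/
def subl (C T' : Set V) (F T : V → ℝ) : Set V := T' ∪ {x ∈ C | F x ≤ T x}

/-- A box around `x₀` on which all sublevel sets `F ≤ c + ∑ ε_i φ_i` (`ε_i` small) are good. -/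
def GoodBox (A : Type*) [AddCommGroup A] (C T' : Set V) (F : V → ℝ) (k : ℕ) (x₀ : V) : Prop :=
  ∀ N : Set V, IsOpen N → Conic N → x₀ ∈ N → N ⊆ C →
    ∃ Q : Set V, IsCompact Q ∧ Q ⊆ N ∧ x₀ ∈ interior (coneOver Q) ∧
      ∀ (m : ℕ) (φ : Fin m → V → ℝ), (∀ i, ContDiffOn ℝ 2 (φ i) C) →
        (∀ i, ∀ x ∈ C, ∀ t : ℝ, 0 < t → φ i (t • x) = φ i x) →
        ∃ ε₀ > (0 : ℝ), ∀ (c : ℝ) (ε : Fin m → ℝ), (∀ i, 0 ≤ ε i ∧ ε i ≤ ε₀) →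
          ∀ j : ℕ, 1 ≤ j → k ≤ j + 1 →
            GoodC A j (subl C T' F (fun x => c + ∑ i, ε i * φ i x) ∩ coneOver Q)

end Pool.Agent.MP_8db1a4_gt
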