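import Pool.Agent.MP_8db1a4_gt.TopDefs
import Pool.Agent.MP_8db1a4_gt.MorseDefs

set_option autoImplicit false

/-! Invariant conic bump functions (KAP-M3). -/

namespace Pool.Agent.MP_8db1a4_gt

open Set

variable {V : Type*} [NormedAddCommGroup V] [NormedSpace ℝ V] [FiniteDimensional ℝ V]
  {A : Type*} [AddCommGroup A] {G : Type*} [Group G]

/-- A conic bump function near the ray of `x₀`. -/
theorem exists_conic_bump (x₀ : V) (hx₀ : x₀ ≠ 0) (N : Set V) (hN : IsOpen N) (hx₀N : x₀ ∈ N) :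
    ∃ (Z : Set V) (η : V → ℝ), IsCompact Z ∧ Z ⊆ N ∧ (∀ x, 0 ≤ η x) ∧ 0 < η x₀ ∧
      (∀ x, x ≠ 0 → ContDiffAt ℝ 2 η x) ∧ (∀ x, ∀ t : ℝ, 0 < t → η (t • x) = η x) ∧
      (∀ x, η x ≠ 0 → x ∈ coneOver Z) := by
  classical
  obtain ⟨l, hl⟩ := SeparatingDual.exists_eq_one (R := ℝ) hx₀
  obtain ⟨r, hr, hrN⟩ := Metric.nhds_basis_closedBall.mem_iff.1 (hN.mem_nhds hx₀N)
  let f : ContDiffBump x₀ := ⟨r / 2, r, by positivity, by linarith⟩
  have hsupp : Function.support f = Metric.ball x₀ r := f.support_eq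
  have hbd : ∀ y, f y ≠ 0 → ‖y‖ < ‖x₀‖ + r := by
    intro y hy
    have h1 : y ∈ Metric.ball x₀ r := by rw [← hsupp]; exact hy
    rw [mem_ball_iff_norm] at h1
    calc ‖y‖ = ‖x₀ + (y - x₀)‖ := by congr 1; abel
      _ ≤ ‖x₀‖ + ‖y - x₀‖ := norm_add_le _ _
      _ < ‖x₀‖ + r := by linarith
  let η : V → ℝ := fun y => if 0 < l y then f ((l y)⁻¹ • y) else 0
  have hηpos : ∀ y, 0 < l y → η y = f ((l y)⁻¹ • y) := fun y hy => if_pos hy
  have hηneg : ∀ y, ¬ 0 < l y → η y = 0 := fun y hy => if_neg hy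
  refine ⟨Metric.closedBall x₀ r, η, isCompact_closedBall _ _, hrN, ?_, ?_, ?_, ?_, ?_⟩
  · intro x
    by_cases h : 0 < l x
    · rw [hηpos x h]; exact f.nonneg
    · rw [hηneg x h]
  · rw [hηpos x₀ (by rw [hl]; norm_num), hl, inv_one, one_smul]
    exact f.pos_of_mem_ball (Metric.mem_ball_self hr)
  · intro x hx
    by_cases h : 0 < l x
    · have h1 : η =ᶠ[nhds x] fun y => f ((l y)⁻¹ • y) := by
        have : ∀ᶠ y in nhds x, 0 < l y := l.continuous.continuousAt.eventually (lt_mem_nhds h)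
        filter_upwards [this] with y hy using hηpos y hy
      refine ContDiffAt.congr_of_eventuallyEq ?_ h1
      refine ContDiffAt.comp (g := f) x f.contDiff.contDiffAt ?_
      refine ContDiffAt.smul ?_ contDiffAt_id
      exact (l.contDiff.contDiffAt).inv h.ne'
    · have h1 : η =ᶠ[nhds x] fun _ => 0 := by
        have hx' : 0 < ‖x‖ := norm_pos_iff.2 hx
        have h2 : 0 < ‖x‖ - (‖x₀‖ + r) * l x := by
          have : (‖x₀‖ + r) * l x ≤ 0 := mul_nonpos_of_nonneg_of_nonpos (by positivity) (not_lt.1 h)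
          linarith
        have h3 : ∀ᶠ y in nhds x, 0 < ‖y‖ - (‖x₀‖ + r) * l y := by
          have hc : Continuous fun y : V => ‖y‖ - (‖x₀‖ + r) * l y := by fun_prop
          exact hc.continuousAt.eventually (lt_mem_nhds h2)
        filter_upwards [h3] with y hy
        by_cases h4 : 0 < l y
        · rw [hηpos y h4]
          by_contra h5
          have h6 := hbd _ h5
          rw [norm_smul, Real.norm_eq_abs, abs_of_pos (inv_pos.2 h4), inv_mul_lt_iff₀ h4] at h6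
          linarith
        · exact hηneg y h4
      exact ContDiffAt.congr_of_eventuallyEq contDiffAt_const h1
  · intro x t ht
    have h1 : l (t • x) = t * l x := by simp
    by_cases h : 0 < l x
    · have h2 : 0 < l (t • x) := by rw [h1]; positivity
      rw [hηpos x h, hηpos _ h2, h1, smul_smul]
      congr 2
      field_simp
    · have h2 : ¬ 0 < l (t • x) := by
        rw [h1]; intro h3; exact h ((mul_pos_iff_of_pos_left ht).1 h3)
      rw [hηneg x h, hηneg _ h2]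
  · intro x hx
    by_cases h : 0 < l x
    · rw [hηpos x h] at hx
      refine ⟨l x, h, (l x)⁻¹ • x, ?_, ?_⟩
      · have : (l x)⁻¹ • x ∈ Metric.ball x₀ r := by rw [← hsupp]; exact hx
        exact Metric.ball_subset_closedBall this
      · rw [smul_smul, mul_inv_cancel₀ h.ne', one_smul]
    · exact absurd (hηneg x h) hx

theorem exists_bump (ρ : G →* (V →L[ℝ] V)) (C : Set V) (hC : ConeAction ρ C)
    (x₀ : V) (hx₀ : x₀ ∈ C) (N : Set V) (hN : IsOpen N) (hNcon : Conic N) (hx₀N : x₀ ∈ N)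
    (hNC : N ⊆ C) :
    ∃ φ : V → ℝ, (∀ x, 0 ≤ φ x) ∧ ContDiffOn ℝ 2 φ C ∧ (∀ g : G, ∀ x, φ (ρ g x) = φ x) ∧
      (∀ x ∈ C, ∀ t : ℝ, 0 < t → φ (t • x) = φ x) ∧ 0 < φ x₀ ∧
      (∀ x ∈ C, φ x ≠ 0 → ∃ g : G, ρ g x ∈ N) := by
  classical
  have hne : ∀ x ∈ C, x ≠ 0 := fun x hx h => hC.zero_notMem (h ▸ hx)
  obtain ⟨Z, η, hZ, hZN, hη0, hηx, hηd, hηh, hηs⟩ := exists_conic_bump x₀ (hne x₀ hx₀) N hN hx₀N
  have hZC : Z ⊆ C := hZN.trans hNC
  -- local finiteness
  have hloc : ∀ x ∈ C, ∃ S : Finset G, ∀ᶠ y in nhds x, ∀ g, η (ρ g y) ≠ 0 → g ∈ S := by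
    intro x hx
    obtain ⟨r, hr, hrC⟩ := Metric.nhds_basis_closedBall.mem_iff.1 (hC.isOpen.mem_nhds hx)
    have hfin := hC.proper Z (Metric.closedBall x r) hZ (isCompact_closedBall _ _) hZC hrC
    refine ⟨hfin.toFinset.image (fun g => g⁻¹), ?_⟩
    filter_upwards [Metric.closedBall_mem_nhds x hr] with y hy g hg
    rw [Finset.mem_image]
    refine ⟨g⁻¹, ?_, inv_inv g⟩
    rw [Set.Finite.mem_toFinset]
    refine ⟨y, ⟨ρ g y, hηs _ hg, ?_⟩, ⟨1, one_pos, y, hy, (one_smul _ _).symm⟩⟩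
    rw [← mul_apply_eq_comp, ← map_mul, inv_mul_cancel, map_one]
    rfl
  let φ : V → ℝ := fun x => ∑ᶠ g : G, η (ρ g x)
  refine ⟨φ, ?_, ?_, ?_, ?_, ?_, ?_⟩
  · intro x; exact finsum_nonneg fun g => hη0 _
  · intro x hx
    obtain ⟨S, hS⟩ := hloc x hx
    have h1 : φ =ᶠ[nhds x] fun y => ∑ g ∈ S, η (ρ g y) := by
      filter_upwards [hS] with y hy
      exact finsum_eq_sum_of_support_subset _ (fun g hg => Finset.mem_coe.2 (hy g hg))
    refine ContDiffAt.contDiffWithinAt (ContDiffAt.congr_of_eventuallyEq ?_ h1)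
    refine ContDiffAt.sum fun g _ => ?_
    exact ContDiffAt.comp (g := η) x (hηd _ (hne _ (hC.inv g x hx))) (ρ g).contDiff.contDiffAt
  · intro h x
    have := finsum_comp_equiv (f := fun g => η (ρ g x)) (Equiv.mulRight h)
    rw [show φ x = ∑ᶠ g : G, η (ρ g x) from rfl, ← this]
    refine finsum_congr fun g => ?_
    rw [Equiv.coe_mulRight, map_mul]
    rfl
  · intro x hx t ht
    refine finsum_congr fun g => ?_
    rw [map_smul, hηh _ t ht]
  · obtain ⟨S, hS⟩ := hloc x₀ hx₀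
    have hS' := hS.self_of_nhds
    have h1 : φ x₀ = ∑ g ∈ S, η (ρ g x₀) :=
      finsum_eq_sum_of_support_subset _ (fun g hg => Finset.mem_coe.2 (hS' g hg))
    rw [h1]
    have h2 : η (ρ 1 x₀) = η x₀ := by rw [map_one]; rfl
    refine Finset.sum_pos' (fun g _ => hη0 _) ⟨1, hS' 1 ?_, ?_⟩
    · rw [h2]; exact hηx.ne'
    · rw [h2]; exact hηx
  · intro x hx h
    by_contra h1
    push Not at h1
    apply h
    have h2 : ∀ g, η (ρ g x) = 0 := by
      intro g
      by_contra h3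
      obtain ⟨t, ht, y, hy, he⟩ := hηs _ h3
      exact h1 g (he ▸ hNcon y (hZN hy) t ht)
    change ∑ᶠ g : G, η (ρ g x) = 0
    simp [h2]

end Pool.Agent.MP_8db1a4_gt
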