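import Mathlib

set_option autoImplicit false

/-! Coarse geometry: definitions (MP_8db1a4_gt). -/

namespace Pool.Agent.MP_8db1a4_gt

open Set

/-- A geodesic, Gromov hyperbolic metric space (four point condition with constant `δ`). -/
structure HypGeo (X : Type*) [MetricSpace X] (δ : ℝ) : Prop where
  nonneg : 0 ≤ δ
  four : ∀ x y z w : X,
    dist x y + dist z w ≤ max (dist x z + dist y w) (dist x w + dist y z) + 2 * δ
  geod : ∀ x y : X, ∃ γ : ℝ → X, γ 0 = x ∧ γ (dist x y) = y ∧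
    ∀ s ∈ Icc 0 (dist x y), ∀ t ∈ Icc 0 (dist x y), dist (γ s) (γ t) = |s - t|

/-- Uniform packing bound for `1`-separated subsets of balls. -/
def Packing (X : Type*) [MetricSpace X] : Prop :=
  ∀ R : ℝ, ∃ N : ℕ, ∀ (x : X) (S : Finset X), (∀ y ∈ S, dist x y ≤ R) →
    (∀ y ∈ S, ∀ z ∈ S, y ≠ z → 1 ≤ dist y z) → S.card ≤ N

/-- The Gromov product. -/
noncomputable def gp {X : Type*} [MetricSpace X] (p x y : X) : ℝ :=
  (dist p x + dist p y - dist x y) / 2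

/-- Discreteness of an action: finitely many elements move `x` by at most `r`. -/
def ProperAct (G X : Type*) [Group G] [MetricSpace X] [MulAction G X] : Prop :=
  ∀ (x y : X) (r : ℝ), {g : G | dist x (g • y) ≤ r}.Finite

/-- The growth of the orbit of `o` is at most `exp (s r)`. -/
def GrowthLE (G : Type*) {X : Type*} [Group G] [MetricSpace X] [MulAction G X] (o : X) (s : ℝ) :
    Prop :=
  ∃ C : ℝ, 0 < C ∧ ∀ r : ℝ, 0 ≤ r → ({g : G | dist o (g • o) ≤ r}.ncard : ℝ) ≤ C * Real.exp (s * r)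

/-- A family of small elements `Bs y` at every point `y`, and the family `Cl` of maximal
elementary subgroups. -/
structure SmallSets {G X : Type*} [Group G] [MetricSpace X] [MulAction G X] (Bs : X → Set G)
    (Cl : Set (Subgroup G)) : Prop where
  finite : ∀ y, (Bs y).Finite
  one_mem : ∀ y, (1 : G) ∈ Bs y
  disp : ∀ y, ∀ g ∈ Bs y, dist y (g • y) ≤ 1 / 4
  conj : ∀ (h : G) (y : X) (g : G), g ∈ Bs y → h * g * h⁻¹ ∈ Bs (h • y)
  pigeon : ∀ c : ℝ, ∃ M : ℕ, 0 < M ∧ ∀ (y : X) (S : Finset G), (∀ g ∈ S, dist y (g • y) ≤ c) →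
    S.Nonempty → ∃ g₀ ∈ S, (S.card : ℝ) ≤ M * ({g ∈ (S : Set G) | g₀⁻¹ * g ∈ Bs y}.ncard : ℝ)
  comm : ∀ Γ ∈ Cl, ∀ g ∈ Γ, ∀ h ∈ Γ, g * h = h * g
  disj : ∀ Γ ∈ Cl, ∀ Γ' ∈ Cl, ∀ g : G, g ∈ Γ → g ∈ Γ' → g ≠ 1 → Γ = Γ'
  cover : ∀ y, (∃ g ∈ Bs y, g ≠ 1) → ∃ Γ ∈ Cl, Bs y ⊆ (Γ : Set G)
  conjCl : ∀ Γ ∈ Cl, ∀ h : G, Γ.map (MulAut.conj h).toMonoidHom ∈ Cl

/-- The region dominated by the elementary subgroup `Γ`. -/
def TSet {G X : Type*} [Group G] [MetricSpace X] (Bs : X → Set G) (s : ℝ)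
    (Γ : Subgroup G) (Λ : ℝ) : Set X :=
  {x | ∃ y, Bs y ⊆ (Γ : Set G) ∧ (∃ g ∈ Bs y, g ≠ 1) ∧
    Λ * Real.exp (2 * s * dist x y) ≤ ((Bs y).ncard : ℝ)}

end Pool.Agent.MP_8db1a4_gt
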