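import Mathlib

set_option autoImplicit false

/-!
# Cochains on straight simplices (MP_8db1a4_gt)

A straight `(j-1)`-simplex in a real vector space `V` is a tuple `σ : Fin j → V`; its support is the convex hull
of its vertices. Cochains are functions on tuples; equations between cochains are only required on simplices
contained in a given set `U`.
-/

namespace Pool.Agent.MP_8db1a4_gt

open Set

section Basic

variable {V : Type*} {A : Type*} [AddCommGroup A]

/-- Simplicial coboundary of a function `c` of `j` points, a function of `j+1` points. -/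
def dC {j : ℕ} (c : (Fin j → V) → A) (σ : Fin (j + 1) → V) : A :=
  ∑ i : Fin (j + 1), (-1 : ℤ) ^ (i : ℕ) • c (fun l => σ (i.succAbove l))

variable [AddCommGroup V] [Module ℝ V]

/-- The straight simplex with vertices `σ`. -/
def hull {j : ℕ} (σ : Fin j → V) : Set V := convexHull ℝ (range σ)

/-- Two cochains agree on all straight simplices contained in `U`. -/
def EqOnS {j : ℕ} (U : Set V) (c c' : (Fin j → V) → A) : Prop :=
  ∀ σ : Fin j → V, hull σ ⊆ U → c σ = c' σ

end Basic

section Group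

variable {V : Type*} [NormedAddCommGroup V] [NormedSpace ℝ V] {A : Type*} [AddCommGroup A]
  {G : Type*} [Group G] (ρ : G →* (V →L[ℝ] V)) (τ : G →* AddMonoid.End A)

/-- Equivariant cochains. -/
def Equivar {j : ℕ} (c : (Fin j → V) → A) : Prop :=
  ∀ (g : G) (σ : Fin j → V), c (fun i => ρ g (σ i)) = τ g (c σ)

/-- Invariant sets. -/
def InvSet (U : Set V) : Prop := ∀ (g : G), ∀ x ∈ U, ρ g x ∈ U

/-- Sets stable under multiplication by positive numbers. -/
def Conic (U : Set V) : Prop := ∀ x ∈ U, ∀ t : ℝ, 0 < t → t • x ∈ U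

end Group

/-- `Good A j K`: every cocycle of degree `j` defined near `K` is a coboundary near `K`. -/
def Good {V : Type*} [NormedAddCommGroup V] [NormedSpace ℝ V] (A : Type*) [AddCommGroup A]
    (j : ℕ) (K : Set V) : Prop :=
  ∀ U : Set V, IsOpen U → K ⊆ U → ∀ z : (Fin (j + 1) → V) → A, EqOnS U (dC z) 0 →
    ∃ U' : Set V, U' ⊆ U ∧ IsOpen U' ∧ K ⊆ U' ∧ ∃ b : (Fin j → V) → A, EqOnS U' (dC b) z

/-- Every `0`-cocycle defined near `K` is constant near `K`. -/
def ConstNear {V : Type*} [NormedAddCommGroup V] [NormedSpace ℝ V] (A : Type*) [AddCommGroup A]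
    (K : Set V) : Prop :=
  ∀ U : Set V, IsOpen U → K ⊆ U → ∀ z : (Fin 1 → V) → A, EqOnS U (dC z) 0 →
    ∃ U' : Set V, U' ⊆ U ∧ IsOpen U' ∧ K ⊆ U' ∧ ∃ a : A, EqOnS U' z (fun _ => a)

/-- Conic version of `Good`. -/
def GoodC {V : Type*} [NormedAddCommGroup V] [NormedSpace ℝ V] (A : Type*) [AddCommGroup A]
    (j : ℕ) (K : Set V) : Prop :=
  ∀ U : Set V, IsOpen U → Conic U → K ⊆ U → ∀ z : (Fin (j + 1) → V) → A, EqOnS U (dC z) 0 →
    ∃ U' : Set V, U' ⊆ U ∧ IsOpen U' ∧ Conic U' ∧ K ⊆ U' ∧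
      ∃ b : (Fin j → V) → A, EqOnS U' (dC b) z

/-- The cone over a set. -/
def coneOver {V : Type*} [NormedAddCommGroup V] [NormedSpace ℝ V] (K : Set V) : Set V :=
  {x | ∃ t : ℝ, 0 < t ∧ ∃ y ∈ K, x = t • y}

end Pool.Agent.MP_8db1a4_gt
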