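import Pool.Agent.MP_8db1a4_gt.SmallDefs

set_option autoImplicit false

/-! Support functions, collars and the potential (MP_8db1a4_gt). -/

namespace Pool.Agent.MP_8db1a4_gt

open Set

variable {n : ℕ}

/-- Unit normals of the half-spaces containing `𝒯`. -/
def Efun (𝒯 : Set (Hy n)) : Set (LV n) := {e | lor e e = 1 ∧ ∀ h ∈ 𝒯, lor h.val e ≤ 0}

/-- Support function (homogeneous of degree 1): on the hyperboloid it is `sinh` of the distance to the
convex hull of `𝒯`. -/
noncomputable def Lfun (𝒯 : Set (Hy n)) (X : LV n) : ℝ := sSup ((fun e => lor X e) '' Efun 𝒯)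

/-- Homogeneous of degree 0 version. -/
noncomputable def Sfun (𝒯 : Set (Hy n)) (X : LV n) : ℝ := Lfun 𝒯 X / rad X

/-- Hyperbolic convex hull. -/
def hullHy (𝒯 : Set (Hy n)) : Set (Hy n) :=
  {x | ∃ t : ℝ, 0 < t ∧ t • x.val ∈ convexHull ℝ (Hy.val '' 𝒯)}

/-- The collar profile. -/
noncomputable def colG (κ S : ℝ) : ℝ := (max (S ^ (-(1 / 4) : ℝ) - κ) 0) ^ 2

/-- The collar function of a family of sets: the profile of the (unique) set whose collar contains `X`. -/
noncomputable def colSum (κ : ℝ) {ι : Type*} (𝒯 : ι → Set (Hy n)) (X : LV n) : ℝ :=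
  ∑ᶠ i, if 0 < Sfun (𝒯 i) X then colG κ (Sfun (𝒯 i) X) else 0

/-- The Poincaré type sum. -/
noncomputable def Psum {G : Type*} [Group G] (ρ : G →* (LV n →L[ℝ] LV n)) (s : ℝ) (X : LV n) : ℝ :=
  ∑' g : G, (-lor X (ρ g (Ohy n).val)) ^ (-s)

/-- `-log` of the normalised Poincaré sum. -/
noncomputable def fpot {G : Type*} [Group G] (ρ : G →* (LV n →L[ℝ] LV n)) (s : ℝ) (X : LV n) : ℝ :=
  -(s * Real.log (rad X)) - Real.log (Psum ρ s X)

end Pool.Agent.MP_8db1a4_gt
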