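import Pool.Agent.MP_8db1a4_gt.Collar
import Pool.Agent.MP_8db1a4_gt.MorseDefs

set_option autoImplicit false

/-! The Morse data attached to a family of sets (MP_8db1a4_gt). -/

namespace Pool.Agent.MP_8db1a4_gt

open Set

variable {n : ℕ}

/-- The closed core of a set. -/
def Tc (𝒯 : Set (Hy n)) : Set (LV n) := {X ∈ LCone n | Sfun 𝒯 X ≤ 2}

/-- An open neighbourhood of the core. -/
def Uc (𝒯 : Set (Hy n)) : Set (LV n) := {X ∈ LCone n | Sfun 𝒯 X < 3}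

/-- The Morse function. -/
noncomputable def Fmor {G : Type*} [Group G] (ρ : G →* (LV n →L[ℝ] LV n)) (s κ : ℝ) {ι : Type*}
    (𝒯 : ι → Set (Hy n)) (X : LV n) : ℝ := fpot ρ s X - 8 * (s + 1) * colSum κ 𝒯 X

/-- The width of the collars. -/
noncomputable def colL (κ : ℝ) : ℝ := Real.arsinh (κ ^ (-4 : ℤ))

/-- Everything that is needed about the family `𝒯`. -/
structure FamilyData {G : Type*} [Group G] (ρ : G →* (LV n →L[ℝ] LV n)) (h : LorAction ρ)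
    (s₀ s' s κ : ℝ) (k : ℕ) {ι : Type*} [MulAction G ι] (𝒯 : ι → Set (Hy n)) : Prop where
  disc : LorDiscrete ρ
  tf : TorsFree G
  hk : 2 ≤ k
  hs₀ : 0 ≤ s₀
  hs₀s' : s₀ < s'
  hs's : s' < s
  hsk : s + 1 < k
  hκ : 0 < κ
  hκ4 : κ ≤ 1 / 4
  hκs : κ * (8 * (s + 1)) ≤ s * (k - 1 - s)
  growth : letI := hyAction h; GrowthLE G (Ohy n) s₀
  nonempty : ∀ i, (𝒯 i).Nonempty
  equiv : letI := hyAction h; ∀ (g : G) (i : ι) (x : Hy n), x ∈ 𝒯 i → g • x ∈ 𝒯 (g • i)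
  sep : ∀ i j, i ≠ j → ∀ x : Hy n, ∀ y ∈ hullHy (𝒯 i), ∀ y' ∈ hullHy (𝒯 j),
    dist x y ≤ colL κ + 2 → dist x y' ≤ colL κ + 2 → False
  far : ∀ i, ∃ x : Hy n, ∀ y ∈ hullHy (𝒯 i), 1 ≤ dist x y
  decay : ∃ C : ℝ, 0 < C ∧ ∀ x : Hy n, (∀ i, x ∉ 𝒯 i) → letI := hyAction h; ∀ R : ℝ, 0 ≤ R →
    ({g : G | dist x (g • Ohy n) ≤ R}.ncard : ℝ) ≤ C * Real.exp (s' * R)
  stab : ∀ i : ι, IsCyclic (MulAction.stabilizer G i)

end Pool.Agent.MP_8db1a4_gt
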