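import Pool.Agent.MP_8db1a4_gt.Cochain

set_option autoImplicit false

/-! [K-T4] equivariant cocycles of degree at least two on a convex set with a free action of a cyclic
torsion-free group are coboundaries. -/

namespace Pool.Agent.MP_8db1a4_gt

open Set

section ConeFormula

variable {V : Type*} {A : Type*} [AddCommGroup A]

theorem t4_dC_cone {m : ℕ} (c : (Fin (m + 1) → V) → A) (p : V) (σ : Fin (m + 1) → V) :
    dC c (Fin.cons p σ) +
      dC (fun τ : Fin m → V => c (Fin.cons (α := fun _ => V) p τ)) σ = c σ := by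
  unfold dC
  rw [Fin.sum_univ_succ]
  have h0 : (fun l : Fin (m + 1) =>
      (Fin.cons (α := fun _ => V) p σ : Fin (m + 1 + 1) → V) (Fin.succAbove 0 l)) = σ := by
    funext l
    simp
  have h1 : ∀ k : Fin (m + 1), (fun l : Fin (m + 1) =>
      (Fin.cons (α := fun _ => V) p σ : Fin (m + 1 + 1) → V) (Fin.succAbove k.succ l)) =
        Fin.cons (α := fun _ => V) p (fun l : Fin m => σ (Fin.succAbove k l)) := by
    intro k
    funext l
    refine Fin.cases ?_ (fun l' => ?_) l
    · simp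
    · simp
  rw [h0]
  simp only [h1]
  simp [pow_succ]

end ConeFormula

section Free

variable {V : Type*} {A : Type*} [AddCommGroup A]

theorem t4_hull_subset_iff [AddCommGroup V] [Module ℝ V] {U : Set V} (hU : Convex ℝ U) {j : ℕ} (σ : Fin j → V) :
    hull σ ⊆ U ↔ ∀ i, σ i ∈ U := by
  unfold hull
  rw [hU.convexHull_subset_iff]
  constructor
  · intro h i
    exact h (mem_range_self i)
  · rintro h _ ⟨i, rfl⟩
    exact h i

theorem t4_dC_add {j : ℕ} (c c' : (Fin j → V) → A) (σ : Fin (j + 1) → V) :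
    dC (fun τ => c τ + c' τ) σ = dC c σ + dC c' σ := by
  unfold dC
  rw [← Finset.sum_add_distrib]
  exact Finset.sum_congr rfl fun i _ => by rw [smul_add]

theorem t4_dC_sub {j : ℕ} (c c' : (Fin j → V) → A) (σ : Fin (j + 1) → V) :
    dC (fun τ => c τ - c' τ) σ = dC c σ - dC c' σ := by
  unfold dC
  rw [← Finset.sum_sub_distrib]
  exact Finset.sum_congr rfl fun i _ => by rw [smul_sub]

/-- coboundary of a translated cochain -/
theorem t4_dC_translate {j : ℕ} (f : A →+ A) (φ : V → V) (c : (Fin j → V) → A)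
    (σ : Fin (j + 1) → V) :
    dC (fun τ => f (c (fun i => φ (τ i)))) σ = f (dC c (fun i => φ (σ i))) := by
  unfold dC
  rw [map_sum]
  exact Finset.sum_congr rfl fun i _ => by rw [map_zsmul]

/-- `EqOnS`-type congruence for the coboundary. -/
theorem t4_dC_congr_on {U : Set V} {j : ℕ} {c c' : (Fin j → V) → A}
    (h : ∀ τ : Fin j → V, (∀ i, τ i ∈ U) → c τ = c' τ) (σ : Fin (j + 1) → V)
    (hσ : ∀ i, σ i ∈ U) : dC c σ = dC c' σ := by
  unfold dC
  refine Finset.sum_congr rfl fun i _ => ?_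
  rw [h _ (fun l => hσ _)]

theorem t4_dC_dC : ∀ {j : ℕ} (c : (Fin j → V) → A) (σ : Fin (j + 1 + 1) → V), dC (dC c) σ = 0 := by
  intro j
  induction j with
  | zero =>
    intro c σ
    have : ∀ τ τ' : Fin 0 → V, c τ = c τ' := fun τ τ' => by rw [Subsingleton.elim τ τ']
    unfold dC
    simp only [Fin.sum_univ_succ, Fin.sum_univ_zero]
    rw [this _ (fun i => Fin.elim0 i), this (fun l => σ _) (fun i => Fin.elim0 i)]
    simp
  | succ j ih =>
    intro c σ
    obtain ⟨p, σ', rfl⟩ : ∃ (p : V) (σ' : Fin (j + 1 + 1) → V),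
        σ = Fin.cons (α := fun _ => V) p σ' := ⟨σ 0, Fin.tail σ, (Fin.cons_self_tail σ).symm⟩
    have h1 := t4_dC_cone (dC c) p σ'
    have h2 : (fun τ : Fin (j + 1) → V => dC c (Fin.cons (α := fun _ => V) p τ)) =
        fun τ => c τ - dC (fun τ' : Fin j → V => c (Fin.cons (α := fun _ => V) p τ')) τ := by
      funext τ
      exact eq_sub_of_add_eq (t4_dC_cone c p τ)
    rw [h2, t4_dC_sub, ih] at h1
    simpa using h1

/-- difference equation on the integers -/
theorem t4_exists_int_sum (u : ℤ → A) : ∃ h : ℤ → A, ∀ n, h n - h (n - 1) = u n := by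
  classical
  refine ⟨fun n => ∑ i ∈ Finset.Ioc 0 n, u i - ∑ i ∈ Finset.Ioc n 0, u i, fun n => ?_⟩
  rcases lt_or_ge 0 n with hn | hn
  · have e1 : Finset.Ioc n 0 = ∅ := Finset.Ioc_eq_empty (by omega)
    have e2 : Finset.Ioc (n - 1) 0 = ∅ := Finset.Ioc_eq_empty (by omega)
    have e3 : Finset.Ioc 0 n = insert n (Finset.Ioc 0 (n - 1)) := by
      ext x; simp only [Finset.mem_Ioc, Finset.mem_insert]; omega
    simp only [e1, e2, e3]
    rw [Finset.sum_insert (by simp)]
    simp
  · have e1 : Finset.Ioc 0 n = ∅ := Finset.Ioc_eq_empty (by omega)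
    have e2 : Finset.Ioc 0 (n - 1) = ∅ := Finset.Ioc_eq_empty (by omega)
    have e3 : Finset.Ioc (n - 1) 0 = insert n (Finset.Ioc n 0) := by
      ext x; simp only [Finset.mem_Ioc, Finset.mem_insert]; omega
    simp only [e1, e2, e3]
    rw [Finset.sum_insert (by simp)]
    simp

/-- An infinite cyclic group acting freely on a set `X`: any difference equation is solvable. -/
theorem t4_solve_free {Γ : Type*} [Group Γ] {X : Type*} [MulAction Γ X] (c : Γ)
    (hc : ∀ g : Γ, g ∈ Subgroup.zpowers c) (hord : ∀ n : ℤ, c ^ n = 1 → n = 0)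
    (hfree : ∀ (g : Γ) (x : X), g • x = x → g = 1) (τ : Γ →* AddMonoid.End A) (α : X → A) :
    ∃ a : X → A, ∀ x, τ c (a (c⁻¹ • x)) - a x = - α x := by
  classical
  -- representative of each orbit
  let q : X → MulAction.orbitRel.Quotient Γ X := fun x => Quotient.mk'' x
  let r : X → X := fun x => (q x).out
  have hr : ∀ x, ∃ n : ℤ, c ^ n • r x = x := by
    intro x
    have h : (MulAction.orbitRel Γ X).r (r x) x := by
      have := Quotient.exact' (Quotient.out_eq' (q x))
      exact this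
    have h' : (MulAction.orbitRel Γ X).r x (r x) := (MulAction.orbitRel Γ X).symm h
    obtain ⟨g, hg⟩ := h'
    obtain ⟨n, hn⟩ := hc g
    refine ⟨n, ?_⟩
    simp only at hn hg
    rw [hn]; exact hg
  choose N hN using hr
  have hrg : ∀ (g : Γ) (x : X), r (g • x) = r x := by
    intro g x
    have : q (g • x) = q x := Quotient.sound' ⟨g, rfl⟩
    simp only [r, this]
  have hNc : ∀ x, N (c⁻¹ • x) = N x - 1 := by
    intro x
    have h1 := hN (c⁻¹ • x)
    have h2 := hN x
    rw [hrg] at h1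
    have h3 : (c ^ (-(N x)) * (c * c ^ (N (c⁻¹ • x)))) • r x = r x := by
      rw [mul_smul, mul_smul, h1, smul_inv_smul, zpow_neg, inv_smul_eq_iff]
      exact h2.symm
    have h4 := hfree _ _ h3
    rw [← zpow_one_add, ← zpow_add] at h4
    have := hord _ h4
    omega
  have hex : ∀ x : X, ∃ h : ℤ → A, ∀ n, h n - h (n - 1) = τ (c ^ (-n)) (α (c ^ n • x)) :=
    fun x => t4_exists_int_sum _
  choose H hH using hex
  refine ⟨fun x => τ (c ^ (N x)) (H (r x) (N x)), fun x => ?_⟩
  simp only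
  rw [hrg, hNc]
  have e1 : τ c (τ (c ^ (N x - 1)) (H (r x) (N x - 1))) = τ (c ^ (N x)) (H (r x) (N x - 1)) := by
    have : c ^ (N x) = c * c ^ (N x - 1) := by rw [← zpow_one_add]; congr 1; ring
    rw [this, map_mul]; rfl
  rw [e1]
  have e2 := hH (r x) (N x)
  have e3 : τ (c ^ (N x)) (H (r x) (N x)) - τ (c ^ (N x)) (H (r x) (N x - 1)) = α x := by
    rw [← map_sub, e2, hN]
    have : τ (c ^ (N x)) (τ (c ^ (-(N x))) (α x)) = τ (c ^ (N x) * c ^ (-(N x))) (α x) := by
      rw [map_mul]; rfl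
    rw [this, ← zpow_add]
    simp
  rw [← e3, neg_sub]

end Free

section Main

theorem cyclic_base {V : Type*} [NormedAddCommGroup V] [NormedSpace ℝ V] {A : Type*}
    [AddCommGroup A] {Γ : Type*} [Group Γ] [IsCyclic Γ]
    (htf : ∀ g : Γ, ∀ n : ℕ, 0 < n → g ^ n = 1 → g = 1)
    (ρ : Γ →* (V →L[ℝ] V)) (τ : Γ →* AddMonoid.End A) (U : Set V) (hconv : Convex ℝ U)
    (hinv : InvSet ρ U) (hfree : ∀ g : Γ, g ≠ 1 → ∀ x ∈ U, ρ g x ≠ x)
    (j : ℕ) (hj : 2 ≤ j) (z : (Fin (j + 1) → V) → A) (hz : Equivar ρ τ z)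
    (hdz : EqOnS U (dC z) 0) :
    ∃ b : (Fin j → V) → A, Equivar ρ τ b ∧ EqOnS U (dC b) z := by
  classical
  obtain ⟨m, rfl⟩ : ∃ m, j = m + 2 := ⟨j - 2, by omega⟩
  -- pass to tuples in `U`
  simp only [EqOnS, t4_hull_subset_iff hconv] at hdz ⊢
  have hρmul : ∀ (g h : Γ) (x : V), ρ (g * h) x = ρ g (ρ h x) := fun g h x => by
    rw [map_mul]; rfl
  have hρone : ∀ x : V, ρ 1 x = x := fun x => by rw [map_one]; rfl
  have hτmul : ∀ (g h : Γ) (x : A), τ (g * h) x = τ g (τ h x) := fun g h x => by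
    rw [map_mul]; rfl
  have hτone : ∀ x : A, τ 1 x = x := fun x => by rw [map_one]; rfl
  have hρinv : ∀ (g : Γ) (x : V), ρ g (ρ g⁻¹ x) = x := fun g x => by
    rw [← hρmul, mul_inv_cancel, hρone]
  have hρinv' : ∀ (g : Γ) (x : V), ρ g⁻¹ (ρ g x) = x := fun g x => by
    rw [← hρmul, inv_mul_cancel, hρone]
  have hτinv : ∀ (g : Γ) (x : A), τ g (τ g⁻¹ x) = x := fun g x => by
    rw [← hτmul, mul_inv_cancel, hτone]
  have hUiff : ∀ (g : Γ) (x : V), ρ g x ∈ U ↔ x ∈ U := fun g x =>
    ⟨fun h => by have := hinv g⁻¹ _ h; rwa [hρinv'] at this, hinv g x⟩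
  rcases U.eq_empty_or_nonempty with hU | ⟨p, hp⟩
  · subst hU
    refine ⟨fun _ => 0, fun g σ => by simp, fun σ hσ => ?_⟩
    exact absurd (hσ 0) (by simp)
  obtain ⟨c, hc⟩ := IsCyclic.exists_generator (α := Γ)
  -- the cone of `z`
  set β : (Fin (m + 2) → V) → A := fun τ => z (Fin.cons (α := fun _ => V) p τ) with hβ
  have hdβ : ∀ σ : Fin (m + 2 + 1) → V, (∀ i, σ i ∈ U) → dC β σ = z σ := by
    intro σ hσ
    have h1 := t4_dC_cone z p σ
    have h2 : dC z (Fin.cons (α := fun _ => V) p σ) = 0 := by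
      refine hdz _ (fun i => ?_)
      refine Fin.cases ?_ (fun i' => ?_) i
      · simpa using hp
      · simpa using hσ i'
    rw [h2, zero_add] at h1
    exact h1
  -- it suffices to find `b'` invariant under `c` on `U`
  suffices hsuff : ∃ b' : (Fin (m + 2) → V) → A,
      (∀ σ, (∀ i, σ i ∈ U) → b' (fun i => ρ c (σ i)) = τ c (b' σ)) ∧
      ∀ σ : Fin (m + 2 + 1) → V, (∀ i, σ i ∈ U) → dC b' σ = z σ by
    obtain ⟨b', hb1, hb2⟩ := hsuff
    refine ⟨fun σ => if ∀ i, σ i ∈ U then b' σ else 0, ?_, ?_⟩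
    · have hcstep : ∀ σ : Fin (m + 2) → V,
          (if ∀ i, ρ c (σ i) ∈ U then b' (fun i => ρ c (σ i)) else 0) =
            τ c (if ∀ i, σ i ∈ U then b' σ else 0) := by
        intro σ
        simp only [hUiff]
        split_ifs with h
        · exact hb1 σ h
        · simp
      -- the set of good elements is a subgroup
      let S : Subgroup Γ :=
        { carrier := {g | ∀ σ : Fin (m + 2) → V,
            (fun σ : Fin (m + 2) → V => if ∀ i, σ i ∈ U then b' σ else 0)
              (fun i => ρ g (σ i)) =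
              τ g ((fun σ : Fin (m + 2) → V => if ∀ i, σ i ∈ U then b' σ else 0) σ)}
          mul_mem' := by
            intro g h hg hh σ
            have h1 := hg (fun i => ρ h (σ i))
            have h2 := hh σ
            rw [hτmul, ← h2, ← h1]
            simp only [hρmul]
          one_mem' := by
            intro σ
            simp only [hρone, hτone]
          inv_mem' := by
            intro g hg σ
            have h1 := hg (fun i => ρ g⁻¹ (σ i))
            simp only [hρinv] at h1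
            have h2 := congrArg (τ g⁻¹) h1
            rw [← hτmul, inv_mul_cancel, hτone] at h2
            exact h2.symm }
      have hcS : c ∈ S := hcstep
      intro g σ
      have hgS : g ∈ S := by
        have := hc g
        exact (Subgroup.zpowers_le.mpr hcS) this
      exact hgS σ
    · intro σ hσ
      rw [← hb2 σ hσ]
      refine t4_dC_congr_on (U := U) (fun τ hτ => ?_) σ hσ
      simp [hτ]
  by_cases hc1 : c = 1
  · subst hc1
    refine ⟨β, fun σ _ => ?_, hdβ⟩
    rw [hτone]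
    simp only [hρone]
  have hord : ∀ n : ℤ, c ^ n = 1 → n = 0 := by
    intro n hn
    by_contra hne
    apply hc1
    apply htf c n.natAbs (Int.natAbs_pos.mpr hne)
    rcases Int.natAbs_eq n with h | h
    · rw [h, zpow_natCast] at hn; exact hn
    · rw [h, zpow_neg, zpow_natCast, inv_eq_one] at hn; exact hn
  -- the difference `c·β - β` and its cone
  set γ : (Fin (m + 2) → V) → A := fun σ => τ c (β (fun i => ρ c⁻¹ (σ i))) - β σ with hγ
  have hdγ : ∀ σ : Fin (m + 2 + 1) → V, (∀ i, σ i ∈ U) → dC γ σ = 0 := by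
    intro σ hσ
    have e1 : dC (fun σ => τ c (β (fun i => ρ c⁻¹ (σ i)))) σ =
        τ c (dC β (fun i => ρ c⁻¹ (σ i))) :=
      t4_dC_translate (τ c) (fun x => ρ c⁻¹ x) β σ
    rw [hγ, t4_dC_sub (fun σ => τ c (β (fun i => ρ c⁻¹ (σ i)))) β σ, e1, hdβ σ hσ,
      hdβ (fun i => ρ c⁻¹ (σ i)) (fun i => (hUiff _ _).mpr (hσ i)), ← hz c]
    simp only [hρinv, sub_self]
  set α : (Fin (m + 1) → V) → A := fun τ => γ (Fin.cons (α := fun _ => V) p τ) with hα
  have hdα : ∀ σ : Fin (m + 1 + 1) → V, (∀ i, σ i ∈ U) → dC α σ = γ σ := by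
    intro σ hσ
    have h1 := t4_dC_cone γ p σ
    have h2 : dC γ (Fin.cons (α := fun _ => V) p σ) = 0 := by
      refine hdγ _ (fun i => ?_)
      refine Fin.cases ?_ (fun i' => ?_) i
      · simpa using hp
      · simpa using hσ i'
    rw [h2, zero_add] at h1
    exact h1
  -- solve along the free orbits
  let X : Type _ := {σ : Fin (m + 1) → V // ∀ i, σ i ∈ U}
  let _ : MulAction Γ X :=
    { smul := fun g σ => ⟨fun i => ρ g (σ.1 i), fun i => (hUiff g _).mpr (σ.2 i)⟩
      one_smul := fun σ => Subtype.ext (funext fun i => hρone _)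
      mul_smul := fun g h σ => Subtype.ext (funext fun i => hρmul g h _) }
  have hXfree : ∀ (g : Γ) (x : X), g • x = x → g = 1 := by
    intro g x hx
    by_contra hg
    have := congrFun (congrArg Subtype.val hx) 0
    exact hfree g hg _ (x.2 0) this
  obtain ⟨a, ha⟩ := t4_solve_free c hc hord hXfree τ (fun x : X => α x.1)
  set α' : (Fin (m + 1) → V) → A := fun σ => if h : ∀ i, σ i ∈ U then a ⟨σ, h⟩ else 0 with hα'
  have hα'1 : ∀ σ : Fin (m + 1) → V, (∀ i, σ i ∈ U) →
      τ c (α' (fun i => ρ c⁻¹ (σ i))) - α' σ = - α σ := by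
    intro σ hσ
    have hσ' : ∀ i, ρ c⁻¹ (σ i) ∈ U := fun i => (hUiff _ _).mpr (hσ i)
    simp only [hα', hσ, hσ', implies_true, dite_true]
    exact ha ⟨σ, hσ⟩
  refine ⟨fun σ => β σ + dC α' σ, ?_, ?_⟩
  · intro σ hσ
    have hσ2 : ∀ i, ρ c (σ i) ∈ U := fun i => (hUiff _ _).mpr (hσ i)
    -- value of `c·β - β` at `ρ c σ`
    have h1 := hdα (fun i => ρ c (σ i)) hσ2
    have h2 : dC (fun τ' : Fin (m + 1) → V => τ c (α' (fun i => ρ c⁻¹ (τ' i))) - α' τ')
        (fun i => ρ c (σ i)) = dC (fun τ' => - α τ') (fun i => ρ c (σ i)) :=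
      t4_dC_congr_on (U := U) hα'1 _ hσ2
    have e1 : dC (fun τ' : Fin (m + 1) → V => τ c (α' (fun i => ρ c⁻¹ (τ' i))))
        (fun i => ρ c (σ i)) = τ c (dC α' (fun i => ρ c⁻¹ (ρ c (σ i)))) :=
      t4_dC_translate (τ c) (fun x => ρ c⁻¹ x) α' _
    rw [t4_dC_sub (fun τ' : Fin (m + 1) → V => τ c (α' (fun i => ρ c⁻¹ (τ' i)))) α', e1] at h2
    have h3 : dC (fun τ' => - α τ') (fun i => ρ c (σ i)) = - dC α (fun i => ρ c (σ i)) := by
      unfold dC
      simp
    rw [h3, h1] at h2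
    simp only [hρinv'] at h2
    have h4 : γ (fun i => ρ c (σ i)) = τ c (β σ) - β (fun i => ρ c (σ i)) := by
      simp only [hγ, hρinv']
    rw [h4] at h2
    rw [map_add]
    have h5 : τ c (dC α' σ) = dC α' (fun i => ρ c (σ i)) -
        (τ c (β σ) - β (fun i => ρ c (σ i))) := by
      rw [sub_eq_iff_eq_add.mp h2, neg_add_eq_sub]
    rw [h5]
    change β (fun i => ρ c (σ i)) + dC α' (fun i => ρ c (σ i)) = _
    abel
  · intro σ hσ
    rw [t4_dC_add β (dC α') σ, hdβ σ hσ]
    have : dC (dC α') σ = 0 := t4_dC_dC α' σ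
    rw [this, add_zero]

end Main

end Pool.Agent.MP_8db1a4_gt
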