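import Pool.Agent.MP_8db1a4_gt.TopDefs

set_option autoImplicit false

/-! [KAP-T7] exhaustion. Uses only the definitions of `SpecTop` (`Ext`, `ConeAction`). -/

namespace Pool.Agent.MP_8db1a4_gt

open Set

namespace Exh

section

variable {V : Type*} [NormedAddCommGroup V] [NormedSpace ℝ V]

theorem hull_face_subset {j : ℕ} (σ : Fin (j + 1) → V) (i : Fin (j + 1)) :
    hull (fun l => σ (i.succAbove l)) ⊆ hull σ := by
  apply convexHull_mono
  rintro _ ⟨l, rfl⟩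
  exact ⟨_, rfl⟩

theorem isCompact_hull {j : ℕ} (σ : Fin j → V) : IsCompact (hull σ) :=
  (Set.finite_range σ).isCompact_convexHull ℝ

theorem hull_map {j : ℕ} (L : V →L[ℝ] V) (σ : Fin j → V) :
    hull (fun i => L (σ i)) = L '' hull σ := by
  unfold hull
  have h := (L : V →ₗ[ℝ] V).image_convexHull (range σ)
  have h' : range (fun i => L (σ i)) = (L : V →ₗ[ℝ] V) '' range σ := by
    rw [← range_comp]; rfl
  rw [h', ← h]
  rfl

theorem dC_congr {A : Type*} [AddCommGroup A] {j : ℕ} {c c' : (Fin j → V) → A}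
    {σ : Fin (j + 1) → V} (h : ∀ i : Fin (j + 1), c (fun l => σ (i.succAbove l)) =
      c' (fun l => σ (i.succAbove l))) : dC c σ = dC c' σ := by
  unfold dC
  exact Finset.sum_congr rfl fun i _ => by rw [h i]

theorem hull_subset_iff_of_inv {G : Type*} [Group G] {ρ : G →* (V →L[ℝ] V)} {C : Set V}
    (hinv : InvSet ρ C) {j : ℕ} (g : G) (σ : Fin j → V) :
    hull (fun i => ρ g (σ i)) ⊆ C ↔ hull σ ⊆ C := by
  have key : ∀ (g : G) (σ : Fin j → V), hull σ ⊆ C → hull (fun i => ρ g (σ i)) ⊆ C := by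
    intro g σ h
    rw [hull_map]
    rintro _ ⟨x, hx, rfl⟩
    exact hinv g x (h hx)
  refine ⟨fun h => ?_, key g σ⟩
  have h2 := key g⁻¹ _ h
  have h3 : (fun i => ρ g⁻¹ (ρ g (σ i))) = σ := by
    funext i
    have : (ρ g⁻¹ * ρ g) (σ i) = σ i := by rw [← map_mul, inv_mul_cancel, map_one]; rfl
    exact this
  rwa [h3] at h2

end

end Exh

open Exh in
theorem exhaust {V : Type*} [NormedAddCommGroup V] [NormedSpace ℝ V] [FiniteDimensional ℝ V]
    {A : Type*} [AddCommGroup A] {G : Type*} [Group G] (ρ : G →* (V →L[ℝ] V))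
    (τ : G →* AddMonoid.End A) (C : Set V) (hC : ConeAction ρ C) (k : ℕ) (hk : 1 ≤ k)
    (K : ℕ → Set V) (hmono : Monotone K)
    (hext : ∀ m, Ext ρ τ C k (K m) (K (m + 1)))
    (hcomp : ∀ Z : Set V, Z ⊆ C → IsCompact Z → ∃ m, Z ⊆ K m)
    (z : (Fin (k + 1) → V) → A) (hz : Equivar ρ τ z) (hdz : EqOnS C (dC z) 0)
    (hbase : ∃ U : Set V, IsOpen U ∧ Conic U ∧ InvSet ρ U ∧ U ⊆ C ∧ K 0 ⊆ U ∧
      ∃ b : (Fin k → V) → A, Equivar ρ τ b ∧ EqOnS U (dC b) z) :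
    ∃ b : (Fin k → V) → A, Equivar ρ τ b ∧ EqOnS C (dC b) z := by
  classical
  -- the state at stage `m`
  let P : ℕ → ((Fin k → V) → A) → Prop := fun m b =>
    ∃ U : Set V, IsOpen U ∧ Conic U ∧ InvSet ρ U ∧ U ⊆ C ∧ K m ⊆ U ∧
      Equivar ρ τ b ∧ EqOnS U (dC b) z
  have step : ∀ m (b : {b // P m b}), ∃ b' : {b // P (m + 1) b}, EqOnS (K m) b'.1 b.1 := by
    rintro m ⟨b, U, hU, hUc, hUi, hUC, hKU, hb, hdb⟩
    obtain ⟨U', hU', hU'c, hU'i, hU'C, hKU', b', hb', hdb', U'', _, _, _, hKU'', hbb⟩ :=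
      hext m z hz hdz U hU hUc hUi hUC hKU b hb hdb
    refine ⟨⟨b', U', hU', hU'c, hU'i, hU'C, hKU', hb', hdb'⟩, ?_⟩
    exact fun σ hσ => hbb σ (hσ.trans hKU'')
  have base : ∃ b, P 0 b := by
    obtain ⟨U, h1, h2, h3, h4, h5, b, h6, h7⟩ := hbase
    exact ⟨b, U, h1, h2, h3, h4, h5, h6, h7⟩
  obtain ⟨b0, hb0⟩ := base
  choose nxt hnxt using step
  let bs : (m : ℕ) → {b // P m b} := fun m =>
    Nat.rec (motive := fun m => {b // P m b}) ⟨b0, hb0⟩ (fun m b => nxt m b) m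
  have hbs : ∀ m, EqOnS (K m) (bs (m + 1)).1 (bs m).1 := fun m => hnxt m (bs m)
  have hbs' : ∀ m d, EqOnS (K m) (bs (m + d)).1 (bs m).1 := by
    intro m d
    induction d with
    | zero => exact fun σ _ => rfl
    | succ d ih =>
      intro σ hσ
      have h1 : (bs (m + d + 1)).1 σ = (bs (m + d)).1 σ :=
        hbs (m + d) σ (hσ.trans (hmono (Nat.le_add_right m d)))
      exact h1.trans (ih σ hσ)
  have hKC : ∀ m, K m ⊆ C := by
    intro m
    obtain ⟨U, _, _, _, hUC, hKU, _⟩ := (bs m).2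
    exact hKU.trans hUC
  let b : (Fin k → V) → A := fun σ =>
    if h : ∃ m, hull σ ⊆ K m then (bs (Nat.find h)).1 σ else 0
  have hbm : ∀ (σ : Fin k → V) (m : ℕ), hull σ ⊆ K m → b σ = (bs m).1 σ := by
    intro σ m hm
    have hex : ∃ m, hull σ ⊆ K m := ⟨m, hm⟩
    have h1 : b σ = (bs (Nat.find hex)).1 σ := dif_pos hex
    have hle : Nat.find hex ≤ m := Nat.find_min' hex hm
    obtain ⟨d, hd⟩ := Nat.exists_eq_add_of_le hle
    rw [h1]
    have h2 := hbs' (Nat.find hex) d σ (Nat.find_spec hex)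
    rw [← h2, ← hd]
  have hb0' : ∀ σ : Fin k → V, ¬ (hull σ ⊆ C) → b σ = 0 := by
    intro σ hσ
    have : ¬ ∃ m, hull σ ⊆ K m := by
      rintro ⟨m, hm⟩
      exact hσ (hm.trans (hKC m))
    exact dif_neg this
  refine ⟨b, ?_, ?_⟩
  · intro g σ
    by_cases hσ : hull σ ⊆ C
    · have hgσ : hull (fun i => ρ g (σ i)) ⊆ C := (hull_subset_iff_of_inv hC.inv g σ).2 hσ
      obtain ⟨m, hm⟩ := hcomp _ hσ (isCompact_hull σ)
      obtain ⟨m', hm'⟩ := hcomp _ hgσ (isCompact_hull _)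
      have e1 := hbm σ (max m m') (hm.trans (hmono (le_max_left m m')))
      have e2 := hbm _ (max m m') (hm'.trans (hmono (le_max_right m m')))
      obtain ⟨U, _, _, _, _, _, heq, _⟩ := (bs (max m m')).2
      rw [e1, e2]
      exact heq g σ
    · have hgσ : ¬ hull (fun i => ρ g (σ i)) ⊆ C := fun h =>
        hσ ((hull_subset_iff_of_inv hC.inv g σ).1 h)
      rw [hb0' σ hσ, hb0' _ hgσ, map_zero]
  · intro σ hσ
    obtain ⟨m, hm⟩ := hcomp _ hσ (isCompact_hull σ)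
    obtain ⟨U, _, _, _, _, hKU, _, hdb⟩ := (bs m).2
    rw [← hdb σ (hm.trans hKU)]
    exact dC_congr fun i => hbm _ m ((hull_face_subset σ i).trans hm)

end Pool.Agent.MP_8db1a4_gt
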