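import Pool.Agent.MP_8db1a4_gt.TopDefs
import Pool.Agent.MP_8db1a4_gt.Glue

set_option autoImplicit false

/-! [K-T6] one elementary equivariant extension step. Uses `glue` (K-T1). -/

namespace Pool.Agent.MP_8db1a4_gt

open Set

namespace ExtStep

section Alg

variable {V : Type*} {A : Type*} [AddCommGroup A]

theorem dC_dC {j : ℕ} (c : (Fin j → V) → A) (σ : Fin (j + 2) → V) : dC (dC c) σ = 0 := by
  have h1 : dC (dC c) σ = ∑ p : Fin (j + 2) × Fin (j + 1), (-1 : ℤ) ^ ((p.1 : ℕ) + (p.2 : ℕ)) •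
      c (fun m => σ (p.1.succAbove (p.2.succAbove m))) := by
    rw [Fintype.sum_prod_type]
    unfold dC
    refine Finset.sum_congr rfl fun i _ => ?_
    rw [Finset.smul_sum]
    refine Finset.sum_congr rfl fun l _ => ?_
    rw [smul_smul, ← pow_add]
  rw [h1]
  refine Finset.sum_involution
    (fun p _ => (p.1.succAbove p.2, p.2.predAbove p.1)) ?_ ?_ ?_ ?_
  · rintro ⟨i, l⟩ _
    simp only
    rw [Fin.neg_one_pow_succAbove_add_predAbove]
    have h2 : (fun m => σ ((i.succAbove l).succAbove ((l.predAbove i).succAbove m)))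
        = fun m => σ (i.succAbove (l.succAbove m)) := by
      funext m
      rw [Fin.succAbove_succAbove_succAbove_predAbove]
    rw [h2, neg_smul, add_neg_cancel]
  · rintro ⟨i, l⟩ _ _ h
    simp only [Prod.mk.injEq] at h
    exact Fin.succAbove_ne i l h.1
  · intro p _
    exact Finset.mem_univ _
  · rintro ⟨i, l⟩ _
    simp only [Prod.mk.injEq]
    exact ⟨Fin.succAbove_succAbove_predAbove i l, Fin.predAbove_predAbove_succAbove i l⟩

theorem dC_add {j : ℕ} (c c' : (Fin j → V) → A) (σ : Fin (j + 1) → V) :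
    dC (fun s => c s + c' s) σ = dC c σ + dC c' σ := by
  simp only [dC, smul_add, Finset.sum_add_distrib]

theorem dC_sub {j : ℕ} (c c' : (Fin j → V) → A) (σ : Fin (j + 1) → V) :
    dC (fun s => c s - c' s) σ = dC c σ - dC c' σ := by
  simp only [dC, smul_sub, Finset.sum_sub_distrib]

end Alg

section Geo

variable {V : Type*} [NormedAddCommGroup V] [NormedSpace ℝ V]

theorem subset_coneOver (K : Set V) : K ⊆ coneOver K := fun x hx => ⟨1, one_pos, x, hx, by simp⟩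

theorem conic_coneOver (K : Set V) : Conic (coneOver K) := by
  rintro x ⟨t, ht, y, hy, rfl⟩ s hs
  exact ⟨s * t, mul_pos hs ht, y, hy, by rw [smul_smul]⟩

theorem coneOver_subset {K U : Set V} (hU : Conic U) (h : K ⊆ U) : coneOver K ⊆ U := by
  rintro x ⟨t, ht, y, hy, rfl⟩
  exact hU y (h hy) t ht

theorem conic_smul_mem_iff {U : Set V} (hU : Conic U) {t : ℝ} (ht : 0 < t) (x : V) :
    t • x ∈ U ↔ x ∈ U := by
  refine ⟨fun h => ?_, fun h => hU x h t ht⟩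
  have := hU _ h t⁻¹ (inv_pos.2 ht)
  rwa [smul_smul, inv_mul_cancel₀ ht.ne', one_smul] at this

theorem isOpen_coneOver {K : Set V} (hK : IsOpen K) : IsOpen (coneOver K) := by
  have h : coneOver K = ⋃ t : {t : ℝ // 0 < t}, (fun x : V => (t : ℝ)⁻¹ • x) ⁻¹' K := by
    ext x
    simp only [mem_iUnion, mem_preimage]
    constructor
    · rintro ⟨t, ht, y, hy, rfl⟩
      refine ⟨⟨t, ht⟩, ?_⟩
      simpa [smul_smul, inv_mul_cancel₀ ht.ne'] using hy
    · rintro ⟨⟨t, ht⟩, hx⟩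
      refine ⟨t, ht, _, hx, ?_⟩
      simp [smul_smul, mul_inv_cancel₀ ht.ne']
  rw [h]
  exact isOpen_iUnion fun t => hK.preimage (continuous_const_smul _)

/-- The radial projection. -/
noncomputable def nrm (x : V) : V := ‖x‖⁻¹ • x

theorem nrm_smul {t : ℝ} (ht : 0 < t) (x : V) : nrm (t • x) = nrm x := by
  unfold nrm
  rw [norm_smul, Real.norm_of_nonneg ht.le, smul_smul]
  congr 1
  rw [mul_inv]
  field_simp

theorem continuousOn_nrm : ContinuousOn (nrm : V → V) {0}ᶜ := by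
  unfold nrm
  refine ContinuousOn.smul (ContinuousOn.inv₀ continuous_norm.continuousOn ?_) continuousOn_id
  intro x hx
  simpa using hx

theorem mem_coneOver_iff {Y : Set V} (h0 : (0 : V) ∉ Y) {x : V} (hx : x ≠ 0) :
    x ∈ coneOver Y ↔ nrm x ∈ nrm '' Y := by
  constructor
  · rintro ⟨t, ht, y, hy, rfl⟩
    exact ⟨y, hy, (nrm_smul ht y).symm⟩
  · rintro ⟨y, hy, hxy⟩
    have hy0 : y ≠ 0 := fun h => h0 (h ▸ hy)
    have hnx : 0 < ‖x‖ := norm_pos_iff.2 hx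
    have hny : 0 < ‖y‖ := norm_pos_iff.2 hy0
    refine ⟨‖x‖ * ‖y‖⁻¹, by positivity, y, hy, ?_⟩
    unfold nrm at hxy
    rw [mul_smul, hxy, smul_smul, mul_inv_cancel₀ hnx.ne', one_smul]

theorem isOpen_diff_coneOver {Y : Set V} (hY : IsCompact Y) (h0 : (0 : V) ∉ Y) {O : Set V}
    (hO : IsOpen O) (hO0 : (0 : V) ∉ O) : IsOpen (O \ coneOver Y) := by
  have hsub : Y ⊆ ({0}ᶜ : Set V) := fun y hy hy0 => h0 (by rwa [mem_singleton_iff.1 hy0] at hy)
  have hc : IsCompact (nrm '' Y) := hY.image_of_continuousOn (continuousOn_nrm.mono hsub)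
  have hOs : O ⊆ ({0}ᶜ : Set V) := fun y hy hy0 => hO0 (by rwa [mem_singleton_iff.1 hy0] at hy)
  have h1 : IsOpen (O ∩ nrm ⁻¹' (nrm '' Y)ᶜ) :=
    (continuousOn_nrm.mono hOs).isOpen_inter_preimage hO hc.isClosed.isOpen_compl
  have h2 : O \ coneOver Y = O ∩ nrm ⁻¹' (nrm '' Y)ᶜ := by
    ext x
    constructor
    · rintro ⟨hx, hxY⟩
      refine ⟨hx, fun h => hxY ?_⟩
      exact (mem_coneOver_iff h0 (fun h => hO0 (h ▸ hx))).2 h
    · rintro ⟨hx, hxY⟩
      refine ⟨hx, fun h => hxY ?_⟩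
      exact (mem_coneOver_iff h0 (fun h => hO0 (h ▸ hx))).1 h
  rw [h2]
  exact h1

theorem hull_mono_face {j : ℕ} (σ : Fin (j + 1) → V) (i : Fin (j + 1)) :
    hull (fun l => σ (i.succAbove l)) ⊆ hull σ := by
  unfold hull
  refine convexHull_mono ?_
  rintro _ ⟨l, rfl⟩
  exact ⟨_, rfl⟩

theorem mem_hull {j : ℕ} (σ : Fin j → V) (i : Fin j) : σ i ∈ hull σ :=
  subset_convexHull ℝ _ ⟨i, rfl⟩

theorem hull_map {j : ℕ} (f : V →L[ℝ] V) (σ : Fin j → V) :
    hull (fun i => f (σ i)) = f '' hull σ := by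
  unfold hull
  rw [show (range fun i => f (σ i)) = f '' range σ by rw [← range_comp]; rfl]
  exact (f.toLinearMap.image_convexHull (range σ)).symm

theorem isPreconnected_hull {j : ℕ} (σ : Fin j → V) : IsPreconnected (hull σ) :=
  (convex_convexHull ℝ _).isPreconnected

/-- An equality of cochains on the set `U` gives equality of coboundaries on `U`. -/
theorem dC_congr {A : Type*} [AddCommGroup A] {j : ℕ} {U : Set V} {c c' : (Fin j → V) → A}
    (h : EqOnS U c c') : EqOnS U (dC c) (dC c') := by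
  intro σ hσ
  unfold dC
  refine Finset.sum_congr rfl fun i _ => ?_
  rw [h _ ((hull_mono_face σ i).trans hσ)]

end Geo

section Act

variable {V : Type*} [NormedAddCommGroup V] [NormedSpace ℝ V] {A : Type*} [AddCommGroup A]
  {G : Type*} [Group G] (ρ : G →* (V →L[ℝ] V)) (τ : G →* AddMonoid.End A)

theorem rho_mul (g h : G) (x : V) : ρ (g * h) x = ρ g (ρ h x) := by
  rw [map_mul]; rfl

theorem rho_one (x : V) : ρ 1 x = x := by
  rw [map_one]; rfl

theorem rho_inv_rho (g : G) (x : V) : ρ g⁻¹ (ρ g x) = x := by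
  rw [← rho_mul, inv_mul_cancel, rho_one]

theorem rho_rho_inv (g : G) (x : V) : ρ g (ρ g⁻¹ x) = x := by
  rw [← rho_mul, mul_inv_cancel, rho_one]

theorem tau_mul (g h : G) (x : A) : τ (g * h) x = τ g (τ h x) := by
  rw [map_mul]; rfl

theorem tau_one (x : A) : τ 1 x = x := by
  rw [map_one]; rfl

theorem tau_inv_tau (g : G) (x : A) : τ g⁻¹ (τ g x) = x := by
  rw [← tau_mul, inv_mul_cancel, tau_one]

theorem image_eq_preimage (g : G) (S : Set V) : ρ g '' S = (ρ g⁻¹) ⁻¹' S := by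
  ext x
  constructor
  · rintro ⟨y, hy, rfl⟩
    simpa [rho_inv_rho] using hy
  · intro hx
    exact ⟨ρ g⁻¹ x, hx, rho_rho_inv ρ g x⟩

theorem coneOver_image (g : G) (S : Set V) : ρ g '' coneOver S = coneOver (ρ g '' S) := by
  ext x
  constructor
  · rintro ⟨_, ⟨t, ht, y, hy, rfl⟩, rfl⟩
    exact ⟨t, ht, ρ g y, ⟨y, hy, rfl⟩, by rw [map_smul]⟩
  · rintro ⟨t, ht, _, ⟨y, hy, rfl⟩, rfl⟩
    exact ⟨t • y, ⟨t, ht, y, hy, rfl⟩, by rw [map_smul]⟩

/-- The saturation of a set. -/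
def sat (S : Set V) : Set V := {x | ∃ g : G, ρ g x ∈ S}

theorem sat_inv (S : Set V) : InvSet ρ (sat ρ S) := by
  rintro g x ⟨h, hx⟩
  refine ⟨h * g⁻¹, ?_⟩
  rwa [rho_mul, rho_inv_rho]

theorem sat_conic {S : Set V} (hS : Conic S) : Conic (sat ρ S) := by
  rintro x ⟨h, hx⟩ t ht
  exact ⟨h, by rw [map_smul]; exact hS _ hx t ht⟩

theorem sat_open {S : Set V} (hS : IsOpen S) : IsOpen (sat ρ S) := by
  have : sat ρ S = ⋃ g : G, (ρ g) ⁻¹' S := by
    ext x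
    simp [sat]
  rw [this]
  exact isOpen_iUnion fun g => hS.preimage (ρ g).continuous

theorem sat_subset {S C : Set V} (hC : InvSet ρ C) (h : S ⊆ C) : sat ρ S ⊆ C := by
  rintro x ⟨g, hx⟩
  have := hC g⁻¹ _ (h hx)
  rwa [rho_inv_rho] at this

/-- Uniqueness of the translate. -/
theorem unique_translate {Q : Set V} (hdisj : ∀ g : G, g ≠ 1 → Disjoint (ρ g '' Q) Q)
    {g g' : G} {x : V} (h : ρ g x ∈ Q) (h' : ρ g' x ∈ Q) : g = g' := by
  by_contra hne
  have h1 : g * g'⁻¹ ≠ 1 := fun h1 => hne (mul_inv_eq_one.1 h1)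
  have h2 : ρ (g * g'⁻¹) (ρ g' x) = ρ g x := by rw [rho_mul, rho_inv_rho]
  exact disjoint_left.1 (hdisj _ h1) ⟨ρ g' x, h', h2⟩ h

/-- A simplex in the union of the translates is in one translate. -/
theorem hull_in_one {Q : Set V} (hdisj : ∀ g : G, g ≠ 1 → Disjoint (ρ g '' Q) Q)
    {S : Set V} (hSQ : S ⊆ Q) (hS : IsOpen S) {j : ℕ} (σ : Fin (j + 1) → V)
    (hσ : hull σ ⊆ sat ρ S) : ∃ g : G, ∀ x ∈ hull σ, ρ g x ∈ S := by
  obtain ⟨g, hg⟩ := hσ (mem_hull σ 0)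
  refine ⟨g, ?_⟩
  have hu : IsOpen ((ρ g) ⁻¹' S) := hS.preimage (ρ g).continuous
  have hv : IsOpen (⋃ h : {h : G // h ≠ g}, (ρ h.1) ⁻¹' S) :=
    isOpen_iUnion fun h => hS.preimage (ρ h.1).continuous
  have huv : Disjoint ((ρ g) ⁻¹' S) (⋃ h : {h : G // h ≠ g}, (ρ h.1) ⁻¹' S) := by
    rw [disjoint_left]
    intro x hx hx'
    obtain ⟨⟨h, hne⟩, hh⟩ := mem_iUnion.1 hx'
    exact hne (unique_translate ρ hdisj (hSQ hh) (hSQ hx))
  have hsub : hull σ ⊆ ((ρ g) ⁻¹' S) ∪ (⋃ h : {h : G // h ≠ g}, (ρ h.1) ⁻¹' S) := by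
    intro x hx
    obtain ⟨h, hh⟩ := hσ hx
    by_cases hgh : h = g
    · left
      subst hgh
      exact hh
    · right
      exact mem_iUnion.2 ⟨⟨h, hgh⟩, hh⟩
  exact (isPreconnected_hull σ).subset_left_of_subset_union hu hv huv hsub
    ⟨σ 0, mem_hull σ 0, hg⟩

open Classical in
/-- Equivariant extension of a cochain from `Q` to its translates. -/
noncomputable def extend (Q : Set V) {j : ℕ} (b : (Fin j → V) → A) (σ : Fin j → V) : A :=
  if h : ∃ g : G, ∀ i, ρ g (σ i) ∈ Q then τ h.choose⁻¹ (b (fun i => ρ h.choose (σ i))) else 0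

theorem extend_eq {Q : Set V} (hdisj : ∀ g : G, g ≠ 1 → Disjoint (ρ g '' Q) Q) {j : ℕ}
    (b : (Fin (j + 1) → V) → A) (σ : Fin (j + 1) → V) (g : G) (hg : ∀ i, ρ g (σ i) ∈ Q) :
    extend ρ τ Q b σ = τ g⁻¹ (b (fun i => ρ g (σ i))) := by
  have h : ∃ g : G, ∀ i, ρ g (σ i) ∈ Q := ⟨g, hg⟩
  have hgg : h.choose = g := unique_translate ρ hdisj (h.choose_spec 0) (hg 0)
  unfold extend
  rw [dif_pos h, hgg]

theorem extend_equivar {Q : Set V} (hdisj : ∀ g : G, g ≠ 1 → Disjoint (ρ g '' Q) Q) {j : ℕ}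
    (b : (Fin (j + 1) → V) → A) : Equivar ρ τ (extend ρ τ Q b) := by
  intro g σ
  by_cases h : ∃ h : G, ∀ i, ρ h (σ i) ∈ Q
  · obtain ⟨h, hh⟩ := h
    have h1 : ∀ i, ρ (h * g⁻¹) (ρ g (σ i)) = ρ h (σ i) := by
      intro i
      rw [rho_mul, rho_inv_rho]
    have h2 : ∀ i, ρ (h * g⁻¹) (ρ g (σ i)) ∈ Q := fun i => by rw [h1]; exact hh i
    rw [extend_eq ρ τ hdisj b σ h hh, extend_eq ρ τ hdisj b (fun i => ρ g (σ i)) (h * g⁻¹) h2]
    simp only [h1]
    rw [mul_inv_rev, inv_inv, tau_mul]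
  · have h' : ¬ ∃ h : G, ∀ i, ρ h (ρ g (σ i)) ∈ Q := by
      rintro ⟨h', hh'⟩
      refine h ⟨h' * g, fun i => ?_⟩
      rw [rho_mul]
      exact hh' i
    unfold extend
    rw [dif_neg h, dif_neg h', map_zero]

/-- Properness: the saturation of the cone over a compact set is closed in `C`. -/
theorem isOpen_diff_sat [FiniteDimensional ℝ V] {C : Set V} (hC : ConeAction ρ C) {Y : Set V}
    (hY : IsCompact Y) (hYC : Y ⊆ C) {O : Set V} (hO : IsOpen O) (hOC : O ⊆ C) :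
    IsOpen (O \ sat ρ (coneOver Y)) := by
  have : ProperSpace V := FiniteDimensional.proper_real V
  rw [isOpen_iff_forall_mem_open]
  rintro x ⟨hxO, hxY⟩
  obtain ⟨B, hB, hxB, hBO⟩ := exists_compact_subset hO hxO
  have hfin := hC.proper Y B hY hB hYC (hBO.trans hOC)
  have h0 : ∀ g : G, (0 : V) ∉ ρ g '' Y := by
    rintro g ⟨y, hy, hy0⟩
    exact hC.zero_notMem (hy0 ▸ hC.inv g y (hYC hy))
  refine ⟨interior B ∩ ⋂ g ∈ {g : G | (ρ g '' coneOver Y ∩ coneOver B).Nonempty},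
    (C \ coneOver (ρ g '' Y)), ?_, ?_, hxB, ?_⟩
  · rintro y ⟨hyB, hyF⟩
    refine ⟨hBO (interior_subset hyB), ?_⟩
    rintro ⟨g, hg⟩
    have h1 : y ∈ ρ g⁻¹ '' coneOver Y := ⟨ρ g y, hg, rho_inv_rho ρ g y⟩
    have h2 := mem_iInter₂.1 hyF g⁻¹ ⟨y, h1, subset_coneOver B (interior_subset hyB)⟩
    rw [coneOver_image] at h1
    exact h2.2 h1
  · refine isOpen_interior.inter (hfin.isOpen_biInter fun g _ => ?_)
    exact isOpen_diff_coneOver (hY.image (ρ g).continuous) (h0 g) hC.isOpen hC.zero_notMem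
  · refine mem_iInter₂.2 fun g _ => ⟨hOC hxO, fun h => hxY ⟨g⁻¹, ?_⟩⟩
    rw [← coneOver_image] at h
    obtain ⟨y, hy, rfl⟩ := h
    rwa [rho_inv_rho]

end Act

end ExtStep

open ExtStep in
theorem ext_step {V : Type*} [NormedAddCommGroup V] [NormedSpace ℝ V] [FiniteDimensional ℝ V]
    {A : Type*} [AddCommGroup A] {G : Type*} [Group G] (ρ : G →* (V →L[ℝ] V))
    (τ : G →* AddMonoid.End A) (C : Set V) (hC : ConeAction ρ C) (k : ℕ) (hk : 2 ≤ k)
    (K K' : Set V) (hKC : K ⊆ C) (hK'C : K' ⊆ C) (hKK' : K ⊆ K')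
    (hK1 : IsOpen (C \ K)) (hK1' : IsOpen (C \ K')) (hKcon : Conic K) (hK'con : Conic K')
    (hKinv : InvSet ρ K) (hK'inv : InvSet ρ K')
    (Q₁ : Set V) (hQ₁ : IsCompact Q₁) (Qp : Set V) (hQp : IsOpen Qp) (hQpcon : Conic Qp)
    (hQpC : Qp ⊆ C) (hQQ : Q₁ ⊆ Qp) (hdisj : ∀ g : G, g ≠ 1 → Disjoint (ρ g '' Qp) Qp)
    (hcover : ∀ x ∈ K', x ∈ K ∨ ∃ g : G, ρ g x ∈ K' ∩ coneOver Q₁)
    (hg1 : GoodC A k (K' ∩ coneOver Q₁)) (hg2 : GoodC A (k - 1) (K ∩ coneOver Q₁)) :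
    Ext ρ τ C k K K' := by
  obtain ⟨k, rfl⟩ : ∃ k', k = k' + 1 := ⟨k - 1, by omega⟩
  have : ProperSpace V := FiniteDimensional.proper_real V
  rw [Nat.add_sub_cancel] at hg2
  intro z hz hdz U hU hUcon hUinv hUC hKU b hb hdb
  -- a primitive of `z` near the new part
  have hcQ : coneOver Q₁ ⊆ Qp := coneOver_subset hQpcon hQQ
  obtain ⟨N2, hN2Q, hN2, hN2con, hN2K, b2, hb2⟩ := hg1 Qp hQp hQpcon
    (inter_subset_right.trans hcQ) z (fun σ hσ => hdz σ (hσ.trans hQpC))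
  -- the difference is a coboundary
  obtain ⟨N, hNsub, hN, hNcon, hNK, e, he⟩ := hg2 (U ∩ N2) (hU.inter hN2)
    (fun x hx t ht => ⟨hUcon x hx.1 t ht, hN2con x hx.2 t ht⟩)
    (fun x hx => ⟨hKU hx.1, hN2K ⟨hKK' hx.1, hx.2⟩⟩) (fun σ => b σ - b2 σ) (by
      intro σ hσ
      rw [dC_sub, hdb σ (hσ.trans inter_subset_left), hb2 σ (hσ.trans inter_subset_right),
        sub_self]
      rfl)
  obtain ⟨b3, hb3⟩ : ∃ b3 : (Fin (k + 1) → V) → A, b3 = fun σ => b2 σ + dC e σ := ⟨_, rfl⟩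
  have hb3N : EqOnS N b3 b := by
    intro σ hσ
    rw [hb3]
    simp only
    rw [he σ hσ]
    exact add_sub_cancel _ _
  have hb3z : EqOnS N2 (dC b3) z := by
    intro σ hσ
    rw [hb3, dC_add, hb2 σ hσ, dC_dC, add_zero]
  -- a compact neighbourhood
  have hPc : IsCompact (K' ∩ Q₁) := by
    have : K' ∩ Q₁ = Q₁ \ (C \ K') := by
      ext x
      constructor
      · rintro ⟨h1, h2⟩
        exact ⟨h2, fun h => h.2 h1⟩
      · rintro ⟨h1, h2⟩
        refine ⟨?_, h1⟩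
        by_contra h
        exact h2 ⟨hQpC (hQQ h1), h⟩
    rw [this]
    exact hQ₁.diff hK1'
  obtain ⟨O, hOdef⟩ : ∃ O : Set V, O = N ∪ (N2 ∩ (C \ K)) := ⟨_, rfl⟩
  have hOo : IsOpen O := by
    rw [hOdef]
    exact hN.union (hN2.inter hK1)
  have hPO : K' ∩ Q₁ ⊆ O := by
    rintro x ⟨h1, h2⟩
    rw [hOdef]
    by_cases hx : x ∈ K
    · left
      exact hNK ⟨hx, subset_coneOver _ h2⟩
    · right
      exact ⟨hN2K ⟨h1, subset_coneOver _ h2⟩, hK'C h1, hx⟩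
  obtain ⟨Z, hZ, hPZ, hZO⟩ := exists_compact_between hPc hOo hPO
  have hON2 : O ⊆ N2 := by
    rw [hOdef]
    exact union_subset (hNsub.trans inter_subset_right) inter_subset_left
  obtain ⟨V2, hV2def⟩ : ∃ V2 : Set V, V2 = coneOver (interior Z) := ⟨_, rfl⟩
  have hV2o : IsOpen V2 := by
    rw [hV2def]
    exact isOpen_coneOver isOpen_interior
  have hV2con : Conic V2 := by
    rw [hV2def]
    exact conic_coneOver _
  have hV2N2 : V2 ⊆ N2 := by
    rw [hV2def]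
    exact coneOver_subset hN2con ((interior_subset.trans hZO).trans hON2)
  have hV2K : K' ∩ coneOver Q₁ ⊆ V2 := by
    rintro x ⟨hx, t, ht, y, hy, rfl⟩
    have hyK : y ∈ K' := (conic_smul_mem_iff hK'con ht y).1 hx
    exact hV2con y (by rw [hV2def]; exact subset_coneOver _ (hPZ ⟨hyK, hy⟩)) t ht
  -- the removed part
  have hYc : IsCompact (Z \ N) := hZ.diff hN
  have hYC : Z \ N ⊆ C := fun x hx => hQpC (hN2Q (hON2 (hZO hx.1)))
  have hYK : ∀ x ∈ Z \ N, x ∉ K := by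
    rintro x ⟨h1, h2⟩ h3
    have := hZO h1
    rw [hOdef] at this
    rcases this with h | h
    · exact h2 h
    · exact h.2.2 h3
  obtain ⟨U1, hU1def⟩ : ∃ U1 : Set V, U1 = U \ sat ρ (coneOver (Z \ N)) := ⟨_, rfl⟩
  have hU1o : IsOpen U1 := by
    rw [hU1def]
    exact isOpen_diff_sat ρ hC hYc hYC hU hUC
  have hU1con : Conic U1 := by
    rw [hU1def]
    rintro x ⟨hx, hx'⟩ t ht
    exact ⟨hUcon x hx t ht, fun h => hx' ((conic_smul_mem_iff
      (sat_conic ρ (conic_coneOver _)) ht x).1 h)⟩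
  have hU1inv : InvSet ρ U1 := by
    rw [hU1def]
    rintro g x ⟨hx, hx'⟩
    refine ⟨hUinv g x hx, fun h => hx' ?_⟩
    have := sat_inv ρ (coneOver (Z \ N)) g⁻¹ _ h
    rwa [rho_inv_rho] at this
  have hKU1 : K ⊆ U1 := by
    rw [hU1def]
    intro x hx
    refine ⟨hKU hx, ?_⟩
    rintro ⟨g, t, ht, y, hy, hxy⟩
    refine hYK y hy ?_
    have h1 : ρ g x ∈ K := hKinv g x hx
    rw [hxy] at h1
    exact (conic_smul_mem_iff hKcon ht y).1 h1
  obtain ⟨W2, hW2def⟩ : ∃ W2 : Set V, W2 = sat ρ V2 := ⟨_, rfl⟩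
  have hV2Q : V2 ⊆ Qp := hV2N2.trans hN2Q
  have hW2C : W2 ⊆ C := by
    rw [hW2def]
    exact sat_subset ρ hC.inv (hV2Q.trans hQpC)
  have hU1C : U1 ⊆ C := by
    rw [hU1def]
    exact sdiff_subset.trans hUC
  -- the two primitives
  have hd4 : EqOnS W2 (dC (extend ρ τ Qp b3)) z := by
    intro σ hσ
    rw [hW2def] at hσ
    obtain ⟨g, hg⟩ := hull_in_one ρ hdisj hV2Q hV2o σ hσ
    have h1 : dC (extend ρ τ Qp b3) σ = τ g⁻¹ (dC b3 (fun i => ρ g (σ i))) := by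
      unfold dC
      rw [map_sum]
      refine Finset.sum_congr rfl fun i _ => ?_
      rw [map_zsmul, extend_eq ρ τ hdisj b3 (fun l => σ (i.succAbove l)) g
        (fun l => hV2Q (hg _ (mem_hull σ _)))]
    rw [h1, hb3z, hz g σ, tau_inv_tau]
    rw [hull_map]
    rintro _ ⟨x, hx, rfl⟩
    exact hV2N2 (hg x hx)
  have h14 : EqOnS (U1 ∩ W2) b (extend ρ τ Qp b3) := by
    intro σ hσ
    obtain ⟨g, hg⟩ := hull_in_one ρ hdisj hV2Q hV2o σ
      (by rw [← hW2def]; exact hσ.trans inter_subset_right)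
    rw [extend_eq ρ τ hdisj b3 σ g (fun i => hV2Q (hg _ (mem_hull σ i))), hb3N, hb g σ,
      tau_inv_tau]
    rw [hull_map]
    rintro _ ⟨x, hx, rfl⟩
    have h1 : ρ g x ∈ V2 := hg x hx
    rw [hV2def] at h1
    obtain ⟨t, ht, w, hw, hxw⟩ := h1
    rw [hxw]
    refine hNcon w ?_ t ht
    by_contra hwN
    have h2 : x ∈ U1 := (hσ hx).1
    rw [hU1def] at h2
    exact h2.2 ⟨g, t, ht, w, ⟨interior_subset hw, hwN⟩, hxw⟩
  obtain ⟨b', hb'e, hb'z, hb'1, -⟩ := glue ρ τ hU1o (by rw [hW2def]; exact sat_open ρ hV2o) hU1inv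
    (by rw [hW2def]; exact sat_inv ρ V2) z hz
    (fun σ hσ => hdz σ (hσ.trans (union_subset hU1C hW2C))) b (extend ρ τ Qp b3) hb
    (extend_equivar ρ τ hdisj b3) (fun σ hσ => hdb σ (hσ.trans (by rw [hU1def]; exact sdiff_subset)))
    hd4 h14
  refine ⟨U1 ∪ W2, hU1o.union (by rw [hW2def]; exact sat_open ρ hV2o), ?_, ?_,
    union_subset hU1C hW2C, ?_, b', hb'e, hb'z, U1, hU1o, hU1con, hU1inv, hKU1, hb'1⟩
  · rintro x (hx | hx) t ht
    · exact Or.inl (hU1con x hx t ht)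
    · right
      rw [hW2def] at hx ⊢
      exact sat_conic ρ hV2con x hx t ht
  · rintro g x (hx | hx)
    · exact Or.inl (hU1inv g x hx)
    · right
      rw [hW2def] at hx ⊢
      exact sat_inv ρ V2 g x hx
  · intro x hx
    rcases hcover x hx with h | ⟨g, hg⟩
    · exact Or.inl (hKU1 h)
    · right
      rw [hW2def]
      exact ⟨g, hV2K hg⟩

end Pool.Agent.MP_8db1a4_gt
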