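import Pool.Agent.MP_8db1a4_gt.CycBase

set_option autoImplicit false

namespace Pool.Agent.MP_8db1a4_gt

open Set

section fb

variable {V : Type*} [NormedAddCommGroup V] [NormedSpace ℝ V]

theorem fb_hull_map {j : ℕ} (f : V →L[ℝ] V) (σ : Fin j → V) :
    hull (fun i => f (σ i)) = f '' hull σ := by
  unfold hull
  have h1 : range (fun i => f (σ i)) = f '' range σ := by
    rw [← range_comp]; rfl
  rw [h1]
  exact (LinearMap.image_convexHull (f : V →ₗ[ℝ] V) (range σ)).symm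

theorem fb_face_hull {j : ℕ} (σ : Fin (j + 1) → V) (i : Fin (j + 1)) :
    hull (fun l => σ (i.succAbove l)) ⊆ hull σ := by
  apply convexHull_mono
  rintro x ⟨l, rfl⟩
  exact ⟨_, rfl⟩

theorem fb_one_component {ι : Type*} {j : ℕ} (hj : 0 < j) (U : ι → Set V)
    (hopen : ∀ i, IsOpen (U i)) (hdisj : ∀ i j, i ≠ j → Disjoint (U i) (U j))
    (σ : Fin j → V) (hσ : hull σ ⊆ ⋃ i, U i) : ∃ i, hull σ ⊆ U i := by
  have hne : (hull σ).Nonempty := by
    refine ⟨σ ⟨0, hj⟩, subset_convexHull ℝ _ ⟨_, rfl⟩⟩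
  obtain ⟨x, hx⟩ := hne
  obtain ⟨i, hi⟩ := mem_iUnion.1 (hσ hx)
  refine ⟨i, ?_⟩
  refine IsPreconnected.subset_left_of_subset_union (hopen i)
    (isOpen_biUnion (s := {k | k ≠ i}) (f := U) (fun k _ => hopen k)) ?_ ?_ ⟨x, hx, hi⟩
    (convex_convexHull ℝ _).isPreconnected
  · rw [disjoint_iUnion₂_right]
    intro k hk
    exact hdisj i k (fun h => hk h.symm)
  · intro y hy
    obtain ⟨k, hk⟩ := mem_iUnion.1 (hσ hy)
    by_cases h : k = i
    · left; rw [← h]; exact hk
    · right; exact mem_biUnion (show k ∈ {k | k ≠ i} from h) hk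

end fb

theorem family_base {V : Type*} [NormedAddCommGroup V] [NormedSpace ℝ V] {A : Type*}
    [AddCommGroup A] {G : Type*} [Group G]
    (htf : ∀ g : G, ∀ n : ℕ, 0 < n → g ^ n = 1 → g = 1)
    (ρ : G →* (V →L[ℝ] V)) (τ : G →* AddMonoid.End A)
    {ι : Type*} [MulAction G ι] (U : ι → Set V) (hopen : ∀ i, IsOpen (U i))
    (hconv : ∀ i, Convex ℝ (U i)) (hdisj : ∀ i j, i ≠ j → Disjoint (U i) (U j))
    (hact : ∀ (g : G) (i : ι), ∀ x ∈ U i, ρ g x ∈ U (g • i))
    (hcyc : ∀ i : ι, IsCyclic (MulAction.stabilizer G i))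
    (hfree : ∀ g : G, g ≠ 1 → ∀ i, ∀ x ∈ U i, ρ g x ≠ x)
    (j : ℕ) (hj : 2 ≤ j) (z : (Fin (j + 1) → V) → A) (hz : Equivar ρ τ z)
    (hdz : EqOnS (⋃ i, U i) (dC z) 0) :
    ∃ b : (Fin j → V) → A, Equivar ρ τ b ∧ EqOnS (⋃ i, U i) (dC b) z := by
  classical
  -- local solutions
  have hloc : ∀ i : ι, ∃ b : (Fin j → V) → A,
      (∀ s : G, s • i = i → ∀ σ : Fin j → V, b (fun l => ρ s (σ l)) = τ s (b σ)) ∧
      EqOnS (U i) (dC b) z := by
    intro i
    have := hcyc i
    obtain ⟨b, hb1, hb2⟩ := cyclic_base (Γ := MulAction.stabilizer G i)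
      (fun g n hn hg => Subtype.ext (htf g.1 n hn (by
        have := congrArg Subtype.val hg
        simpa using this)))
      (ρ.comp (MulAction.stabilizer G i).subtype) (τ.comp (MulAction.stabilizer G i).subtype)
      (U i) (hconv i)
      (by
        intro g x hx
        have h1 := hact g.1 i x hx
        have h2 : g.1 • i = i := g.2
        rw [h2] at h1
        exact h1)
      (by
        intro g hg x hx
        exact hfree g.1 (fun h => hg (Subtype.ext h)) i x hx)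
      j hj z (fun g σ => hz g.1 σ)
      (fun σ hσ => hdz σ (hσ.trans (subset_iUnion U i)))
    exact ⟨b, fun s hs σ => hb1 ⟨s, hs⟩ σ, hb2⟩
  choose B hB1 hB2 using hloc
  -- representatives
  let rep : ι → ι := fun i => (Quotient.mk (MulAction.orbitRel G ι) i).out
  have hrep : ∀ i, ∃ g : G, g • rep i = i := by
    intro i
    have h1 : (MulAction.orbitRel G ι).r (rep i) i :=
      Quotient.exact (Quotient.out_eq (Quotient.mk (MulAction.orbitRel G ι) i))
    obtain ⟨g, hg⟩ := (MulAction.orbitRel_apply.1 h1)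
    refine ⟨g⁻¹, ?_⟩
    have hg' : g • i = rep i := hg
    rw [← hg', inv_smul_smul]
  have hrep2 : ∀ (h : G) (i : ι), rep (h • i) = rep i := by
    intro h i
    have : Quotient.mk (MulAction.orbitRel G ι) (h • i) = Quotient.mk (MulAction.orbitRel G ι) i :=
      Quotient.sound (MulAction.orbitRel_apply.2 ⟨h, rfl⟩)
    simp only [rep, this]
  choose γ hγ using hrep
  -- the value attached to `i` and `g` with `g • rep i = i`
  have hwell : ∀ (i : ι) (g : G), g • rep i = i → ∀ σ : Fin j → V,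
      τ g (B (rep i) (fun l => ρ g⁻¹ (σ l))) =
        τ (γ i) (B (rep i) (fun l => ρ (γ i)⁻¹ (σ l))) := by
    intro i g hg σ
    set s : G := (γ i)⁻¹ * g with hs
    have hsi : s • rep i = rep i := by
      rw [hs, mul_smul, hg, inv_smul_eq_iff]
      exact (hγ i).symm
    have hgs : g = γ i * s := by rw [hs]; group
    have h1 := hB1 (rep i) s hsi (fun l => ρ g⁻¹ (σ l))
    have h2 : (fun l => ρ s (ρ g⁻¹ (σ l))) = (fun l => ρ (γ i)⁻¹ (σ l)) := by
      funext l
      have h3 : ρ (s * g⁻¹) (σ l) = ρ s (ρ g⁻¹ (σ l)) := by rw [map_mul]; rfl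
      have h4 : s * g⁻¹ = (γ i)⁻¹ := by rw [hs]; group
      rw [← h3, h4]
    rw [h2] at h1
    rw [h1]
    have h5 : τ g = τ (γ i) * τ s := by rw [← map_mul, ← hgs]
    rw [h5]
    rfl
  let b : (Fin j → V) → A := fun σ =>
    if h : ∃ i, hull σ ⊆ U i then
      τ (γ h.choose) (B (rep h.choose) (fun l => ρ (γ h.choose)⁻¹ (σ l))) else 0
  have huniq : ∀ (σ : Fin j → V) (i i' : ι), hull σ ⊆ U i → hull σ ⊆ U i' → i = i' := by
    intro σ i i' h h'
    by_contra hne
    have hx : σ ⟨0, by omega⟩ ∈ hull σ := subset_convexHull ℝ _ ⟨_, rfl⟩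
    exact Set.disjoint_left.1 (hdisj i i' hne) (h hx) (h' hx)
  have hb : ∀ (σ : Fin j → V) (i : ι), hull σ ⊆ U i → ∀ g : G, g • rep i = i →
      b σ = τ g (B (rep i) (fun l => ρ g⁻¹ (σ l))) := by
    intro σ i hi g hg
    have hex : ∃ i, hull σ ⊆ U i := ⟨i, hi⟩
    have h1 : hex.choose = i := huniq σ _ _ hex.choose_spec hi
    rw [hwell i g hg σ]
    simp only [b, dif_pos hex]
    rw [h1]
  have hmap : ∀ (h : G) (n : ℕ) (σ : Fin n → V) (i : ι), hull σ ⊆ U i →
      hull (fun l => ρ h (σ l)) ⊆ U (h • i) := by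
    intro h n σ i hi
    rw [fb_hull_map]
    rintro _ ⟨x, hx, rfl⟩
    exact hact h i x (hi hx)
  refine ⟨b, ?_, ?_⟩
  · intro h σ
    by_cases hex : ∃ i, hull σ ⊆ U i
    · obtain ⟨i, hi⟩ := hex
      have h1 := hmap h j σ i hi
      rw [hb σ i hi (γ i) (hγ i)]
      rw [hb _ (h • i) h1 (h * γ i) (by rw [hrep2, mul_smul, hγ i])]
      rw [hrep2, map_mul]
      have h2 : (fun l => ρ (h * γ i)⁻¹ (ρ h (σ l))) = (fun l => ρ (γ i)⁻¹ (σ l)) := by
        funext l
        have h3 : ρ ((h * γ i)⁻¹ * h) (σ l) = ρ (h * γ i)⁻¹ (ρ h (σ l)) := by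
          rw [map_mul]; rfl
        have h4 : (h * γ i)⁻¹ * h = (γ i)⁻¹ := by group
        rw [← h3, h4]
      rw [h2]
      rfl
    · have hex' : ¬ ∃ i, hull (fun l => ρ h (σ l)) ⊆ U i := by
        rintro ⟨i, hi⟩
        apply hex
        refine ⟨h⁻¹ • i, ?_⟩
        have h1 := hmap h⁻¹ j _ i hi
        have h2 : (fun l => ρ h⁻¹ (ρ h (σ l))) = σ := by
          funext l
          have : ρ (h⁻¹ * h) (σ l) = σ l := by rw [inv_mul_cancel, map_one]; rfl
          rw [map_mul] at this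
          exact this
        rw [h2] at h1
        exact h1
      simp only [b, dif_neg hex, dif_neg hex', map_zero]
  · intro σ hσ
    obtain ⟨i, hi⟩ := fb_one_component (by omega) U hopen hdisj σ hσ
    have h1 : ∀ k : Fin (j + 1), b (fun l => σ (k.succAbove l)) =
        τ (γ i) (B (rep i) (fun l => ρ (γ i)⁻¹ (σ (k.succAbove l)))) := fun k =>
      hb _ i ((fb_face_hull σ k).trans hi) (γ i) (hγ i)
    have h2 : hull (fun l => ρ (γ i)⁻¹ (σ l)) ⊆ U (rep i) := by
      have h3 := hmap (γ i)⁻¹ (j + 1) σ i hi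
      have h4 : (γ i)⁻¹ • i = rep i := by
        rw [inv_smul_eq_iff]
        exact (hγ i).symm
      rw [h4] at h3
      exact h3
    have h5 := hB2 (rep i) _ h2
    unfold dC at h5 ⊢
    simp only [h1]
    have h6 : z σ = τ (γ i) (z (fun l => ρ (γ i)⁻¹ (σ l))) := by
      rw [← hz (γ i)]
      congr 1
      funext l
      have : ρ (γ i * (γ i)⁻¹) (σ l) = σ l := by rw [mul_inv_cancel, map_one]; rfl
      rw [map_mul] at this
      exact this.symm
    rw [h6, ← h5, map_sum]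
    simp only [map_zsmul]

end Pool.Agent.MP_8db1a4_gt
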