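import Pool.Agent.MP_8db1a4_gt.Cochain

set_option autoImplicit false

/-! Definitions for the extension theorems (MP_8db1a4_gt). -/

namespace Pool.Agent.MP_8db1a4_gt

open Set

/-- Any equivariant primitive of a cocycle `z` near `K` extends to one near `K'`, without changing it
near `K`. -/
def Ext {V : Type*} [NormedAddCommGroup V] [NormedSpace ℝ V] {A : Type*} [AddCommGroup A]
    {G : Type*} [Group G] (ρ : G →* (V →L[ℝ] V)) (τ : G →* AddMonoid.End A)
    (C : Set V) (k : ℕ) (K K' : Set V) : Prop :=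
  ∀ z : (Fin (k + 1) → V) → A, Equivar ρ τ z → EqOnS C (dC z) 0 →
  ∀ U : Set V, IsOpen U → Conic U → InvSet ρ U → U ⊆ C → K ⊆ U →
  ∀ b : (Fin k → V) → A, Equivar ρ τ b → EqOnS U (dC b) z →
  ∃ U' : Set V, IsOpen U' ∧ Conic U' ∧ InvSet ρ U' ∧ U' ⊆ C ∧ K' ⊆ U' ∧
    ∃ b' : (Fin k → V) → A, Equivar ρ τ b' ∧ EqOnS U' (dC b') z ∧
      ∃ U'' : Set V, IsOpen U'' ∧ Conic U'' ∧ InvSet ρ U'' ∧ K ⊆ U'' ∧ EqOnS U'' b' b

/-- The standing assumptions: `G` acts linearly, freely and properly on the projectivisation of the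
open convex cone `C`. -/
structure ConeAction {V : Type*} [NormedAddCommGroup V] [NormedSpace ℝ V]
    {G : Type*} [Group G] (ρ : G →* (V →L[ℝ] V)) (C : Set V) : Prop where
  isOpen : IsOpen C
  convex : Convex ℝ C
  conic : Conic C
  inv : InvSet ρ C
  zero_notMem : (0 : V) ∉ C
  proper : ∀ Z₁ Z₂ : Set V, IsCompact Z₁ → IsCompact Z₂ → Z₁ ⊆ C → Z₂ ⊆ C →
    {g : G | (ρ g '' coneOver Z₁ ∩ coneOver Z₂).Nonempty}.Finite
  free : ∀ g : G, g ≠ 1 → ∀ x ∈ C, ∀ t : ℝ, ρ g x ≠ t • x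

/-- The action of `G` on the underlying group of a representation. -/
def repEnd {G : Type} [Group G] (M : Rep.{0, 0, 0} ℤ G) : G →* AddMonoid.End M where
  toFun g := (M.ρ g).toAddMonoidHom
  map_one' := by ext x; simp; rfl
  map_mul' g h := by ext x; simp; rfl

end Pool.Agent.MP_8db1a4_gt
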