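import Pool.Agent.MP_8db1a4_gt.TopDefs
import Pool.Agent.MP_8db1a4_gt.MorseDefs
import Pool.Agent.MP_8db1a4_gt.ExtStep
import Pool.Agent.MP_8db1a4_gt.Bump

set_option autoImplicit false

/-! # The finite ladder between two levels (MP_8db1a4_gt, task K-M4) -/

namespace Pool.Agent.MP_8db1a4_gt

open Set

section LadderAux

variable {V : Type*} [NormedAddCommGroup V] [NormedSpace ℝ V]
  {A : Type*} [AddCommGroup A] {G : Type*} [Group G]

theorem ladder_isOpen_coneOver {B : Set V} (hB : IsOpen B) : IsOpen (coneOver B) := by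
  have h : coneOver B = ⋃ t : ℝ, ⋃ (_ : 0 < t), (fun x : V => t⁻¹ • x) ⁻¹' B := by
    ext x
    simp only [coneOver, mem_ofPred_eq, mem_iUnion, mem_preimage, exists_prop]
    constructor
    · rintro ⟨t, ht, y, hy, rfl⟩
      refine ⟨t, ht, ?_⟩
      rwa [inv_smul_smul₀ ht.ne']
    · rintro ⟨t, ht, hx⟩
      exact ⟨t, ht, _, hx, (smul_inv_smul₀ ht.ne' x).symm⟩
  rw [h]
  exact isOpen_iUnion fun t => isOpen_iUnion fun _ => hB.preimage (continuous_const_smul _)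

theorem ladder_conic_coneOver (B : Set V) : Conic (coneOver B) := by
  rintro x ⟨t, ht, y, hy, rfl⟩ s hs
  exact ⟨s * t, mul_pos hs ht, y, hy, by rw [mul_smul]⟩

theorem ladder_conic_interior {B : Set V} (hB : Conic B) : Conic (interior B) := by
  intro x hx t ht
  have h1 : IsOpen ((fun x : V => t⁻¹ • x) ⁻¹' (interior B)) :=
    isOpen_interior.preimage (continuous_const_smul _)
  have hsub : ((fun x : V => t⁻¹ • x) ⁻¹' (interior B)) ⊆ B := by
    intro w hw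
    have := hB _ (interior_subset hw) t ht
    simpa [smul_inv_smul₀ ht.ne'] using this
  exact interior_maximal hsub h1 (by simpa [inv_smul_smul₀ ht.ne'] using hx)

theorem ladder_coneOver_subset {B C : Set V} (hC : Conic C) (hB : B ⊆ C) : coneOver B ⊆ C := by
  rintro x ⟨t, ht, y, hy, rfl⟩
  exact hC y (hB hy) t ht

theorem ladder_sep (x y : V) (hx : x ≠ 0) (hy : y ≠ 0) (hxy : ∀ t : ℝ, x ≠ t • y) :
    ∃ N₁ N₂ : Set V, IsOpen N₁ ∧ IsOpen N₂ ∧ Conic N₁ ∧ Conic N₂ ∧ x ∈ N₁ ∧ y ∈ N₂ ∧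
      Disjoint N₁ N₂ := by
  have hne : ‖x‖⁻¹ • x ≠ ‖y‖⁻¹ • y := by
    intro h
    apply hxy (‖x‖ * ‖y‖⁻¹)
    rw [mul_smul, ← h, smul_inv_smul₀ (norm_ne_zero_iff.2 hx)]
  obtain ⟨D₁, D₂, h1, h2, hx1, hy2, hd⟩ := t2_separation hne
  have hcont : ContinuousOn (fun v : V => ‖v‖⁻¹ • v) {v | v ≠ 0} := by
    apply ContinuousOn.smul _ continuousOn_id
    exact ContinuousOn.inv₀ continuous_norm.continuousOn (fun v hv => norm_ne_zero_iff.2 hv)
  have hopen : IsOpen {v : V | v ≠ 0} := isOpen_ne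
  have hcon : ∀ D : Set V, Conic ({v : V | v ≠ 0} ∩ (fun v : V => ‖v‖⁻¹ • v) ⁻¹' D) := by
    rintro D v ⟨hv0, hvD⟩ t ht
    refine ⟨smul_ne_zero ht.ne' hv0, ?_⟩
    have : ‖t • v‖⁻¹ • t • v = ‖v‖⁻¹ • v := by
      rw [norm_smul, Real.norm_of_nonneg ht.le, smul_smul, mul_inv, mul_comm t⁻¹, mul_assoc,
        inv_mul_cancel₀ ht.ne', mul_one]
    simpa only [mem_preimage, this] using hvD
  refine ⟨_, _, hcont.isOpen_inter_preimage hopen h1, hcont.isOpen_inter_preimage hopen h2,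
    hcon D₁, hcon D₂, ⟨hx, hx1⟩, ⟨hy, hy2⟩, ?_⟩
  rw [Set.disjoint_left]
  rintro v ⟨_, hv1⟩ ⟨_, hv2⟩
  exact Set.disjoint_left.1 hd hv1 hv2

theorem ladder_exists_nbhd [FiniteDimensional ℝ V] (ρ : G →* (V →L[ℝ] V)) (C : Set V)
    (hC : ConeAction ρ C) (y : V) (hy : y ∈ C) :
    ∃ N : Set V, IsOpen N ∧ Conic N ∧ y ∈ N ∧ N ⊆ C ∧
      ∀ g : G, g ≠ 1 → Disjoint (ρ g '' N) N := by
  classical
  obtain ⟨r, hr, hrC⟩ := Metric.nhds_basis_closedBall.mem_iff.1 (hC.isOpen.mem_nhds hy)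
  have hfin := hC.proper _ _ (isCompact_closedBall y r) (isCompact_closedBall y r) hrC hrC
  have hsep : ∀ g : G, ∃ N : Set V, IsOpen N ∧ Conic N ∧ y ∈ N ∧
      (g ≠ 1 → Disjoint (ρ g '' N) N) := by
    intro g
    by_cases hg : g = 1
    · exact ⟨univ, isOpen_univ, fun _ _ _ _ => mem_univ _, mem_univ _, fun h => absurd hg h⟩
    · have hy0 : y ≠ 0 := fun h => hC.zero_notMem (h ▸ hy)
      have hgy : ρ g y ≠ 0 := fun h => hC.zero_notMem (h ▸ hC.inv g y hy)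
      obtain ⟨N₁, N₂, h1, h2, c1, c2, m1, m2, hd⟩ := ladder_sep (ρ g y) y hgy hy0
        (fun t => hC.free g hg y hy t)
      refine ⟨ρ g ⁻¹' N₁ ∩ N₂, (h1.preimage (ρ g).continuous).inter h2, ?_, ⟨m1, m2⟩, ?_⟩
      · rintro v ⟨hv1, hv2⟩ t ht
        refine ⟨?_, c2 v hv2 t ht⟩
        rw [mem_preimage, map_smul]
        exact c1 _ hv1 t ht
      · intro _
        rw [Set.disjoint_left]
        rintro _ ⟨v, ⟨hv1, _⟩, rfl⟩ ⟨_, hv2⟩
        exact Set.disjoint_left.1 hd hv1 hv2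
  choose Ng hNo hNc hNy hNd using hsep
  refine ⟨coneOver (Metric.ball y r) ∩ ⋂ g ∈ hfin.toFinset, Ng g, ?_, ?_, ?_, ?_, ?_⟩
  · exact (ladder_isOpen_coneOver Metric.isOpen_ball).inter
      (isOpen_biInter_finset fun g _ => hNo g)
  · rintro v ⟨hv1, hv2⟩ t ht
    refine ⟨ladder_conic_coneOver _ v hv1 t ht, ?_⟩
    rw [mem_iInter₂] at hv2 ⊢
    exact fun g hg => hNc g v (hv2 g hg) t ht
  · refine ⟨⟨1, one_pos, y, Metric.mem_ball_self hr, (one_smul ℝ y).symm⟩, ?_⟩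
    rw [mem_iInter₂]
    exact fun g _ => hNy g
  · rintro v ⟨hv1, _⟩
    exact ladder_coneOver_subset hC.conic (Metric.ball_subset_closedBall.trans hrC) hv1
  · intro g hg
    by_cases hgf : g ∈ hfin.toFinset
    · refine (hNd g hg).mono ?_ ?_
      · apply image_mono
        intro v hv
        exact (mem_iInter₂.1 hv.2) g hgf
      · intro v hv
        exact (mem_iInter₂.1 hv.2) g hgf
    · rw [Set.disjoint_left]
      rintro _ ⟨v, hv, rfl⟩ hv'
      apply hgf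
      rw [Finite.mem_toFinset, mem_ofPred_eq]
      have hmono : coneOver (Metric.ball y r) ⊆ coneOver (Metric.closedBall y r) := by
        rintro _ ⟨t, ht, w, hw, rfl⟩
        exact ⟨t, ht, w, Metric.ball_subset_closedBall hw, rfl⟩
      exact ⟨ρ g v, ⟨v, hmono hv.1, rfl⟩, hmono hv'.1⟩

variable (ρ : G →* (V →L[ℝ] V)) (τ : G →* AddMonoid.End A)

theorem ladder_ext_refl (C : Set V) (k : ℕ) (K : Set V) : Ext ρ τ C k K K := by
  intro z _ _ U hU hUc hUi hUC hKU b hb hdb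
  exact ⟨U, hU, hUc, hUi, hUC, hKU, b, hb, hdb, U, hU, hUc, hUi, hKU, fun _ _ => rfl⟩

theorem ladder_ext_trans {C : Set V} {k : ℕ} {K K' K'' : Set V} (hKK' : K ⊆ K')
    (h1 : Ext ρ τ C k K K') (h2 : Ext ρ τ C k K' K'') : Ext ρ τ C k K K'' := by
  intro z hz hdz U hU hUc hUi hUC hKU b hb hdb
  obtain ⟨U', hU', hUc', hUi', hUC', hKU', b', hb', hdb', U₁, hU₁, hUc₁, hUi₁, hKU₁, he₁⟩ :=
    h1 z hz hdz U hU hUc hUi hUC hKU b hb hdb
  obtain ⟨W, hW, hWc, hWi, hWC, hKW, b'', hb'', hdb'', U₂, hU₂, hUc₂, hUi₂, hKU₂, he₂⟩ :=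
    h2 z hz hdz U' hU' hUc' hUi' hUC' hKU' b' hb' hdb'
  refine ⟨W, hW, hWc, hWi, hWC, hKW, b'', hb'', hdb'', U₁ ∩ U₂, hU₁.inter hU₂, ?_, ?_, ?_, ?_⟩
  · exact fun v hv t ht => ⟨hUc₁ v hv.1 t ht, hUc₂ v hv.2 t ht⟩
  · exact fun g v hv => ⟨hUi₁ g v hv.1, hUi₂ g v hv.2⟩
  · exact subset_inter hKU₁ (hKK'.trans hKU₂)
  · intro σ hσ
    rw [he₂ σ (hσ.trans inter_subset_right), he₁ σ (hσ.trans inter_subset_left)]

theorem ladder_ext_mono {C : Set V} {k : ℕ} {K K' K'' : Set V} (hK' : K' ⊆ K'')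
    (h : Ext ρ τ C k K K'') : Ext ρ τ C k K K' := by
  intro z hz hdz U hU hUc hUi hUC hKU b hb hdb
  obtain ⟨U', hU', hUc', hUi', hUC', hKU', r⟩ := h z hz hdz U hU hUc hUi hUC hKU b hb hdb
  exact ⟨U', hU', hUc', hUi', hUC', hK'.trans hKU', r⟩

/-- The data of one box of the ladder. -/
structure LadderBox (A : Type*) [AddCommGroup A] (ρ : G →* (V →L[ℝ] V)) (C T' : Set V)
    (F : V → ℝ) (k : ℕ) (N Q : Set V) (φ : V → ℝ) : Prop where
  isOpen : IsOpen N
  conic : Conic N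
  sub : N ⊆ C
  disj : ∀ g : G, g ≠ 1 → Disjoint (ρ g '' N) N
  compact : IsCompact Q
  subN : Q ⊆ N
  good : ∀ (m : ℕ) (ψ : Fin m → V → ℝ), (∀ i, ContDiffOn ℝ 2 (ψ i) C) →
        (∀ i, ∀ x ∈ C, ∀ t : ℝ, 0 < t → ψ i (t • x) = ψ i x) →
        ∃ ε₀ > (0 : ℝ), ∀ (c : ℝ) (ε : Fin m → ℝ), (∀ i, 0 ≤ ε i ∧ ε i ≤ ε₀) →
          ∀ j : ℕ, 1 ≤ j → k ≤ j + 1 →
            GoodC A j (subl C T' F (fun x => c + ∑ i, ε i * ψ i x) ∩ coneOver Q)
  nonneg : ∀ x, 0 ≤ φ x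
  smooth : ContDiffOn ℝ 2 φ C
  inv : ∀ g : G, ∀ x, φ (ρ g x) = φ x
  homog : ∀ x ∈ C, ∀ t : ℝ, 0 < t → φ (t • x) = φ x
  supp : ∀ x ∈ C, φ x ≠ 0 → ∃ g : G, ρ g x ∈ coneOver Q

theorem ladder_exists_min {m : ℕ} (e : Fin m → ℝ) (he : ∀ l, 0 < e l) :
    ∃ ε > (0 : ℝ), ∀ l, ε ≤ e l := by
  classical
  rcases isEmpty_or_nonempty (Fin m) with h | h
  · exact ⟨1, one_pos, fun l => h.elim l⟩
  · obtain ⟨l₀, -, hl₀⟩ := Finset.exists_min_image Finset.univ e Finset.univ_nonempty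
    exact ⟨e l₀, he l₀, fun l => hl₀ l (Finset.mem_univ l)⟩

theorem ladder_steps [FiniteDimensional ℝ V] (C : Set V) (hC : ConeAction ρ C) (k : ℕ)
    (hk : 2 ≤ k) (T' : Set V) (hT' : T' ⊆ C) (hT'c : IsOpen (C \ T')) (hT'con : Conic T')
    (hT'inv : InvSet ρ T') (F : V → ℝ) (hF : ContinuousOn F (C \ T'))
    (hFcon : ∀ x ∈ C, ∀ t : ℝ, 0 < t → F (t • x) = F x)
    (hFinv : ∀ g : G, ∀ x ∈ C, F (ρ g x) = F x)
    {m : ℕ} (N Q : Fin m → Set V) (φ : Fin m → V → ℝ)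
    (hb : ∀ l, LadderBox A ρ C T' F k (N l) (Q l) (φ l)) :
    ∃ ε > (0 : ℝ), ∀ c : ℝ,
      Ext ρ τ C k (subl C T' F (fun _ => c)) (subl C T' F (fun x => c + ∑ i, ε * φ i x)) := by
  classical
  have hgood := fun l => (hb l).good m φ (fun i => (hb i).smooth) (fun i => (hb i).homog)
  choose e he hgood using hgood
  obtain ⟨ε, hε, hεe⟩ := ladder_exists_min e he
  refine ⟨ε, hε, fun c => ?_⟩
  set a : ℕ → Fin m → ℝ := fun n l => if (l : ℕ) < n then ε else 0 with ha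
  set T : ℕ → V → ℝ := fun n x => c + ∑ i, a n i * φ i x with hT
  have ha0 : ∀ n l, 0 ≤ a n l := by
    intro n l
    simp only [ha]
    split_ifs <;> linarith
  have haε : ∀ n l l', a n l ≤ e l' := by
    intro n l l'
    have h1 := hεe l'
    have h2 := he l'
    simp only [ha]
    split_ifs <;> linarith
  have hTc : ∀ n, ContinuousOn (T n) C := by
    intro n
    apply ContinuousOn.add continuousOn_const
    apply continuousOn_finsetSum
    intro i _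
    exact continuousOn_const.mul (hb i).smooth.continuousOn
  have hThom : ∀ n, ∀ x ∈ C, ∀ t : ℝ, 0 < t → T n (t • x) = T n x := by
    intro n x hx t ht
    simp only [hT]
    congr 1
    exact Finset.sum_congr rfl fun i _ => by rw [(hb i).homog x hx t ht]
  have hTinv : ∀ n, ∀ g : G, ∀ x, T n (ρ g x) = T n x := by
    intro n g x
    simp only [hT]
    congr 1
    exact Finset.sum_congr rfl fun i _ => by rw [(hb i).inv g x]
  have hTsucc : ∀ n (hn : n < m) x, T (n + 1) x = T n x + ε * φ ⟨n, hn⟩ x := by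
    intro n hn x
    have h1 : ∀ i : Fin m, a (n + 1) i = a n i + if i = ⟨n, hn⟩ then ε else 0 := by
      intro i
      simp only [ha, Fin.ext_iff]
      by_cases h1 : (i : ℕ) < n
      · have h2 : (i : ℕ) < n + 1 := by omega
        have h3 : (i : ℕ) ≠ n := by omega
        simp [h1, h2, h3]
      · by_cases h3 : (i : ℕ) = n
        · simp [h3]
        · have h2 : ¬ (i : ℕ) < n + 1 := by omega
          simp [h1, h2, h3]
    simp only [hT, h1, add_mul, Finset.sum_add_distrib, ite_mul, zero_mul, Finset.sum_ite_eq',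
      Finset.mem_univ, if_true]
    ring
  set K : ℕ → Set V := fun n => subl C T' F (T n) with hK
  have hKC : ∀ n, K n ⊆ C := by
    rintro n x (hx | hx)
    · exact hT' hx
    · exact hx.1
  have hKopen : ∀ n, IsOpen (C \ K n) := by
    intro n
    have h1 : C \ K n = (C \ T') ∩ (fun x => F x - T n x) ⁻¹' (Ioi 0) := by
      ext x
      simp only [hK, subl, mem_sdiff, mem_union, mem_ofPred_eq, mem_inter_iff, mem_preimage,
        mem_Ioi, sub_pos, not_or, not_and, not_le]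
      tauto
    rw [h1]
    exact (hF.sub ((hTc n).mono sdiff_subset)).isOpen_inter_preimage hT'c isOpen_Ioi
  have hKcon : ∀ n, Conic (K n) := by
    rintro n x (hx | hx) t ht
    · exact Or.inl (hT'con x hx t ht)
    · refine Or.inr ⟨hC.conic x hx.1 t ht, ?_⟩
      rw [hFcon x hx.1 t ht, hThom n x hx.1 t ht]
      exact hx.2
  have hKinv : ∀ n, InvSet ρ (K n) := by
    rintro n g x (hx | hx)
    · exact Or.inl (hT'inv g x hx)
    · refine Or.inr ⟨hC.inv g x hx.1, ?_⟩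
      rw [hFinv g x hx.1, hTinv n g x]
      exact hx.2
  have hKK : ∀ n, n < m → K n ⊆ K (n + 1) := by
    rintro n hn x (hx | hx)
    · exact Or.inl hx
    · refine Or.inr ⟨hx.1, hx.2.trans ?_⟩
      rw [hTsucc n hn x]
      have := mul_nonneg hε.le ((hb ⟨n, hn⟩).nonneg x)
      linarith
  have hstep : ∀ n, n < m → Ext ρ τ C k (K n) (K (n + 1)) := by
    intro n hn
    have hbn := hb ⟨n, hn⟩
    refine ext_step ρ τ C hC k hk (K n) (K (n + 1)) (hKC n) (hKC (n + 1)) (hKK n hn) (hKopen n)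
      (hKopen (n + 1)) (hKcon n) (hKcon (n + 1)) (hKinv n) (hKinv (n + 1)) (Q ⟨n, hn⟩)
      hbn.compact (N ⟨n, hn⟩) hbn.isOpen hbn.conic hbn.sub hbn.subN hbn.disj ?_ ?_ ?_
    · intro x hx
      by_cases hxn : x ∈ K n
      · exact Or.inl hxn
      · right
        have hxC : x ∈ C := hKC _ hx
        have hφ : φ ⟨n, hn⟩ x ≠ 0 := by
          intro h0
          apply hxn
          rcases hx with hx | hx
          · exact Or.inl hx
          · refine Or.inr ⟨hx.1, ?_⟩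
            have h2 : F x ≤ T (n + 1) x := hx.2
            rw [hTsucc n hn x, h0, mul_zero, add_zero] at h2
            exact h2
        obtain ⟨g, hg⟩ := hbn.supp x hxC hφ
        exact ⟨g, hKinv (n + 1) g x hx, hg⟩
    · exact hgood ⟨n, hn⟩ c (a (n + 1)) (fun i => ⟨ha0 _ i, haε _ i _⟩) k (by omega) (by omega)
    · exact hgood ⟨n, hn⟩ c (a n) (fun i => ⟨ha0 _ i, haε _ i _⟩) (k - 1) (by omega) (by omega)
  have hall : ∀ n, n ≤ m → K 0 ⊆ K n ∧ Ext ρ τ C k (K 0) (K n) := by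
    intro n
    induction n with
    | zero => exact fun _ => ⟨subset_rfl, ladder_ext_refl ρ τ C k _⟩
    | succ n ih =>
      intro hn
      obtain ⟨h1, h2⟩ := ih (by omega)
      exact ⟨h1.trans (hKK n (by omega)), ladder_ext_trans ρ τ h1 h2 (hstep n (by omega))⟩
  have h0 : K 0 = subl C T' F (fun _ => c) := by
    simp [hK, hT, ha]
  have hm : K m = subl C T' F (fun x => c + ∑ i, ε * φ i x) := by
    have : ∀ i : Fin m, a m i = ε := fun i => by simp [ha]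
    simp only [hK, hT, this]
  rw [← h0, ← hm]
  exact (hall m le_rfl).2

end LadderAux

variable {V : Type*} [NormedAddCommGroup V] [NormedSpace ℝ V] [FiniteDimensional ℝ V]
  {A : Type*} [AddCommGroup A] {G : Type*} [Group G]

/-- If all boundary and outer points have good boxes, then one can pass from level `c` to level
`c + ε`, uniformly for `c ≤ c₁`. -/
theorem exists_uniform_ext (ρ : G →* (V →L[ℝ] V)) (τ : G →* AddMonoid.End A)
    (C : Set V) (hC : ConeAction ρ C) (k : ℕ) (hk : 2 ≤ k)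
    (T' : Set V) (hT' : T' ⊆ C) (hT'c : IsOpen (C \ T')) (hT'con : Conic T')
    (hT'inv : InvSet ρ T') (F : V → ℝ) (hF : ContinuousOn F (C \ T'))
    (hFcon : ∀ x ∈ C, ∀ t : ℝ, 0 < t → F (t • x) = F x) (hFinv : ∀ g : G, ∀ x ∈ C, F (ρ g x) = F x)
    (hprop : ∀ c : ℝ, ∃ Z : Set V, IsCompact Z ∧ Z ⊆ C ∧
      ∀ x ∈ C \ T', F x ≤ c → ∃ g : G, ρ g x ∈ coneOver Z)
    (hbox : ∀ x ∈ C, x ∈ closure (C \ T') → GoodBox A C T' F k x) (c₁ : ℝ) :
    ∃ ε > (0 : ℝ), ∀ c ≤ c₁,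
      Ext ρ τ C k (subl C T' F (fun _ => c)) (subl C T' F (fun _ => c + ε)) := by
  classical
  obtain ⟨Z, hZ, hZC, hZcov⟩ := hprop (c₁ + 1)
  have hZ'c : IsCompact (Z ∩ closure (C \ T')) := hZ.inter_right isClosed_closure
  have hdata : ∀ y ∈ Z ∩ closure (C \ T'), ∃ (N Q : Set V) (φ : V → ℝ),
      LadderBox A ρ C T' F k N Q φ ∧ 0 < φ y := by
    rintro y ⟨hyZ, hyc⟩
    obtain ⟨N, hNo, hNc, hyN, hNC, hNd⟩ := ladder_exists_nbhd ρ C hC y (hZC hyZ)
    obtain ⟨Q, hQ, hQN, hyQ, hgood⟩ := hbox y (hZC hyZ) hyc N hNo hNc hyN hNC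
    have hsub : interior (coneOver Q) ⊆ C :=
      interior_subset.trans (ladder_coneOver_subset hC.conic (hQN.trans hNC))
    obtain ⟨φ, h1, h2, h3, h4, h5, h6⟩ := exists_bump ρ C hC y (hZC hyZ) (interior (coneOver Q))
      isOpen_interior (ladder_conic_interior (ladder_conic_coneOver Q)) hyQ hsub
    refine ⟨N, Q, φ, ⟨hNo, hNc, hNC, hNd, hQ, hQN, hgood, h1, h2, h3, h4, ?_⟩, h5⟩
    intro x hx hφ
    obtain ⟨g, hg⟩ := h6 x hx hφ
    exact ⟨g, interior_subset hg⟩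
  choose! N Q φ hLB hpos using hdata
  obtain ⟨t, htZ, htcov⟩ := hZ'c.elim_nhds_subcover (fun y => {x ∈ C | 0 < φ y x}) (by
    intro y hy
    have h1 : IsOpen (C ∩ (φ y) ⁻¹' (Ioi 0)) :=
      (hLB y hy).smooth.continuousOn.isOpen_inter_preimage hC.isOpen isOpen_Ioi
    exact h1.mem_nhds ⟨hZC hy.1, hpos y hy⟩)
  set m := t.card with hm
  set p : Fin m → V := fun l => ((t.equivFin.symm l : t) : V) with hp
  have hpZ : ∀ l, p l ∈ Z ∩ closure (C \ T') := fun l => htZ _ (t.equivFin.symm l).2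
  obtain ⟨ε', hε', hext⟩ := ladder_steps ρ τ C hC k hk T' hT' hT'c hT'con hT'inv F hF hFcon hFinv
    (fun l => N (p l)) (fun l => Q (p l)) (fun l => φ (p l)) (fun l => hLB (p l) (hpZ l))
  have hcontΦ : ContinuousOn (fun x => ∑ l, φ (p l) x) (Z ∩ closure (C \ T')) := by
    apply continuousOn_finsetSum
    intro l _
    exact (hLB (p l) (hpZ l)).smooth.continuousOn.mono (inter_subset_left.trans hZC)
  have hΦpos : ∀ x ∈ Z ∩ closure (C \ T'), 0 < ∑ l, φ (p l) x := by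
    intro x hx
    have h1 := htcov hx
    rw [mem_iUnion₂] at h1
    obtain ⟨y, hyt, -, hyx⟩ := h1
    apply Finset.sum_pos' (fun l _ => (hLB (p l) (hpZ l)).nonneg x)
    refine ⟨t.equivFin ⟨y, hyt⟩, Finset.mem_univ _, ?_⟩
    simpa [hp] using hyx
  obtain ⟨δ, hδ, hδle⟩ := hZ'c.exists_forall_le' hcontΦ hΦpos
  refine ⟨min (ε' * δ) 1, lt_min (mul_pos hε' hδ) one_pos, fun c hc => ?_⟩
  refine ladder_ext_mono ρ τ ?_ (hext c)
  rintro x (hx | hx)
  · exact Or.inl hx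
  · by_cases hxT : x ∈ T'
    · exact Or.inl hxT
    · right
      refine ⟨hx.1, ?_⟩
      have hFx : F x ≤ c + min (ε' * δ) 1 := hx.2
      have h1 : F x ≤ c₁ + 1 := by
        have := min_le_right (ε' * δ) 1
        linarith
      obtain ⟨g, s, hs, y, hyZ, hgy⟩ := hZcov x ⟨hx.1, hxT⟩ h1
      have hgx : ρ g x ∉ T' := by
        intro hgx
        apply hxT
        have h2 := hT'inv g⁻¹ _ hgx
        have h3 : ρ g⁻¹ (ρ g x) = x := by
          have := congrArg (fun f : V →L[ℝ] V => f x) (ρ.map_mul g⁻¹ g)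
          simpa using this.symm
        rwa [h3] at h2
      have hyT : y ∉ T' := by
        intro hy
        apply hgx
        rw [hgy]
        exact hT'con y hy s hs
      have hyZ' : y ∈ Z ∩ closure (C \ T') := ⟨hyZ, subset_closure ⟨hZC hyZ, hyT⟩⟩
      have hΦx : ∑ l, φ (p l) x = ∑ l, φ (p l) y := by
        apply Finset.sum_congr rfl
        intro l _
        rw [← (hLB (p l) (hpZ l)).inv g x, hgy, (hLB (p l) (hpZ l)).homog y (hZC hyZ) s hs]
      have h4 := hδle y hyZ'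
      have h5 := min_le_left (ε' * δ) 1
      have h6 : ε' * δ ≤ ε' * ∑ l, φ (p l) y := mul_le_mul_of_nonneg_left h4 hε'.le
      show F x ≤ c + ∑ l, ε' * φ (p l) x
      rw [← Finset.mul_sum, hΦx]
      linarith

end Pool.Agent.MP_8db1a4_gt
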