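import Pool.Agent.MP_8db1a4_gt.FamBase
import Pool.Agent.MP_8db1a4_gt.Exhaust
import Pool.Agent.MP_8db1a4_gt.Ladder
import Pool.Agent.MP_8db1a4_gt.BoxI
import Pool.Agent.MP_8db1a4_gt.BoxII

set_option autoImplicit false

/-! [KAP-M5] the Morse theorem (assembly of the topology part of MP_8db1a4_gt). -/

namespace Pool.Agent.MP_8db1a4_gt

open Set

section ExtLemmas

variable {V : Type*} [NormedAddCommGroup V] [NormedSpace ℝ V] {A : Type*} [AddCommGroup A]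
  {G : Type*} [Group G] {ρ : G →* (V →L[ℝ] V)} {τ : G →* AddMonoid.End A} {C : Set V} {k : ℕ}

theorem Ext.refl (K : Set V) : Ext ρ τ C k K K := by
  intro z _ _ U hUo hUc hUi hUC hKU b hb hdb
  exact ⟨U, hUo, hUc, hUi, hUC, hKU, b, hb, hdb, U, hUo, hUc, hUi, hKU, fun _ _ => rfl⟩

theorem Ext.mono {K K' K'' : Set V} (h : Ext ρ τ C k K K'') (hK : K' ⊆ K'') :
    Ext ρ τ C k K K' := by
  intro z hz hdz U hUo hUc hUi hUC hKU b hb hdb
  obtain ⟨U', h1, h2, h3, h4, h5, b', h6, h7, h8⟩ := h z hz hdz U hUo hUc hUi hUC hKU b hb hdb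
  exact ⟨U', h1, h2, h3, h4, hK.trans h5, b', h6, h7, h8⟩

theorem Ext.trans {K K' K'' : Set V} (hKK' : K ⊆ K') (h : Ext ρ τ C k K K')
    (h' : Ext ρ τ C k K' K'') : Ext ρ τ C k K K'' := by
  intro z hz hdz U hUo hUc hUi hUC hKU b hb hdb
  obtain ⟨U', h1, h2, h3, h4, h5, b', h6, h7, W, w1, w2, w3, w4, w5⟩ :=
    h z hz hdz U hUo hUc hUi hUC hKU b hb hdb
  obtain ⟨U'', g1, g2, g3, g4, g5, b'', g6, g7, W', v1, v2, v3, v4, v5⟩ :=
    h' z hz hdz U' h1 h2 h3 h4 h5 b' h6 h7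
  refine ⟨U'', g1, g2, g3, g4, g5, b'', g6, g7, W ∩ W', w1.inter v1, ?_, ?_, ?_, ?_⟩
  · intro x hx t ht
    exact ⟨w2 x hx.1 t ht, v2 x hx.2 t ht⟩
  · intro g x hx
    exact ⟨w3 g x hx.1, v3 g x hx.2⟩
  · exact subset_inter w4 (hKK'.trans v4)
  · intro σ hσ
    rw [v5 σ (hσ.trans inter_subset_right), w5 σ (hσ.trans inter_subset_left)]

end ExtLemmas

theorem subl_mono {V : Type*} (C T' : Set V) (F : V → ℝ) {a b : ℝ} (hab : a ≤ b) :
    (T' ∪ {x ∈ C | F x ≤ a} : Set V) ⊆ T' ∪ {x ∈ C | F x ≤ b} :=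
  union_subset_union_right _ fun _ hx => ⟨hx.1, hx.2.trans hab⟩

variable {V : Type*} [NormedAddCommGroup V] [NormedSpace ℝ V] [FiniteDimensional ℝ V]
  {A : Type*} [AddCommGroup A] {G : Type*} [Group G]

theorem morse (ρ : G →* (V →L[ℝ] V)) (τ : G →* AddMonoid.End A)
    (htf : ∀ g : G, ∀ n : ℕ, 0 < n → g ^ n = 1 → g = 1)
    (C : Set V) (hC : ConeAction ρ C) (k : ℕ) (hk : 2 ≤ k)
    {ι : Type*} [MulAction G ι] (T U : ι → Set V) (hTU : ∀ i, T i ⊆ U i) (hUC : ∀ i, U i ⊆ C)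
    (hopen : ∀ i, IsOpen (U i)) (hconv : ∀ i, Convex ℝ (U i)) (hUcon : ∀ i, Conic (U i))
    (hdisj : ∀ i j, i ≠ j → Disjoint (U i) (U j))
    (hact : ∀ (g : G) (i : ι), ∀ x ∈ U i, ρ g x ∈ U (g • i))
    (hactT : ∀ (g : G) (i : ι), ∀ x ∈ T i, ρ g x ∈ T (g • i))
    (hcyc : ∀ i : ι, IsCyclic (MulAction.stabilizer G i))
    (hTcon : ∀ i, Conic (T i)) (hTc : IsOpen (C \ ⋃ i, T i))
    (F : V → ℝ) (hF : ContinuousOn F (C \ ⋃ i, T i))
    (hFcon : ∀ x ∈ C, ∀ t : ℝ, 0 < t → F (t • x) = F x) (hFinv : ∀ g : G, ∀ x ∈ C, F (ρ g x) = F x)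
    (hFlow : ∃ c₀ : ℝ, ∀ x ∈ C \ ⋃ i, T i, c₀ < F x)
    (hbdd : ∀ Z : Set V, IsCompact Z → Z ⊆ C → ∃ c : ℝ, ∀ x ∈ Z \ ⋃ i, T i, F x ≤ c)
    (hprop : ∀ c : ℝ, ∃ Z : Set V, IsCompact Z ∧ Z ⊆ C ∧
      ∀ x ∈ C \ ⋃ i, T i, F x ≤ c → ∃ g : G, ρ g x ∈ coneOver Z)
    (hI : ∀ x ∈ C \ ⋃ i, T i, TypeI C (⋃ i, T i) F k x)
    (hII : ∀ x ∈ ⋃ i, T i, x ∈ closure (C \ ⋃ i, T i) → TypeII C (⋃ i, T i) F x)
    (z : (Fin (k + 1) → V) → A) (hz : Equivar ρ τ z) (hdz : EqOnS C (dC z) 0) :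
    ∃ b : (Fin k → V) → A, Equivar ρ τ b ∧ EqOnS C (dC b) z := by
  classical
  -- the set `T' = ⋃ T i`
  set T' : Set V := ⋃ i, T i with hT'def
  have hT'C : T' ⊆ C := iUnion_subset fun i => (hTU i).trans (hUC i)
  have hT'con : Conic T' := by
    intro x hx t ht
    obtain ⟨i, hi⟩ := mem_iUnion.mp hx
    exact mem_iUnion.mpr ⟨i, hTcon i x hi t ht⟩
  have hT'inv : InvSet ρ T' := by
    intro g x hx
    obtain ⟨i, hi⟩ := mem_iUnion.mp hx
    exact mem_iUnion.mpr ⟨g • i, hactT g i x hi⟩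
  -- boxes
  have hbox : ∀ x ∈ C, x ∈ closure (C \ T') → GoodBox A C T' F k x := by
    intro x hxC hx
    by_cases hxT : x ∈ T'
    · exact goodBox_of_typeII C T' hC.isOpen hC.convex hC.conic hC.zero_notMem hT'C hTc hT'con F hF
        hFcon k hk x hxT (hII x hxT hx)
    · exact goodBox_of_typeI C T' hC.isOpen hC.convex hC.conic hC.zero_notMem hT'C hTc hT'con F hF
        hFcon k hk x ⟨hxC, hxT⟩ (hI x ⟨hxC, hxT⟩)
  obtain ⟨c₀, hc₀⟩ := hFlow
  -- one unit step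
  have hstep : ∀ m : ℕ, Ext ρ τ C k (subl C T' F (fun _ => c₀ + m))
      (subl C T' F (fun _ => c₀ + (m + 1 : ℕ))) := by
    intro m
    obtain ⟨ε, hε, hext⟩ := exists_uniform_ext (A := A) ρ τ C hC k hk T' hT'C hTc hT'con hT'inv F hF
      hFcon hFinv hprop hbox (c₀ + m + 1)
    -- `n` small steps
    have hn : ∀ n : ℕ, (n : ℝ) * ε < 1 + ε → Ext ρ τ C k (subl C T' F (fun _ => c₀ + m))
        (subl C T' F (fun _ => c₀ + m + n * ε)) := by
      intro n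
      induction n with
      | zero =>
        intro _
        have : (fun _ : V => c₀ + (m : ℝ) + ((0 : ℕ) : ℝ) * ε) = fun _ => c₀ + (m : ℝ) := by
          funext _; simp
        rw [this]
        exact Ext.refl _
      | succ n ih =>
        intro hlt
        have hlt' : (n : ℝ) * ε < 1 := by
          push_cast at hlt
          nlinarith
        have h1 := ih (by linarith)
        have h2 := hext (c₀ + m + n * ε) (by linarith)
        have h3 : (fun _ : V => c₀ + (m : ℝ) + (n : ℝ) * ε + ε) =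
            fun _ => c₀ + (m : ℝ) + ((n + 1 : ℕ) : ℝ) * ε := by
          funext _; push_cast; ring
        rw [h3] at h2
        refine Ext.trans ?_ h1 h2
        refine subl_mono C T' F ?_
        have : 0 ≤ (n : ℝ) * ε := by positivity
        linarith
    -- choose the number of steps
    obtain ⟨n, hn1, hn2⟩ : ∃ n : ℕ, 1 ≤ (n : ℝ) * ε ∧ (n : ℝ) * ε < 1 + ε := by
      refine ⟨⌈1 / ε⌉₊, ?_, ?_⟩
      · have := Nat.le_ceil (1 / ε)
        calc (1 : ℝ) = 1 / ε * ε := by field_simp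
          _ ≤ _ := by gcongr
      · have := Nat.ceil_lt_add_one (a := 1 / ε) (by positivity)
        calc (⌈1 / ε⌉₊ : ℝ) * ε < (1 / ε + 1) * ε := by gcongr
          _ = 1 + ε := by field_simp
    refine Ext.mono (hn n hn2) ?_
    refine subl_mono C T' F ?_
    push_cast
    linarith
  -- base
  have hbase : ∃ U' : Set V, IsOpen U' ∧ Conic U' ∧ InvSet ρ U' ∧ U' ⊆ C ∧
      subl C T' F (fun _ => c₀ + (0 : ℕ)) ⊆ U' ∧
      ∃ b : (Fin k → V) → A, Equivar ρ τ b ∧ EqOnS U' (dC b) z := by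
    have hUC' : (⋃ i, U i) ⊆ C := iUnion_subset hUC
    refine ⟨⋃ i, U i, isOpen_iUnion hopen, ?_, ?_, hUC', ?_, ?_⟩
    · intro x hx t ht
      obtain ⟨i, hi⟩ := mem_iUnion.mp hx
      exact mem_iUnion.mpr ⟨i, hUcon i x hi t ht⟩
    · intro g x hx
      obtain ⟨i, hi⟩ := mem_iUnion.mp hx
      exact mem_iUnion.mpr ⟨g • i, hact g i x hi⟩
    · have hT'U : T' ⊆ ⋃ i, U i := iUnion_mono hTU
      rintro x (hx | ⟨hxC, hx⟩)
      · exact hT'U hx
      · by_contra hxU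
        have hxT : x ∉ T' := fun h => hxU (hT'U h)
        have := hc₀ x ⟨hxC, hxT⟩
        simp only [Nat.cast_zero, add_zero] at hx
        linarith
    · exact family_base htf ρ τ U hopen hconv hdisj hact hcyc
        (fun g hg i x hx h => hC.free g hg x (hUC i hx) 1 (by rw [one_smul]; exact h)) k hk z hz
        (fun σ hσ => hdz σ (hσ.trans hUC'))
  refine exhaust ρ τ C hC k (by omega) (fun m => subl C T' F (fun _ => c₀ + (m : ℕ))) ?_ hstep ?_ z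
    hz hdz hbase
  · intro m n hmn
    refine subl_mono C T' F ?_
    have : (m : ℝ) ≤ n := by exact_mod_cast hmn
    linarith
  · intro Z hZC hZ
    obtain ⟨c, hc⟩ := hbdd Z hZ hZC
    obtain ⟨m, hm⟩ := exists_nat_ge (c - c₀)
    refine ⟨m, fun x hx => ?_⟩
    by_cases hxT : x ∈ T'
    · exact Or.inl hxT
    · refine Or.inr ⟨hZC hx, ?_⟩
      have := hc x ⟨hx, hxT⟩
      show F x ≤ c₀ + (m : ℝ)
      linarith

end Pool.Agent.MP_8db1a4_gt
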