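import Pool.Agent.MP_8db1a4_gt.TopDefs

set_option autoImplicit false

/-! [K-T8] from equivariant cochains on a cone to Mathlib group cohomology. -/

namespace Pool.Agent.MP_8db1a4_gt

open Set

namespace T8

open groupCohomology CategoryTheory

/-- If every inhomogeneous `(n+1)`-cocycle is a coboundary then the cohomology vanishes. -/
theorem subsingleton_of_forall {G : Type} [Group G] (M : Rep.{0, 0, 0} ℤ G) (n : ℕ)
    (h : ∀ f : (Fin (n + 1) → G) → M, inhomogeneousCochains.d M (n + 1) f = 0 →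
      ∃ β : (Fin n → G) → M, inhomogeneousCochains.d M n β = f) :
    ¬ Nontrivial (groupCohomology M (n + 1)) := by
  rw [not_nontrivial_iff_subsingleton]
  refine subsingleton_of_forall_eq 0 ?_
  intro y
  induction y using groupCohomology_induction_on with
  | h x =>
  set f : (Fin (n + 1) → G) → M := iCocycles M (n + 1) x with hf
  have hd : inhomogeneousCochains.d M (n + 1) f = 0 := by
    have h1 := (inhomogeneousCochains M).iCycles_d (n + 1) (n + 2)
    rw [groupCohomology.inhomogeneousCochains.d_def] at h1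
    exact congrArg (fun φ => (ConcreteCategory.hom φ) x) h1
  obtain ⟨β, hβ⟩ := h f hd
  have hx : x = toCocycles M n (n + 1) β := by
    have hinj : Function.Injective (iCocycles M (n + 1)) :=
      (ModuleCat.mono_iff_injective _).1 inferInstance
    apply hinj
    have h1 := (inhomogeneousCochains M).toCycles_i n (n + 1)
    rw [groupCohomology.inhomogeneousCochains.d_def] at h1
    have h3 : (ConcreteCategory.hom (iCocycles M (n + 1)))
        ((ConcreteCategory.hom (toCocycles M n (n + 1))) β) =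
        inhomogeneousCochains.d M n β :=
      congrArg (fun φ => (ConcreteCategory.hom φ) β) h1
    rw [h3, hβ]
  rw [hx]
  have h1 := (inhomogeneousCochains M).toCycles_comp_homologyπ n (n + 1)
  exact congrArg (fun φ => (ConcreteCategory.hom φ) β) h1

/-- The coboundary of a homogeneous cochain on a partial product. -/
theorem key {G : Type} [Group G] (M : Rep.{0, 0, 0} ℤ G) (n : ℕ)
    (c : (Fin (n + 1) → G) → M) (hc : ∀ g h, c (fun i => g * h i) = M.ρ g (c h))
    (g : Fin (n + 1) → G) :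
    inhomogeneousCochains.d M n (fun g' => c (Fin.partialProd g')) g =
      ∑ i : Fin (n + 2), (-1 : ℤ) ^ (i : ℕ) • c (fun l => Fin.partialProd g (i.succAbove l)) := by
  rw [inhomogeneousCochains.d_hom_apply, Fin.sum_univ_succ (n := n + 1)]
  congr 1
  · rw [← hc]
    simp only [Fin.val_zero, pow_zero, one_smul]
    congr 1
    funext i
    rw [Fin.succAbove_zero, Fin.partialProd_succ']
    rfl
  · refine Finset.sum_congr rfl fun j _ => ?_
    rw [Fin.partialProd_contractNth]
    exact int_smul_eq_zsmul _ _ _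

/-- The homogeneous cochain attached to an inhomogeneous one. -/
def homog {G : Type} [Group G] (M : Rep.{0, 0, 0} ℤ G) {n : ℕ} (f : (Fin n → G) → M)
    (h : Fin (n + 1) → G) : M :=
  M.ρ (h 0) (f fun i => (h i.castSucc)⁻¹ * h i.succ)

theorem homog_mul {G : Type} [Group G] (M : Rep.{0, 0, 0} ℤ G) {n : ℕ} (f : (Fin n → G) → M)
    (g : G) (h : Fin (n + 1) → G) :
    homog M f (fun i => g * h i) = M.ρ g (homog M f h) := by
  simp only [homog, map_mul, Module.End.mul_apply]
  congr 3
  funext i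
  group

theorem homog_partialProd {G : Type} [Group G] (M : Rep.{0, 0, 0} ℤ G) {n : ℕ}
    (f : (Fin n → G) → M) (g : Fin n → G) : homog M f (Fin.partialProd g) = f g := by
  simp only [homog, Fin.partialProd_zero, map_one, Module.End.one_apply]
  congr 1
  funext i
  rw [Fin.partialProd_right_inv]

theorem homog_cocycle {G : Type} [Group G] (M : Rep.{0, 0, 0} ℤ G) {n : ℕ}
    (f : (Fin n → G) → M) (hf : inhomogeneousCochains.d M n f = 0) (h : Fin (n + 2) → G) :
    ∑ i : Fin (n + 2), (-1 : ℤ) ^ (i : ℕ) • homog M f (fun l => h (i.succAbove l)) = 0 := by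
  have h1 := Fin.partialProd_left_inv h
  set g : Fin (n + 1) → G := fun i => (h i.castSucc)⁻¹ * h i.succ with hg
  have h2 : ∀ i, h i = h 0 * Fin.partialProd g i := by
    intro i
    have := congrFun h1 i
    simpa using this.symm
  have h3 : ∀ i : Fin (n + 2), homog M f (fun l => h (i.succAbove l)) =
      M.ρ (h 0) (homog M f (fun l => Fin.partialProd g (i.succAbove l))) := by
    intro i
    rw [← homog_mul]
    congr 1
    funext l
    exact h2 _
  have h4 : ∑ i : Fin (n + 2), (-1 : ℤ) ^ (i : ℕ) • homog M f (fun l => h (i.succAbove l)) =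
      M.ρ (h 0) (∑ i : Fin (n + 2), (-1 : ℤ) ^ (i : ℕ) •
        homog M f (fun l => Fin.partialProd g (i.succAbove l))) := by
    rw [map_sum]
    refine Finset.sum_congr rfl fun i _ => ?_
    rw [h3, map_zsmul]
  rw [h4, ← key M n (homog M f) (fun g h => homog_mul M f g h) g]
  have h5 : (fun g' => homog M f (Fin.partialProd g')) = f := by
    funext g'
    exact homog_partialProd M f g'
  rw [h5, hf]
  exact map_zero _

/-- A function `φ` from the cone to the group with `φ (g x) = g φ (x)`, and a base point with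
`φ x₀ = 1`. -/
theorem exists_section {V : Type*} [NormedAddCommGroup V] [NormedSpace ℝ V]
    {G : Type} [Group G] (ρ : G →* (V →L[ℝ] V)) (C : Set V) (hne : C.Nonempty)
    (hinv : InvSet ρ C) (hfree : ∀ g : G, g ≠ 1 → ∀ x ∈ C, ρ g x ≠ x) :
    ∃ φ : V → G, (∀ g, ∀ x ∈ C, φ (ρ g x) = g * φ x) ∧ ∃ x₀ ∈ C, φ x₀ = 1 := by
  classical
  have hmul : ∀ (g h : G) (x : V), ρ (g * h) x = ρ g (ρ h x) := by
    intro g h x; rw [map_mul]; rfl
  have hone : ∀ x : V, ρ 1 x = x := by
    intro x; rw [map_one]; rfl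
  let s : Setoid V :=
    { r := fun x y => ∃ g : G, ρ g x = y
      iseqv :=
        { refl := fun x => ⟨1, hone x⟩
          symm := by
            rintro x y ⟨g, rfl⟩
            exact ⟨g⁻¹, by rw [← hmul, inv_mul_cancel, hone]⟩
          trans := by
            rintro x y z ⟨g, rfl⟩ ⟨h, rfl⟩
            exact ⟨h * g, by rw [hmul]⟩ } }
  let r : V → V := fun x => (Quotient.mk s x).out
  have hr : ∀ x, ∃ g : G, ρ g (r x) = x := fun x => Quotient.mk_out (s := s) x
  have hrinv : ∀ (g : G) x, r (ρ g x) = r x := by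
    intro g x
    have : Quotient.mk s (ρ g x) = Quotient.mk s x :=
      (Quotient.sound (s := s) ⟨g, rfl⟩).symm
    simp only [r, this]
  choose φ hφ using hr
  have hrC : ∀ x ∈ C, r x ∈ C := by
    intro x hx
    have h1 : ρ (φ x)⁻¹ x = r x := by
      calc ρ (φ x)⁻¹ x = ρ (φ x)⁻¹ (ρ (φ x) (r x)) := by rw [hφ x]
        _ = r x := by rw [← hmul, inv_mul_cancel, hone]
    rw [← h1]
    exact hinv _ _ hx
  have huniq : ∀ x ∈ C, ∀ g h : G, ρ g x = ρ h x → g = h := by
    intro x hx g h hgh
    by_contra hne'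
    apply hfree (h⁻¹ * g) _ x hx
    · rw [hmul, hgh, ← hmul, inv_mul_cancel, hone]
    · intro h1
      exact hne' (inv_mul_eq_one.1 h1).symm
  refine ⟨φ, ?_, ?_⟩
  · intro g x hx
    apply huniq (r x) (hrC x hx)
    have h1 := hφ (ρ g x)
    rw [hrinv] at h1
    rw [h1, hmul, hφ]
  · obtain ⟨x, hx⟩ := hne
    refine ⟨r x, hrC x hx, ?_⟩
    apply huniq (r x) (hrC x hx)
    have h1 : r (r x) = r x := by
      obtain ⟨g, hg⟩ := (⟨φ x, hφ x⟩ : ∃ g : G, ρ g (r x) = x)
      rw [← hrinv g (r x), hg]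
    have h2 := hφ (r x)
    rw [h1] at h2
    rw [h2, hone]

/-- [K-T8]. -/
theorem not_nontrivial_of_cone {V : Type*} [NormedAddCommGroup V] [NormedSpace ℝ V]
    {G : Type} [Group G] (ρ : G →* (V →L[ℝ] V)) (C : Set V) (hC : ConeAction ρ C)
    (hne : C.Nonempty) (M : Rep.{0, 0, 0} ℤ G) (k : ℕ) (hk : 1 ≤ k)
    (h : ∀ z : (Fin (k + 1) → V) → M, Equivar ρ (repEnd M) z → EqOnS C (dC z) 0 →
      ∃ b : (Fin k → V) → M, Equivar ρ (repEnd M) b ∧ EqOnS C (dC b) z) :
    ¬ Nontrivial (groupCohomology M k) := by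
  classical
  obtain ⟨n, rfl⟩ : ∃ n, k = n + 1 := ⟨k - 1, by omega⟩
  have hfree : ∀ g : G, g ≠ 1 → ∀ x ∈ C, ρ g x ≠ x := by
    intro g hg x hx
    have := hC.free g hg x hx 1
    rwa [one_smul] at this
  obtain ⟨φ, hφ, x₀, hx₀, hφ₀⟩ := exists_section ρ C hne hC.inv hfree
  have hmul : ∀ (g h : G) (x : V), ρ (g * h) x = ρ g (ρ h x) := by
    intro g h x; rw [map_mul]; rfl
  have hone : ∀ x : V, ρ 1 x = x := by
    intro x; rw [map_one]; rfl
  have hCiff : ∀ (g : G) (x : V), ρ g x ∈ C ↔ x ∈ C := by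
    intro g x
    refine ⟨fun h1 => ?_, hC.inv g x⟩
    have := hC.inv g⁻¹ _ h1
    rwa [← hmul, inv_mul_cancel, hone] at this
  refine subsingleton_of_forall M n fun f hf => ?_
  let z : (Fin (n + 1 + 1) → V) → M := fun σ =>
    if ∀ i, σ i ∈ C then homog M f (fun i => φ (σ i)) else 0
  have hz : Equivar ρ (repEnd M) z := by
    intro g σ
    by_cases hσ : ∀ i, σ i ∈ C
    · have hσ' : ∀ i, ρ g (σ i) ∈ C := fun i => hC.inv g _ (hσ i)
      simp only [z, if_pos hσ, if_pos hσ']
      have h1 : (fun i => φ (ρ g (σ i))) = fun i => g * φ (σ i) := by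
        funext i
        exact hφ g _ (hσ i)
      rw [h1, homog_mul]
      rfl
    · have hσ' : ¬ ∀ i, ρ g (σ i) ∈ C := fun h1 => hσ fun i => (hCiff g _).1 (h1 i)
      simp only [z, if_neg hσ, if_neg hσ', map_zero]
  have hdz : EqOnS C (dC z) 0 := by
    intro σ hσ
    have hv : ∀ i, σ i ∈ C := fun i => hσ (subset_convexHull ℝ _ (mem_range_self i))
    have h1 : dC z σ = ∑ i : Fin (n + 1 + 2), (-1 : ℤ) ^ (i : ℕ) •
        homog M f (fun l => φ (σ (i.succAbove l))) := by
      refine Finset.sum_congr rfl fun i _ => ?_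
      have : ∀ l, σ (i.succAbove l) ∈ C := fun l => hv _
      simp only [z, if_pos this]
    rw [h1]
    exact homog_cocycle M f hf (fun l => φ (σ l))
  obtain ⟨b, hb, hdb⟩ := h z hz hdz
  refine ⟨fun g => b (fun i => ρ (Fin.partialProd g i) x₀), ?_⟩
  funext g
  rw [key M n (fun h : Fin (n + 1) → G => b (fun i => ρ (h i) x₀))]
  · have h1 : hull (fun i => ρ (Fin.partialProd g i) x₀) ⊆ C := by
      refine convexHull_min ?_ hC.convex
      rintro _ ⟨i, rfl⟩
      exact hC.inv _ _ hx₀
    have h2 := hdb _ h1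
    have h3 : ∀ i, ρ (Fin.partialProd g i) x₀ ∈ C := fun i => hC.inv _ _ hx₀
    have h4 : z (fun i => ρ (Fin.partialProd g i) x₀) = f g := by
      simp only [z, if_pos h3]
      have h5 : (fun i => φ (ρ (Fin.partialProd g i) x₀)) = Fin.partialProd g := by
        funext i
        rw [hφ _ _ hx₀, hφ₀, mul_one]
      rw [h5, homog_partialProd]
    rw [h4] at h2
    exact h2
  · intro g' h'
    have := hb g' (fun i => ρ (h' i) x₀)
    have h6 : (fun i => ρ (g' * h' i) x₀) = fun i => ρ g' (ρ (h' i) x₀) := by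
      funext i
      exact hmul _ _ _
    simp only [h6]
    exact this

end T8

end Pool.Agent.MP_8db1a4_gt

namespace Pool.Agent.MP_8db1a4_gt

export T8 (not_nontrivial_of_cone)

end Pool.Agent.MP_8db1a4_gt
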