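import Pool.Agent.MP_8db1a4_gt.Geo.A2
import Pool.Agent.MP_8db1a4_gt.Geo.A3
import Pool.Agent.MP_8db1a4_gt.Geo.A4
import Pool.Agent.MP_8db1a4_gt.Geo.B1b
import Pool.Agent.MP_8db1a4_gt.Geo.B1c
import Pool.Agent.MP_8db1a4_gt.Geo.B2
import Pool.Agent.MP_8db1a4_gt.Geo.B3c
import Pool.Agent.MP_8db1a4_gt.Geo.B4e
import Pool.Agent.MP_8db1a4_gt.Geo.B5
import Pool.Agent.MP_8db1a4_gt.Geo.B6
import Pool.Agent.MP_8db1a4_gt.Geo.B7
import Pool.Agent.MP_8db1a4_gt.Geo.S7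
import Pool.Agent.MP_8db1a4_gt.Geo.E1
import Pool.Agent.MP_8db1a4_gt.Geo.E2
import Pool.Agent.MP_8db1a4_gt.Geo.E3
import Pool.Agent.MP_8db1a4_gt.Geo.CM5

set_option autoImplicit false

/-! Final assembly (MP_8db1a4_gt). -/

namespace Pool.Agent.MP_8db1a4_gt

open Set

universe u

theorem tset_anti {G X : Type*} [Group G] [MetricSpace X] (Bs : X → Set G) (s : ℝ)
    (Γ : Subgroup G) {Λ Λ' : ℝ} (h : Λ ≤ Λ') : TSet Bs s Γ Λ' ⊆ TSet Bs s Γ Λ := by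
  rintro x ⟨y, h1, h2, h3⟩
  exact ⟨y, h1, h2, (mul_le_mul_of_nonneg_right h (Real.exp_pos _).le).trans h3⟩

section

variable {n : ℕ} {G : Type u} [Group G] (ρ : G →* (LV n →L[ℝ] LV n))

/-- Index set of the family. -/
def FIdx (ε s' Λ : ℝ) : Type u :=
  {Γ : Subgroup G // Γ ∈ elemSub G ∧ (TSet (smallAt ρ ε) s' Γ Λ).Nonempty}

/-- The family. -/
def FSet (ε s' Λ : ℝ) (i : FIdx ρ ε s' Λ) : Set (Hy n) := TSet (smallAt ρ ε) s' i.1 Λ

end

/-- Conjugation action on the index set. -/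
@[reducible] def fidxAction {n : ℕ} {G : Type*} [Group G] {ρ : G →* (LV n →L[ℝ] LV n)}
    (h : LorAction ρ) {ε : ℝ}
    (hB : letI := hyAction h; SmallSets (X := Hy n) (smallAt ρ ε) (elemSub G)) (s' Λ : ℝ) :
    MulAction G (FIdx ρ ε s' Λ) where
  smul g i := ⟨i.1.map (MulAut.conj g).toMonoidHom, by
    let _ := hyAction h
    have := hy_isometric h
    refine ⟨hB.conjCl _ i.2.1 g, ?_⟩
    obtain ⟨x, hx⟩ := i.2.2
    exact ⟨g • x, tset_smul _ _ hB s' _ Λ g x hx⟩⟩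
  one_smul i := by
    apply Subtype.ext
    show i.1.map (MulAut.conj (1 : G)).toMonoidHom = i.1
    ext x
    simp
  mul_smul g h' i := by
    apply Subtype.ext
    show i.1.map (MulAut.conj (g * h')).toMonoidHom =
      (i.1.map (MulAut.conj h').toMonoidHom).map (MulAut.conj g).toMonoidHom
    rw [Subgroup.map_map]
    congr 1
    ext x
    simp [mul_assoc]

theorem hull_tset {n : ℕ} {G : Type*} [Group G] (Bs : Hy n → Set G) (s' : ℝ) (Γ : Subgroup G)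
    (c₅ : ℝ) (hc₅ : 1 ≤ c₅)
    (hq : ∀ Λ : ℝ, c₅ ≤ Λ → ∀ x₁ ∈ TSet Bs s' Γ Λ, ∀ x₂ ∈ TSet Bs s' Γ Λ,
      ∀ z : Hy n, dist x₁ z + dist z x₂ = dist x₁ x₂ → z ∈ TSet Bs s' Γ (Λ / c₅))
    (Λ : ℝ) (hΛ : c₅ ≤ Λ) :
    hullHy (TSet Bs s' Γ (Λ * c₅ ^ (n + 2))) ⊆ TSet Bs s' Γ Λ := by
  have hc0 : 0 < c₅ := by linarith
  have hΛ0 : 0 < Λ := by linarith
  set 𝒯 : ℕ → Set (Hy n) := fun m =>
    if m ≤ n + 2 then TSet Bs s' Γ (Λ * c₅ ^ (n + 2 - m)) else univ with h𝒯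
  have hmono : Monotone 𝒯 := by
    refine monotone_nat_of_le_succ ?_
    intro m
    simp only [h𝒯]
    by_cases h1 : m + 1 ≤ n + 2
    · rw [if_pos h1, if_pos (by omega)]
      apply tset_anti
      apply mul_le_mul_of_nonneg_left _ hΛ0.le
      exact pow_le_pow_right₀ hc₅ (by omega)
    · rw [if_neg h1]
      exact subset_univ _
  have hseg : ∀ i, ∀ x₁ ∈ 𝒯 i, ∀ x₂ ∈ 𝒯 i, ∀ z : Hy n, dist x₁ z + dist z x₂ = dist x₁ x₂ →
      z ∈ 𝒯 (i + 1) := by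
    intro m x₁ hx₁ x₂ hx₂ z hz
    simp only [h𝒯] at hx₁ hx₂ ⊢
    by_cases h1 : m + 1 ≤ n + 2
    · rw [if_pos h1]
      rw [if_pos (by omega : m ≤ n + 2)] at hx₁ hx₂
      have h2 : c₅ ≤ Λ * c₅ ^ (n + 2 - m) := by
        have : (1 : ℝ) ≤ c₅ ^ (n + 2 - m) := one_le_pow₀ hc₅
        nlinarith
      have h3 := hq _ h2 x₁ hx₁ x₂ hx₂ z hz
      have h4 : Λ * c₅ ^ (n + 2 - m) / c₅ = Λ * c₅ ^ (n + 2 - (m + 1)) := by
        have h5 : n + 2 - m = (n + 2 - (m + 1)) + 1 := by omega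
        rw [h5, pow_succ]
        field_simp
      rwa [h4] at h3
    · rw [if_neg h1]
      exact mem_univ _
  have h := hull_in_steps 𝒯 hmono hseg
  have e0 : 𝒯 0 = TSet Bs s' Γ (Λ * c₅ ^ (n + 2)) := by simp [h𝒯]
  have e1 : 𝒯 (n + 2) = TSet Bs s' Γ Λ := by simp [h𝒯]
  rwa [e0, e1] at h

theorem exists_familyData {n : ℕ} {G : Type u} [Group G] (ρ : G →* (LV n →L[ℝ] LV n))
    (h : LorAction ρ) (hd : LorDiscrete ρ) (htf : TorsFree G) (hZ : NoZ2 G) (hG : ¬ IsCyclic G)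
    (k : ℕ) (hk : 2 ≤ k) (hdim : dimH (conLim ρ) < ENNReal.ofReal ((k : ℝ) - 1)) :
    ∃ (ι : Type u) (_ : MulAction G ι) (s₀ s' s κ : ℝ) (𝒯 : ι → Set (Hy n)),
      FamilyData ρ h s₀ s' s κ k 𝒯 := by
  classical
  let _ := hyAction h
  have := hy_isometric h
  have hcyc : ∀ g : G, g ≠ 1 → IsCyclic (Subgroup.centralizer {g}) :=
    fun g hg => centralizer_isCyclic ρ h hd htf hZ g hg
  obtain ⟨g₁, g₂, hne⟩ := exists_not_commute hG hcyc
  obtain ⟨c₀, hc₀⟩ := exists_transversal ρ h g₁ g₂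
    (fun ξ hξ hξ0 a b h₁ h₂ => no_common_fixed ρ h hd htf hcyc g₁ g₂ hne ξ hξ hξ0 a b h₁ h₂)
  have hF : ∀ z w : Hy n, ∃ a ∈ ({1, g₁, g₂} : Finset G), gp (Ohy n) z (a • w) ≤ c₀ := by
    intro z w
    obtain ⟨a, ha, h1⟩ := hc₀ z w
    exact ⟨a, by simpa using ha, h1⟩
  have hk' : (2 : ℝ) ≤ k := by exact_mod_cast hk
  -- exponents
  obtain ⟨s₀, hs₀0, hs₀1, hs₀2⟩ := ENNReal.lt_iff_exists_real_btwn.mp hdim
  have hs₀pos : 0 < s₀ := by
    rcases eq_or_lt_of_le hs₀0 with h0 | h0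
    · rw [← h0] at hs₀1; simp at hs₀1
    · exact h0
  have hs₀lt : s₀ < (k : ℝ) - 1 := by
    rwa [ENNReal.ofReal_lt_ofReal_iff (by linarith)] at hs₀2
  have hgr : GrowthLE G (Ohy n) s₀ := growth_of_dimH ρ h hd _ c₀ hF s₀ hs₀pos hs₀1
  set w : ℝ := ((k : ℝ) - 1 - s₀) / 3 with hw
  have hwpos : 0 < w := by rw [hw]; linarith
  set s' : ℝ := s₀ + w with hs'
  set s : ℝ := s₀ + 2 * w with hs
  have hsk : s + 1 < k := by rw [hs, hw]; linarith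
  have hs1 : 0 < s := by rw [hs]; linarith
  set κ : ℝ := min (1 / 4) (s * (k - 1 - s) / (8 * (s + 1))) with hκ
  have hκpos : 0 < κ := by
    rw [hκ]
    apply lt_min (by norm_num)
    apply div_pos (mul_pos hs1 (by linarith)) (by linarith)
  have hκs : κ * (8 * (s + 1)) ≤ s * (k - 1 - s) := by
    have h1 : κ ≤ s * (k - 1 - s) / (8 * (s + 1)) := min_le_right _ _
    have h2 : 0 < 8 * (s + 1) := by linarith
    rwa [le_div_iff₀ h2] at h1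
  obtain ⟨ε, hε, hB⟩ := exists_smallSets ρ h hd htf hcyc
  have hX := hy_hypGeo n
  have hprop := hy_properAct h hd
  obtain ⟨Λ₀, hΛ₀1, hΛ₀⟩ := tset_disjoint hX hprop (smallAt ρ ε) (elemSub G) hB (Ohy n) s₀ s'
    hs₀0 (by rw [hs']; linarith) hgr
  obtain ⟨c₅, hc₅1, hc₅⟩ := tset_quasiconvex hX hprop (smallAt ρ ε) (elemSub G) hB s'
    (by rw [hs']; linarith)
  have hs'0 : 0 ≤ s' := by rw [hs']; linarith
  set Λm : ℝ := max Λ₀ c₅ * Real.exp (2 * s' * (colL κ + 2)) with hΛm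
  have hcolL : 0 ≤ colL κ := by
    unfold colL
    rw [Real.arsinh_nonneg_iff]
    positivity
  have hexp1 : 1 ≤ Real.exp (2 * s' * (colL κ + 2)) := by
    apply Real.one_le_exp
    positivity
  have hΛmc : c₅ ≤ Λm := by
    rw [hΛm]
    have : c₅ ≤ max Λ₀ c₅ := le_max_right _ _
    nlinarith [le_max_left Λ₀ c₅]
  set Λ₁ : ℝ := Λm * c₅ ^ (n + 2) with hΛ₁
  have hpow : (1 : ℝ) ≤ c₅ ^ (n + 2) := one_le_pow₀ hc₅1
  have hΛ₁1 : 1 ≤ Λ₁ := by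
    rw [hΛ₁]
    nlinarith
  have hhull : ∀ Γ ∈ elemSub G, hullHy (TSet (smallAt ρ ε) s' Γ Λ₁) ⊆ TSet (smallAt ρ ε) s' Γ Λm :=
    fun Γ hΓ => hull_tset (smallAt ρ ε) s' Γ c₅ hc₅1 (hc₅ Γ hΓ) Λm hΛmc
  have hsep0 : ∀ Γ ∈ elemSub G, ∀ Γ' ∈ elemSub G, Γ ≠ Γ' → ∀ x : Hy n,
      ∀ y ∈ hullHy (TSet (smallAt ρ ε) s' Γ Λ₁), ∀ y' ∈ hullHy (TSet (smallAt ρ ε) s' Γ' Λ₁),
      dist x y ≤ colL κ + 2 → dist x y' ≤ colL κ + 2 → False := by
    intro Γ hΓ Γ' hΓ' hΓΓ x y hy y' hy' hxy hxy'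
    have hΛm0 : 0 ≤ Λm := by linarith
    have h1 := tset_nbhd (smallAt ρ ε) s' hs'0 Γ Λm (colL κ + 2) hΛm0 y x (hhull Γ hΓ hy)
      (by rw [dist_comm]; exact hxy)
    have h2 := tset_nbhd (smallAt ρ ε) s' hs'0 Γ' Λm (colL κ + 2) hΛm0 y' x (hhull Γ' hΓ' hy')
      (by rw [dist_comm]; exact hxy')
    have e : Λm * Real.exp (-(2 * s' * (colL κ + 2))) = max Λ₀ c₅ := by
      rw [hΛm, mul_assoc, ← Real.exp_add, add_neg_cancel, Real.exp_zero, mul_one]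
    rw [e] at h1 h2
    exact Set.disjoint_left.mp (hΛ₀ _ (le_max_left _ _) Γ hΓ Γ' hΓ' hΓΓ) h1 h2
  let act := fidxAction h hB s' Λ₁
  refine ⟨FIdx ρ ε s' Λ₁, act, s₀, s', s, κ, FSet ρ ε s' Λ₁, ?_⟩
  have hsmul : ∀ (g : G) (i : FIdx ρ ε s' Λ₁), (g • i).1 = i.1.map (MulAut.conj g).toMonoidHom :=
    fun g i => rfl
  refine
    { disc := hd
      tf := htf
      hk := hk
      hs₀ := hs₀0
      hs₀s' := by rw [hs']; linarith
      hs's := by rw [hs', hs]; linarith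
      hsk := hsk
      hκ := hκpos
      hκ4 := min_le_left _ _
      hκs := hκs
      growth := hgr
      nonempty := fun i => i.2.2
      equiv := ?_
      sep := ?_
      far := ?_
      decay := ?_
      stab := ?_ }
  · intro g i x hx
    exact tset_smul (smallAt ρ ε) (elemSub G) hB s' i.1 Λ₁ g x hx
  · intro i j hij x y hy y' hy' hxy hxy'
    exact hsep0 i.1 i.2.1 j.1 j.2.1 (fun e => hij (Subtype.ext e)) x y hy y' hy' hxy hxy'
  · intro i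
    -- an element outside of Γ
    obtain ⟨g, hg⟩ : ∃ g : G, g ∉ i.1 := by
      by_contra hcon
      push Not at hcon
      apply hG
      have htop : i.1 = ⊤ := by
        ext x
        simp [hcon x]
      obtain ⟨a, ha, hΓ⟩ := i.2.1
      have h1 := hcyc a ha
      rw [← hΓ, htop] at h1
      obtain ⟨⟨c, hc⟩, hc'⟩ := h1
      refine ⟨c, fun x => ?_⟩
      obtain ⟨m, hm⟩ := Subgroup.mem_zpowers_iff.mp (hc' ⟨x, Subgroup.mem_top x⟩)
      exact Subgroup.mem_zpowers_iff.mpr ⟨m, by simpa using congrArg Subtype.val hm⟩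
    obtain ⟨j, hj⟩ : ∃ j : FIdx ρ ε s' Λ₁, j = act.smul g i := ⟨_, rfl⟩
    have hne' : j ≠ i := by
      intro e
      apply hg
      apply elemSub_normalizer htf hcyc i.1 i.2.1 g
      exact congrArg Subtype.val (hj.symm.trans e)
    obtain ⟨x, hx⟩ := j.2.2
    refine ⟨x, fun y hy => ?_⟩
    by_contra hcon
    push Not at hcon
    have hxh : x ∈ hullHy (TSet (smallAt ρ ε) s' j.1 Λ₁) :=
      ⟨1, one_pos, by
        rw [one_smul]
        exact subset_convexHull ℝ _ ⟨x, hx, rfl⟩⟩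
    refine hsep0 i.1 i.2.1 j.1 j.2.1 (fun e => hne' (Subtype.ext e.symm)) x y hy x hxh
      (by linarith) (by rw [dist_self]; linarith)
  · obtain ⟨C, hC, h1⟩ := count_outside hX (hy_packing n) hprop (smallAt ρ ε) (elemSub G) hB
      (Ohy n) s₀ s' hs₀0 (by rw [hs']; linarith) hgr Λ₁ hΛ₁1
    refine ⟨C, hC, fun x hx R hR => h1 x ?_ R hR⟩
    intro Γ hΓ hxΓ
    exact hx ⟨Γ, hΓ, ⟨x, hxΓ⟩⟩ hxΓ
  · intro i
    have hsub : @MulAction.stabilizer G (FIdx ρ ε s' Λ₁) _ act i ≤ i.1 := by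
      intro g hg
      apply elemSub_normalizer htf hcyc i.1 i.2.1 g
      have hg' : act.smul g i = i := hg
      exact congrArg Subtype.val hg'
    obtain ⟨a, ha, hΓ⟩ := i.2.1
    have h1 : IsCyclic i.1 := by rw [hΓ]; exact hcyc a ha
    exact isCyclic_of_injective (Subgroup.inclusion hsub) (Subgroup.inclusion_injective _)

theorem vanishing_of_dimH {n : ℕ} {G : Type} [Group G] (ρ : G →* (LV n →L[ℝ] LV n))
    (h : LorAction ρ) (hd : LorDiscrete ρ) (htf : TorsFree G) (hZ : NoZ2 G)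
    (k : ℕ) (hk : 2 ≤ k) (hdim : dimH (conLim ρ) < ENNReal.ofReal ((k : ℝ) - 1))
    (M : Rep.{0, 0, 0} ℤ G) : ¬ Nontrivial (groupCohomology M k) := by
  by_cases hG : IsCyclic G
  · exact cyclic_vanishing G htf M k hk
  · obtain ⟨ι, inst, s₀, s', s, κ, 𝒯, D⟩ := exists_familyData ρ h hd htf hZ hG k hk hdim
    exact not_nontrivial_of_cone ρ (LCone n) (lor_coneAction ρ h hd htf) ⟨_, (Ohy n).mem⟩ M k
      (by omega) (fun z hz hdz => family_vanishing D (repEnd M) z hz hdz)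

end Pool.Agent.MP_8db1a4_gt
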