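import Pool.Agent.MP_8db1a4_gt.Lor

set_option autoImplicit false

/-! The metric of hyperbolic space (MP_8db1a4_gt). -/

namespace Pool.Agent.MP_8db1a4_gt

open Set

variable {n : ℕ}

theorem lor_comm (X Y : LV n) : lor X Y = lor Y X := by
  simp only [lor, real_inner_comm]; ring

theorem lor_add_left (X Y Z : LV n) : lor (X + Y) Z = lor X Z + lor Y Z := by
  simp only [lor, Prod.fst_add, Prod.snd_add, inner_add_left]; ring

theorem lor_add_right (X Y Z : LV n) : lor X (Y + Z) = lor X Y + lor X Z := by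
  simp only [lor, Prod.fst_add, Prod.snd_add, inner_add_right]; ring

theorem lor_smul_left (c : ℝ) (X Y : LV n) : lor (c • X) Y = c * lor X Y := by
  simp only [lor, Prod.smul_fst, Prod.smul_snd, real_inner_smul_left, smul_eq_mul]; ring

theorem lor_smul_right (c : ℝ) (X Y : LV n) : lor X (c • Y) = c * lor X Y := by
  simp only [lor, Prod.smul_fst, Prod.smul_snd, real_inner_smul_right, smul_eq_mul]; ring

theorem lor_neg_left (X Y : LV n) : lor (-X) Y = -lor X Y := by
  simp only [lor, Prod.fst_neg, Prod.snd_neg, inner_neg_left]; ring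

theorem lor_neg_right (X Y : LV n) : lor X (-Y) = -lor X Y := by
  simp only [lor, Prod.fst_neg, Prod.snd_neg, inner_neg_right]; ring

theorem lor_sub_left (X Y Z : LV n) : lor (X - Y) Z = lor X Z - lor Y Z := by
  rw [sub_eq_add_neg, lor_add_left, lor_neg_left]; ring

theorem lor_sub_right (X Y Z : LV n) : lor X (Y - Z) = lor X Y - lor X Z := by
  rw [sub_eq_add_neg, lor_add_right, lor_neg_right]; ring

theorem lor_self_nonneg_of_orth {Y W : LV n} (hY : Y ∈ LCone n) (h : lor W Y = 0) :
    0 ≤ lor W W := by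
  have h1 : inner ℝ W.1 Y.1 = W.2 * Y.2 := by simpa [lor, sub_eq_zero] using h
  have hY0 : 0 < Y.2 := lt_of_le_of_lt (norm_nonneg _) hY
  have h2 : |W.2| * Y.2 ≤ ‖W.1‖ * ‖Y.1‖ := by
    have := abs_real_inner_le_norm W.1 Y.1
    rw [h1, abs_mul, abs_of_pos hY0] at this
    exact this
  have h3 : |W.2| ≤ ‖W.1‖ := by
    by_contra hcon
    push Not at hcon
    have hY1 : ‖Y.1‖ < Y.2 := hY
    nlinarith [norm_nonneg W.1, norm_nonneg Y.1, abs_nonneg W.2]
  have h4 : W.2 * W.2 ≤ ‖W.1‖ * ‖W.1‖ := by
    rw [← abs_mul_abs_self W.2]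
    exact mul_self_le_mul_self (abs_nonneg _) h3
  have h5 : inner ℝ W.1 W.1 = ‖W.1‖ * ‖W.1‖ := real_inner_self_eq_norm_mul_norm _
  simp only [lor, h5]; linarith

theorem lor_self_eq_zero_of_orth {Y W : LV n} (hY : Y ∈ LCone n) (h : lor W Y = 0)
    (h0 : lor W W = 0) : W = 0 := by
  have h1 : inner ℝ W.1 Y.1 = W.2 * Y.2 := by simpa [lor, sub_eq_zero] using h
  have hY0 : 0 < Y.2 := lt_of_le_of_lt (norm_nonneg _) hY
  have h2 : |W.2| * Y.2 ≤ ‖W.1‖ * ‖Y.1‖ := by
    have := abs_real_inner_le_norm W.1 Y.1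
    rw [h1, abs_mul, abs_of_pos hY0] at this
    exact this
  have h5 : inner ℝ W.1 W.1 = ‖W.1‖ * ‖W.1‖ := real_inner_self_eq_norm_mul_norm _
  have h6 : ‖W.1‖ * ‖W.1‖ = W.2 * W.2 := by
    simp only [lor, h5] at h0; linarith
  have h7 : ‖W.1‖ = |W.2| := by
    rw [← abs_mul_abs_self W.2] at h6
    have := abs_nonneg W.2
    nlinarith [norm_nonneg W.1, mul_self_nonneg (‖W.1‖ - |W.2|), mul_self_nonneg (‖W.1‖ + |W.2|)]
  have h8 : |W.2| = 0 := by
    by_contra hne
    have hpos : 0 < |W.2| := lt_of_le_of_ne (abs_nonneg _) (Ne.symm hne)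
    rw [h7] at h2
    have hY1 : ‖Y.1‖ < Y.2 := hY
    nlinarith
  have h9 : W.2 = 0 := abs_eq_zero.mp h8
  have h10 : W.1 = 0 := by rw [← norm_eq_zero, h7, h8]
  exact Prod.ext h10 h9

/-- Cauchy-Schwarz on the orthogonal complement of a time-like vector. -/
theorem lor_cauchy {Y U W : LV n} (hY : Y ∈ LCone n) (hU : lor U Y = 0) (hW : lor W Y = 0) :
    lor U W ^ 2 ≤ lor U U * lor W W := by
  have key : ∀ t : ℝ, 0 ≤ lor W W * (t * t) + (2 * lor U W) * t + lor U U := by
    intro t
    have h1 : lor (U + t • W) Y = 0 := by rw [lor_add_left, lor_smul_left, hU, hW]; ring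
    have h2 := lor_self_nonneg_of_orth hY h1
    rw [lor_add_left, lor_add_right, lor_add_right, lor_smul_left, lor_smul_left, lor_smul_right,
      lor_smul_right, lor_comm W U] at h2
    linarith
  have := discrim_le_zero key
  unfold discrim at this
  nlinarith

theorem one_le_neg_lor (x y : Hy n) : 1 ≤ -lor x.val y.val := by
  have hx := x.lor_self
  have hy := y.lor_self
  set p : ℝ := -lor x.val y.val with hp
  have hu : lor (y.val - p • x.val) x.val = 0 := by
    rw [lor_sub_left, lor_smul_left, hx, lor_comm y.val x.val]; linarith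
  have h2 := lor_self_nonneg_of_orth x.mem hu
  have h3 : lor (y.val - p • x.val) (y.val - p • x.val) = p ^ 2 - 1 := by
    rw [lor_sub_left, lor_sub_right, lor_sub_right, lor_smul_left, lor_smul_left, lor_smul_right,
      lor_smul_right, hx, hy, lor_comm y.val x.val]
    have : lor x.val y.val = -p := by linarith
    rw [this]; ring
  rw [h3] at h2
  have hpos : 0 < p := by
    have hx0 : 0 < x.val.2 := lt_of_le_of_lt (norm_nonneg _) x.mem
    have hx1 : ‖x.val.1‖ < x.val.2 := x.mem
    have hy1 : ‖y.val.1‖ < y.val.2 := y.mem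
    have h4 := real_inner_le_norm x.val.1 y.val.1
    have h5 : ‖x.val.1‖ * ‖y.val.1‖ < x.val.2 * y.val.2 :=
      mul_lt_mul'' hx1 hy1 (norm_nonneg _) (norm_nonneg _)
    simp only [hp, lor]; linarith
  nlinarith

theorem neg_lor_eq_one_iff (x y : Hy n) : -lor x.val y.val = 1 ↔ x = y := by
  constructor
  · intro h
    have hx := x.lor_self
    have hy := y.lor_self
    have hxy : lor x.val y.val = -1 := by linarith
    have hu : lor (y.val - x.val) x.val = 0 := by
      rw [lor_sub_left, hx, lor_comm y.val x.val, hxy]; ring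
    have h3 : lor (y.val - x.val) (y.val - x.val) = 0 := by
      rw [lor_sub_left, lor_sub_right, lor_sub_right, hx, hy, lor_comm y.val x.val, hxy]; ring
    have h4 := lor_self_eq_zero_of_orth x.mem hu h3
    have h5 : x.val = y.val := (sub_eq_zero.mp h4).symm
    cases x; cases y; simp_all
  · rintro rfl
    rw [x.lor_self]; ring

theorem neg_lor_triangle (x y z : Hy n) :
    -lor x.val z.val ≤ (-lor x.val y.val) * (-lor y.val z.val) +
      Real.sqrt ((-lor x.val y.val) ^ 2 - 1) * Real.sqrt ((-lor y.val z.val) ^ 2 - 1) := by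
  have hx := x.lor_self
  have hy := y.lor_self
  have hz := z.lor_self
  set p : ℝ := -lor x.val y.val with hp
  set q : ℝ := -lor y.val z.val with hq
  set r : ℝ := -lor x.val z.val with hr
  have e1 : lor x.val y.val = -p := by linarith
  have e2 : lor y.val z.val = -q := by linarith
  have e3 : lor x.val z.val = -r := by linarith
  have hu : lor (x.val - p • y.val) y.val = 0 := by
    rw [lor_sub_left, lor_smul_left, hy, e1]; ring
  have hv : lor (z.val - q • y.val) y.val = 0 := by
    rw [lor_sub_left, lor_smul_left, hy, lor_comm z.val y.val, e2]; ring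
  have h := lor_cauchy y.mem hu hv
  have h1 : lor (x.val - p • y.val) (x.val - p • y.val) = p ^ 2 - 1 := by
    rw [lor_sub_left, lor_sub_right, lor_sub_right, lor_smul_left, lor_smul_left, lor_smul_right,
      lor_smul_right, hx, hy, lor_comm y.val x.val, e1]; ring
  have h2 : lor (z.val - q • y.val) (z.val - q • y.val) = q ^ 2 - 1 := by
    rw [lor_sub_left, lor_sub_right, lor_sub_right, lor_smul_left, lor_smul_left, lor_smul_right,
      lor_smul_right, hz, hy, lor_comm z.val y.val, e2]; ring
  have h3 : lor (x.val - p • y.val) (z.val - q • y.val) = p * q - r := by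
    rw [lor_sub_left, lor_sub_right, lor_sub_right, lor_smul_left, lor_smul_left, lor_smul_right,
      lor_smul_right, hy, e1, e2, e3]; ring
  rw [h1, h2, h3] at h
  have hp1 : 0 ≤ p ^ 2 - 1 := by have := one_le_neg_lor x y; nlinarith
  have hq1 : 0 ≤ q ^ 2 - 1 := by have := one_le_neg_lor y z; nlinarith
  have h4 : r - p * q ≤ Real.sqrt ((p ^ 2 - 1) * (q ^ 2 - 1)) := by
    apply Real.le_sqrt_of_sq_le
    nlinarith
  rw [Real.sqrt_mul hp1] at h4
  linarith

noncomputable instance : MetricSpace (Hy n) where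
  dist x y := Real.arcosh (-lor x.val y.val)
  dist_self x := by
    show Real.arcosh (-lor x.val x.val) = 0
    rw [x.lor_self]; simp
  dist_comm x y := by
    show Real.arcosh (-lor x.val y.val) = Real.arcosh (-lor y.val x.val)
    rw [lor_comm]
  dist_triangle x y z := by
    show Real.arcosh (-lor x.val z.val) ≤ Real.arcosh (-lor x.val y.val) +
      Real.arcosh (-lor y.val z.val)
    have h := neg_lor_triangle x y z
    have hxy := one_le_neg_lor x y
    have hyz := one_le_neg_lor y z
    have hxz := one_le_neg_lor x z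
    have h0 : 0 ≤ Real.arcosh (-lor x.val y.val) + Real.arcosh (-lor y.val z.val) :=
      add_nonneg (Real.arcosh_nonneg hxy) (Real.arcosh_nonneg hyz)
    have h1 : Real.cosh (Real.arcosh (-lor x.val z.val)) ≤
        Real.cosh (Real.arcosh (-lor x.val y.val) + Real.arcosh (-lor y.val z.val)) := by
      rw [Real.cosh_add, Real.cosh_arcosh hxz, Real.cosh_arcosh hxy, Real.cosh_arcosh hyz,
        Real.sinh_arcosh hxy, Real.sinh_arcosh hyz]
      exact h
    have h2 := Real.cosh_le_cosh.mp h1
    rwa [abs_of_nonneg (Real.arcosh_nonneg hxz), abs_of_nonneg h0] at h2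
  eq_of_dist_eq_zero {x y} h := by
    have hxy := one_le_neg_lor x y
    have h' : Real.arcosh (-lor x.val y.val) = 0 := h
    rw [Real.arcosh_eq_zero_iff hxy] at h'
    exact (neg_lor_eq_one_iff x y).mp h'

theorem dist_def (x y : Hy n) : dist x y = Real.arcosh (-lor x.val y.val) := rfl

theorem cosh_dist (x y : Hy n) : Real.cosh (dist x y) = -lor x.val y.val := by
  rw [dist_def, Real.cosh_arcosh (one_le_neg_lor x y)]

end Pool.Agent.MP_8db1a4_gt
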