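import Mathlib

set_option autoImplicit false

/-! Lorentz space, hyperboloid, definitions (MP_8db1a4_gt). -/

namespace Pool.Agent.MP_8db1a4_gt

open Set

/-- Lorentz space `ℝ^{n,1}` (sup norm of the Euclidean norm and the absolute value). -/
abbrev LV (n : ℕ) : Type := EuclideanSpace ℝ (Fin n) × ℝ

/-- The Lorentz form. -/
noncomputable def lor {n : ℕ} (X Y : LV n) : ℝ := inner ℝ X.1 Y.1 - X.2 * Y.2

/-- The open future cone. -/
def LCone (n : ℕ) : Set (LV n) := {X | ‖X.1‖ < X.2}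

/-- Hyperbolic space as the upper sheet of the hyperboloid. -/
structure Hy (n : ℕ) where
  val : LV n
  mem : val ∈ LCone n
  lor_self : lor val val = -1

/-- The base point. -/
noncomputable def Ohy (n : ℕ) : Hy n where
  val := (0, 1)
  mem := by simp [LCone]
  lor_self := by simp [lor]

/-- `√(-⟨X,X⟩)`. -/
noncomputable def rad {n : ℕ} (X : LV n) : ℝ := Real.sqrt (-lor X X)

/-- The symmetric boost sending `(0,1)` to `y = (a,b)`:
`(ζ,t) ↦ (ζ + (⟨a,ζ⟩/(1+b)) a + t a, ⟨a,ζ⟩ + t b)`. -/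
noncomputable def boost {n : ℕ} (y : LV n) : LV n →L[ℝ] LV n :=
  ContinuousLinearMap.prod
    (ContinuousLinearMap.fst ℝ _ _ +
      (ContinuousLinearMap.smulRight ((1 / (1 + y.2)) • (innerSL ℝ y.1).comp
        (ContinuousLinearMap.fst ℝ (EuclideanSpace ℝ (Fin n)) ℝ)) y.1) +
      ContinuousLinearMap.smulRight (ContinuousLinearMap.snd ℝ (EuclideanSpace ℝ (Fin n)) ℝ) y.1)
    ((innerSL ℝ y.1).comp (ContinuousLinearMap.fst ℝ _ _) +
      y.2 • ContinuousLinearMap.snd ℝ _ _)

/-- The inverse boost. -/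
noncomputable def unboost {n : ℕ} (y : LV n) : LV n →L[ℝ] LV n := boost (-y.1, y.2)

theorem boost_apply {n : ℕ} (y X : LV n) :
    boost y X = (X.1 + (inner ℝ y.1 X.1 / (1 + y.2)) • y.1 + X.2 • y.1,
      inner ℝ y.1 X.1 + X.2 * y.2) := by
  ext i <;> simp [boost, div_eq_inv_mul, mul_comm]

/-- A linear action of `G` by Lorentz isometries preserving the future cone. -/
structure LorAction {n : ℕ} {G : Type*} [Group G] (ρ : G →* (LV n →L[ℝ] LV n)) : Prop where
  lor_eq : ∀ (g : G) (X Y : LV n), lor (ρ g X) (ρ g Y) = lor X Y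
  cone : ∀ (g : G), ∀ X ∈ LCone n, ρ g X ∈ LCone n

/-- The action on hyperbolic space. -/
@[reducible] def hyAction {n : ℕ} {G : Type*} [Group G] {ρ : G →* (LV n →L[ℝ] LV n)}
    (h : LorAction ρ) : MulAction G (Hy n) where
  smul g x := ⟨ρ g x.val, h.cone g _ x.mem, by rw [h.lor_eq, x.lor_self]⟩
  one_smul x := by
    cases x
    simp only [HSMul.hSMul, map_one]
    rfl
  mul_smul g g' x := by
    cases x
    simp only [HSMul.hSMul, map_mul]
    rfl

end Pool.Agent.MP_8db1a4_gt
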