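import Pool.Agent.MP_8db1a4_gt.HyBasic
import Pool.Agent.MP_8db1a4_gt.Coarse

set_option autoImplicit false

/-! Small elements and maximal elementary subgroups in the Lorentz model (MP_8db1a4_gt). -/

namespace Pool.Agent.MP_8db1a4_gt

open Set

/-- Discreteness of a linear Lorentz action. -/
def LorDiscrete {n : ℕ} {G : Type*} [Group G] (ρ : G →* (LV n →L[ℝ] LV n)) : Prop :=
  ∀ R : ℝ, {g : G | -lor (Ohy n).val (ρ g (Ohy n).val) ≤ R}.Finite

/-- Torsion-free. -/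
def TorsFree (G : Type*) [Group G] : Prop := ∀ g : G, ∀ k : ℕ, 0 < k → g ^ k = 1 → g = 1

/-- No subgroup isomorphic to `ℤ²`. -/
def NoZ2 (G : Type*) [Group G] : Prop :=
  ∀ f : Multiplicative (ℤ × ℤ) →* G, ¬ Function.Injective f

/-- The elements whose matrix in the frame at `y` is `ε`-close to the identity. -/
def smallAt {n : ℕ} {G : Type*} [Group G] (ρ : G →* (LV n →L[ℝ] LV n)) (ε : ℝ) (y : Hy n) :
    Set G :=
  {g | ‖(unboost y.val).comp ((ρ g).comp (boost y.val)) - ContinuousLinearMap.id ℝ (LV n)‖ ≤ ε}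

/-- The centralizers of the non-trivial elements. -/
def elemSub (G : Type*) [Group G] : Set (Subgroup G) :=
  {Γ | ∃ g : G, g ≠ 1 ∧ Γ = Subgroup.centralizer {g}}

/-- The conical limit set, in the unit sphere of `ℝⁿ`. -/
def conLim {n : ℕ} {G : Type*} [Group G] (ρ : G →* (LV n →L[ℝ] LV n)) :
    Set (EuclideanSpace ℝ (Fin n)) :=
  {ξ | ‖ξ‖ = 1 ∧ ∃ (C : ℝ) (u : ℕ → G) (s : ℕ → ℝ), Filter.Tendsto s Filter.atTop Filter.atTop ∧
    ∀ k, -lor (ρ (u k) (Ohy n).val) (Real.sinh (s k) • ξ, Real.cosh (s k)) ≤ C}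

end Pool.Agent.MP_8db1a4_gt
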